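import Pool.Agent.Lib.P47c.TDefs
import Pool.Agent.Lib.P325h.Defs

/-!
Sums of squares: functions of few labels, solutions of the sum-of-squares hierarchy, and the
constraints of the hierarchy for a relaxation with arbitrary variables.
-/

open scoped BigOperators NNReal

namespace Pool.Agent.Lib.P47s

/-- The linear combinations of functions of at most `t` labels. -/
def Jun (V Ω : Type) (t : ℕ) : Submodule ℝ ((V → Ω) → ℝ) :=
  Submodule.span ℝ {f | ∃ D : Finset V, D.card ≤ t ∧ DependsOn f (D : Set V)}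

/-- A linear functional with `E 1 = 1` and `E (f ^ 2) ≥ 0` for every linear combination `f` of
functions of at most `r` labels. -/
structure IsSosExpectation {V Ω : Type} (r : ℕ) (E : ((V → Ω) → ℝ) →ₗ[ℝ] ℝ) : Prop where
  one : E (fun _ => 1) = 1
  sq : ∀ f ∈ Jun V Ω r, 0 ≤ E (fun z => f z ^ 2)

/-- The sums of squares of functions in `L`. -/
noncomputable def sosC {Z : Type} (L : Submodule ℝ (Z → ℝ)) : Submodule ℝ≥0 (Z → ℝ) :=
  Submodule.span ℝ≥0 {f | ∃ g ∈ L, f = fun z => g z ^ 2}

/-- The points at which every affine function is nonnegative that is a sum of squares of functions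
in `L` at the points `pt z`. -/
def SosSet {Z Y : Type} [AddCommGroup Y] [Module ℝ Y] (L : Submodule ℝ (Z → ℝ)) (pt : Z → Y) :
    Set Y :=
  {y | ∀ (v : Y →ₗ[ℝ] ℝ) (v0 : ℝ), (fun z => v (pt z) + v0) ∈ sosC L → 0 ≤ v y + v0}

/-- The relaxation by the nonnegative functions `g j` and the squares of functions in `L` shows that
`G` is at most `s`. -/
def CertW {Z : Type} [Fintype Z] (L : Submodule ℝ (Z → ℝ)) {R : ℕ} (g : Fin R → Z → ℝ) (s : ℝ)
    (G : Z → ℝ) : Prop :=
  ∀ γ : Z → ℝ, ∑ x, γ x = 1 → (∀ j, 0 ≤ ∑ x, γ x * g j x) →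
    (∀ h ∈ L, 0 ≤ ∑ x, γ x * h x ^ 2) → ∑ x, γ x * G x ≤ s

/-- The number of nonzero values. -/
noncomputable def wt {W A : Type} [Fintype W] [Zero A] (l : W → A) : ℕ := by
  classical
  exact (Finset.univ.filter (fun w => l w ≠ 0)).card

end Pool.Agent.Lib.P47s
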