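import Pool.Agent.Lib.P47s.Defs

/-!
Characters and Fourier coefficients of functions of labels in `ZMod q`; the tests built from a
family of permutations with line labels.
-/

open scoped BigOperators

namespace Pool.Agent.Lib.P47s

section Fourier

variable {W : Type} [Fintype W] {q : ℕ} [NeZero q]

/-- The character with frequency `l`. -/
noncomputable def chi (l y : W → ZMod q) : ℂ := ZMod.stdAddChar (∑ w, l w * y w)

/-- The Fourier coefficient of `f` at `l`. -/
noncomputable def hat [DecidableEq W] (f : (W → ZMod q) → ℂ) (l : W → ZMod q) : ℂ :=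
  (∑ y, f y * chi (-l) y) / (Fintype.card (W → ZMod q) : ℂ)

/-- The functional with the values `e l` at the characters. -/
noncomputable def fn [DecidableEq W] (e : (W → ZMod q) → ℂ) : ((W → ZMod q) → ℝ) →ₗ[ℝ] ℝ where
  toFun f := (∑ l, hat (fun y => (f y : ℂ)) l * e l).re
  map_add' f g := by
    rw [← Complex.add_re, ← Finset.sum_add_distrib]
    congr 1
    refine Finset.sum_congr rfl fun l _ => ?_
    rw [← add_mul]
    congr 1
    unfold hat
    rw [← add_div, ← Finset.sum_add_distrib]
    congr 1
    refine Finset.sum_congr rfl fun y _ => ?_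
    show ((f y + g y : ℝ) : ℂ) * chi (-l) y = (f y : ℂ) * chi (-l) y + (g y : ℂ) * chi (-l) y
    rw [Complex.ofReal_add, add_mul]
  map_smul' a f := by
    rw [RingHom.id_apply, smul_eq_mul, ← Complex.re_ofReal_mul, Finset.mul_sum]
    congr 1
    refine Finset.sum_congr rfl fun l _ => ?_
    rw [← mul_assoc]
    congr 1
    unfold hat
    rw [← mul_div_assoc, Finset.mul_sum]
    congr 1
    refine Finset.sum_congr rfl fun y _ => ?_
    show ((a * f y : ℝ) : ℂ) * chi (-l) y = (a : ℂ) * ((f y : ℂ) * chi (-l) y)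
    rw [Complex.ofReal_mul, mul_assoc]

end Fourier

section Tests

variable {n Δ q l : ℕ}

/-- The value at `j` of the line `x` with the shift `b`, for the edge `e = (u, j)`. -/
def prj (b : Fin n × Fin Δ → ZMod q) (e : Fin n × Fin Δ) (x : ZMod q × ZMod q) : ZMod q :=
  x.1 + x.2 * ((e.2 : ℕ) : ZMod q) + b e

/-- The equation of the edge `(u, j)`: the values at the edges `(u, j0)`, `(u, j1)` and `(u, j)` lie
on a line. -/
def LineEq (π : Fin Δ → Equiv.Perm (Fin n)) (b : Fin n × Fin Δ → ZMod q) (j0 j1 : Fin Δ) (u : Fin n)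
    (j : Fin Δ) (y : Fin n → ZMod q) : Prop :=
  y (π j u) - b (u, j) = (1 - ((j : ℕ) : ZMod q)) * (y (π j0 u) - b (u, j0)) +
    ((j : ℕ) : ZMod q) * (y (π j1 u) - b (u, j1))

/-- The type of the tests: a right vertex, `l` edges at it, and a partition of the labels into `l`
classes. -/
abbrev TestP (n Δ q l : ℕ) : Type := Fin n × (Fin l → Fin Δ) × (ZMod q → Fin l)

/-- The left end of the edge `i` of a test. -/
def lft (π : Fin Δ → Equiv.Perm (Fin n)) (w : Fin n) (a : Fin l → Fin Δ) (i : Fin l) : Fin n :=
  (π (a i)).symm w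

/-- The set of the pairs (left vertex, line) that cover a test. -/
noncomputable def nearP [NeZero q] (π : Fin Δ → Equiv.Perm (Fin n)) (b : Fin n × Fin Δ → ZMod q)
    (t : TestP n Δ q l) : Finset (Fin n × (ZMod q × ZMod q)) := by
  classical
  exact Finset.univ.filter (fun p => ∃ i, lft π t.1 t.2.1 i = p.1 ∧
    t.2.2 (prj b (p.1, t.2.1 i) p.2) = i)

/-- The lines `x` with `(u, x) ∈ A`. -/
noncomputable def rowP [NeZero q] (A : Finset (Fin n × (ZMod q × ZMod q))) (u : Fin n) :
    Finset (ZMod q × ZMod q) := by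
  classical
  exact Finset.univ.filter (fun x => (u, x) ∈ A)

end Tests

end Pool.Agent.Lib.P47s
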