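import Pool.Agent.Lib.P325P.Es
import Pool.Agent.Lib.P47s.Defs

/-!
Module SosA (1h; compare P325pg/Sos.lean). Functions of few labels and sums of squares.
PROOF. sosC_*: Submodule.span_induction as in P325pg/Sos.lean. jun_mul: span_induction twice (functions of D and D' multiply to a
function of D ∪ D'). jun_comp: span_induction; a function of D becomes a function of the union of the sets of the elements of D
(Finset.card_biUnion_le_card_mul). local_of_sos: for f ≥ 0 depending on D, card D ≤ r, the function sqrt ∘ f depends on D, so lies in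
Jun r, and its square is f. sos_comp: hE.sq of f ∘ φ.
-/

open scoped BigOperators NNReal

namespace Pool.Agent.Lib.P47s

open Pool.Agent.Lib.P325h (IsLocalExpectation)

section Cone

variable {Z : Type} {L : Submodule ℝ (Z → ℝ)}

theorem sosC_sq {g : Z → ℝ} (hg : g ∈ L) : (fun z => g z ^ 2) ∈ sosC L := by
  exact Submodule.subset_span ⟨g, hg, rfl⟩

theorem sosC_smul {f : Z → ℝ} (hf : f ∈ sosC L) {a : ℝ} (ha : 0 ≤ a) :
    (fun x => a * f x) ∈ sosC L := by
  have h1 := (sosC L).smul_mem (⟨a, ha⟩ : ℝ≥0) hf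
  exact h1

theorem sosC_add {f g : Z → ℝ} (hf : f ∈ sosC L) (hg : g ∈ sosC L) :
    (fun x => f x + g x) ∈ sosC L := by
  exact (sosC L).add_mem hf hg

theorem sosC_sum {ι : Type*} (s : Finset ι) (f : ι → Z → ℝ) (hf : ∀ i ∈ s, f i ∈ sosC L) :
    (fun x => ∑ i ∈ s, f i x) ∈ sosC L := by
  have h1 := (sosC L).sum_mem hf
  have h2 : (∑ i ∈ s, f i) = fun x => ∑ i ∈ s, f i x := by
    funext x
    rw [Finset.sum_apply]
  rwa [h2] at h1

theorem sosC_nonneg {f : Z → ℝ} (hf : f ∈ sosC L) (x : Z) : 0 ≤ f x := by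
  refine Submodule.span_induction (p := fun f _ => 0 ≤ f x) ?_ ?_ ?_ ?_ hf
  · rintro _ ⟨g, _, rfl⟩
    exact sq_nonneg _
  · exact le_rfl
  · intro f g _ _ h1 h2
    exact add_nonneg h1 h2
  · intro a f _ h1
    exact mul_nonneg a.2 h1

theorem sosC_pos (E : (Z → ℝ) →ₗ[ℝ] ℝ) (hE : ∀ g ∈ L, 0 ≤ E (fun z => g z ^ 2)) {f : Z → ℝ}
    (hf : f ∈ sosC L) : 0 ≤ E f := by
  refine Submodule.span_induction (p := fun f _ => 0 ≤ E f) ?_ ?_ ?_ ?_ hf
  · rintro _ ⟨g, hg, rfl⟩
    exact hE g hg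
  · exact (map_zero E).ge
  · intro f g _ _ h1 h2
    rw [map_add]
    exact add_nonneg h1 h2
  · intro a f _ h1
    have h2 : a • f = (a : ℝ) • f := rfl
    rw [h2, map_smul]
    exact mul_nonneg a.2 h1

theorem sosC_comp {Z' : Type} {L' : Submodule ℝ (Z' → ℝ)} (φ : Z' → Z)
    (h : ∀ g ∈ L, (fun z => g (φ z)) ∈ L') {f : Z → ℝ} (hf : f ∈ sosC L) :
    (fun z => f (φ z)) ∈ sosC L' := by
  refine Submodule.span_induction (p := fun f _ => (fun z => f (φ z)) ∈ sosC L') ?_ ?_ ?_ ?_ hf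
  · rintro _ ⟨g, hg, rfl⟩
    exact sosC_sq (h g hg)
  · exact (sosC L').zero_mem
  · intro f g _ _ h1 h2
    exact (sosC L').add_mem h1 h2
  · intro a f _ h1
    exact (sosC L').smul_mem a h1

end Cone

section Jun

variable {V Ω V' Ω' : Type}

theorem jun_of_dep {f : (V → Ω) → ℝ} {D : Finset V} {t : ℕ} (hD : D.card ≤ t)
    (hf : DependsOn f (D : Set V)) : f ∈ Jun V Ω t := by
  exact Submodule.subset_span ⟨D, hD, hf⟩

theorem jun_mono {s t : ℕ} (h : s ≤ t) : Jun V Ω s ≤ Jun V Ω t := by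
  refine Submodule.span_mono ?_
  rintro f ⟨D, hD, hf⟩
  exact ⟨D, hD.trans h, hf⟩

theorem jun_mul {s t : ℕ} {f g : (V → Ω) → ℝ} (hf : f ∈ Jun V Ω s) (hg : g ∈ Jun V Ω t) :
    (fun x => f x * g x) ∈ Jun V Ω (s + t) := by
  classical
  refine Submodule.span_induction (p := fun f _ => (fun x => f x * g x) ∈ Jun V Ω (s + t))
    ?_ ?_ ?_ ?_ hf
  · rintro f ⟨D, hD, hfD⟩
    refine Submodule.span_induction (p := fun g _ => (fun x => f x * g x) ∈ Jun V Ω (s + t))
      ?_ ?_ ?_ ?_ hg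
    · rintro g ⟨D', hD', hgD'⟩
      refine jun_of_dep (D := D ∪ D') ((Finset.card_union_le _ _).trans (by omega)) ?_
      intro x y hxy
      have h1 : f x = f y := hfD fun i hi => hxy i (Finset.mem_union_left _ hi)
      have h2 : g x = g y := hgD' fun i hi => hxy i (Finset.mem_union_right _ hi)
      show f x * g x = f y * g y
      rw [h1, h2]
    · have h1 : (fun x => f x * (0 : (V → Ω) → ℝ) x) = 0 := by
        funext x
        simp
      rw [h1]
      exact (Jun V Ω (s + t)).zero_mem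
    · intro g g' _ _ h1 h2
      have h3 : (fun x => f x * (g + g') x) = (fun x => f x * g x) + fun x => f x * g' x := by
        funext x
        simp [mul_add]
      rw [h3]
      exact (Jun V Ω (s + t)).add_mem h1 h2
    · intro a g _ h1
      have h3 : (fun x => f x * (a • g) x) = a • fun x => f x * g x := by
        funext x
        simp only [Pi.smul_apply, smul_eq_mul]
        ring
      rw [h3]
      exact (Jun V Ω (s + t)).smul_mem a h1
  · have h1 : (fun x => (0 : (V → Ω) → ℝ) x * g x) = 0 := by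
      funext x
      simp
    rw [h1]
    exact (Jun V Ω (s + t)).zero_mem
  · intro f f' _ _ h1 h2
    have h3 : (fun x => (f + f') x * g x) = (fun x => f x * g x) + fun x => f' x * g x := by
      funext x
      simp [add_mul]
    rw [h3]
    exact (Jun V Ω (s + t)).add_mem h1 h2
  · intro a f _ h1
    have h3 : (fun x => (a • f) x * g x) = a • fun x => f x * g x := by
      funext x
      simp only [Pi.smul_apply, smul_eq_mul]
      ring
    rw [h3]
    exact (Jun V Ω (s + t)).smul_mem a h1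

/-- A substitution such that every new label depends on at most `c` labels. -/
theorem jun_comp (φ : (V' → Ω') → (V → Ω)) (c : ℕ)
    (h : ∀ v, ∃ D : Finset V', D.card ≤ c ∧ ∀ x y, (∀ i ∈ D, x i = y i) → φ x v = φ y v) {t : ℕ}
    {f : (V → Ω) → ℝ} (hf : f ∈ Jun V Ω t) : (fun x => f (φ x)) ∈ Jun V' Ω' (t * c) := by
  classical
  choose Dv hDc hDv using h
  refine Submodule.span_induction (p := fun f _ => (fun x => f (φ x)) ∈ Jun V' Ω' (t * c))
    ?_ ?_ ?_ ?_ hf
  · rintro f ⟨D, hD, hfD⟩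
    refine jun_of_dep (D := D.biUnion Dv)
      ((Finset.card_biUnion_le_card_mul _ _ _ fun v _ => hDc v).trans
        (Nat.mul_le_mul_right c hD)) ?_
    intro x y hxy
    refine hfD fun v hv => hDv v x y fun i hi => hxy i ?_
    exact Finset.mem_coe.2 (Finset.mem_biUnion.2 ⟨v, hv, hi⟩)
  · exact (Jun V' Ω' (t * c)).zero_mem
  · intro f g _ _ h1 h2
    exact (Jun V' Ω' (t * c)).add_mem h1 h2
  · intro a f _ h1
    exact (Jun V' Ω' (t * c)).smul_mem a h1

theorem local_of_sos {r : ℕ} {E : ((V → Ω) → ℝ) →ₗ[ℝ] ℝ} (hE : IsSosExpectation r E) :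
    IsLocalExpectation r E := by
  refine ⟨hE.one, fun f D hD hf hpos => ?_⟩
  have h1 : (fun z => Real.sqrt (f z)) ∈ Jun V Ω r := by
    refine jun_of_dep hD ?_
    intro x y hxy
    have h2 : f x = f y := hf hxy
    show Real.sqrt (f x) = Real.sqrt (f y)
    rw [h2]
  have h2 := hE.sq _ h1
  have h3 : (fun z => Real.sqrt (f z) ^ 2) = f := by
    funext z
    exact Real.sq_sqrt (hpos z)
  rwa [h3] at h2

theorem sos_mono {r r' : ℕ} (h : r' ≤ r) {E : ((V → Ω) → ℝ) →ₗ[ℝ] ℝ}
    (hE : IsSosExpectation r E) : IsSosExpectation r' E := by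
  exact ⟨hE.one, fun f hf => hE.sq f (jun_mono h hf)⟩

theorem sos_comp (φ : (V' → Ω') → (V → Ω)) (c : ℕ)
    (h : ∀ v, ∃ D : Finset V', D.card ≤ c ∧ ∀ x y, (∀ i ∈ D, x i = y i) → φ x v = φ y v)
    {r r' : ℕ} (hr : r' * c ≤ r) {E : ((V' → Ω') → ℝ) →ₗ[ℝ] ℝ} (hE : IsSosExpectation r E) :
    IsSosExpectation r' (E ∘ₗ LinearMap.funLeft ℝ ℝ φ) := by
  refine ⟨hE.one, fun f hf => ?_⟩
  exact hE.sq (fun x => f (φ x)) (jun_mono hr (jun_comp φ c h hf))

end Jun

end Pool.Agent.Lib.P47s
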