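import Pool.Agent.Lib.P325P.Base
import Pool.Agent.Lib.P47c.TDefs
import Pool.Agent.Lib.P47s.Defs
import Pool.Agent.Lib.P47s.PDefs
import Pool.Agent.Lib.P47s.SosA

/-!
Module CompP (1.5h; adapt P47c/Comp.lean; black boxes SosA, P325P.Base). Completeness of the tests.
PROOF. Let z j = y (π j u) - b (u, j) and dec y u = (z j0, z j1 - z j0), which depends on two labels of y: E' = E ∘ₗ funLeft ℝ ℝ dec is a
sum-of-squares expectation of degree r by sos_comp (r * 2 ≤ r0). If LineEq π b j0 j1 u j y then prj b (u, j) (dec y u) =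
z j0 + (z j1 - z j0) j + b (u, j) = (1 - j) z j0 + j z j1 + b (u, j) = y (π j u). For a test t = (w, a, Y) with u i = lft π w a i, so
π (a i) (u i) = w: if all equations (u i, a i) hold then with i = Y (y w) the pair (u i, dec y (u i)) is in nearP t, since its projection is y w. Hence
cov_t (dec y) - 1 + ∑ i, viol_i y ≥ 0, viol_i = the indicator that the equation (u i, a i) fails. This function depends on the at most
2 l + 1 ≤ r0 labels of w, π j0 (u i), π j1 (u i), so E of it is ≥ 0 (local_of_sos), and E viol_i = 0: E cov_t(dec) ≥ 1. cov is the mean over the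
tests (see CompAux in P47c/Comp.lean: E_mean; TestP is nonempty as n, Δ, l ≥ 1).
-/

open scoped BigOperators

namespace Pool.Agent.Lib.P47s

open Pool.Agent.Lib.P325P (mean)
open Pool.Agent.Lib.P47c (cov)

namespace CompPAux

theorem E_mean {Z X : Type} [Fintype X] (E : (Z → ℝ) →ₗ[ℝ] ℝ) (f : X → Z → ℝ) :
    E (fun z => mean (fun x => f x z)) = mean (fun x => E (f x)) := by
  unfold mean
  have h : (fun z => (∑ x, f x z) / (Fintype.card X : ℝ)) =
      ((Fintype.card X : ℝ)⁻¹) • ∑ x, f x := by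
    funext z
    rw [Pi.smul_apply, Finset.sum_apply, smul_eq_mul, div_eq_inv_mul]
  rw [h, map_smul, map_sum, smul_eq_mul, div_eq_inv_mul]

/-- the line at `u` through the values at the edges `(u, j0)` and `(u, j1)` -/
def dec {n Δ q : ℕ} (π : Fin Δ → Equiv.Perm (Fin n)) (b : Fin n × Fin Δ → ZMod q)
    (j0 j1 : Fin Δ) (y : Fin n → ZMod q) (u : Fin n) : ZMod q × ZMod q :=
  (y (π j0 u) - b (u, j0), (y (π j1 u) - b (u, j1)) - (y (π j0 u) - b (u, j0)))

theorem dec_congr {n Δ q : ℕ} (π : Fin Δ → Equiv.Perm (Fin n)) (b : Fin n × Fin Δ → ZMod q)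
    (j0 j1 : Fin Δ) (x y : Fin n → ZMod q) (u : Fin n) (h0 : x (π j0 u) = y (π j0 u))
    (h1 : x (π j1 u) = y (π j1 u)) : dec π b j0 j1 x u = dec π b j0 j1 y u := by
  unfold dec
  rw [h0, h1]

theorem mem_nearP {n Δ q l : ℕ} [NeZero q] (π : Fin Δ → Equiv.Perm (Fin n))
    (b : Fin n × Fin Δ → ZMod q) (t : TestP n Δ q l) (p : Fin n × (ZMod q × ZMod q)) :
    p ∈ nearP π b t ↔ ∃ i, lft π t.1 t.2.1 i = p.1 ∧ t.2.2 (prj b (p.1, t.2.1 i) p.2) = i := by
  classical
  unfold nearP
  simp only [Finset.mem_filter, Finset.mem_univ, true_and]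

open Classical in
/-- the indicator that the test `t` is covered -/
noncomputable def gt {n Δ q l : ℕ} [NeZero q] (π : Fin Δ → Equiv.Perm (Fin n))
    (b : Fin n × Fin Δ → ZMod q) (j0 j1 : Fin Δ) (t : TestP n Δ q l) (y : Fin n → ZMod q) : ℝ :=
  if ∃ p ∈ nearP π b t, dec π b j0 j1 y p.1 = p.2 then 1 else 0

open Classical in
/-- the indicator that an equation fails -/
noncomputable def viol {n Δ q : ℕ} (π : Fin Δ → Equiv.Perm (Fin n))
    (b : Fin n × Fin Δ → ZMod q) (j0 j1 : Fin Δ) (u : Fin n) (j : Fin Δ)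
    (y : Fin n → ZMod q) : ℝ :=
  if LineEq π b j0 j1 u j y then 0 else 1

theorem pointwise {n Δ q l : ℕ} [NeZero q] (π : Fin Δ → Equiv.Perm (Fin n))
    (b : Fin n × Fin Δ → ZMod q) (j0 j1 : Fin Δ) (t : TestP n Δ q l) (y : Fin n → ZMod q) :
    0 ≤ gt π b j0 j1 t y - 1 + ∑ i : Fin l, viol π b j0 j1 (lft π t.1 t.2.1 i) (t.2.1 i) y := by
  classical
  have hnn : ∀ i ∈ (Finset.univ : Finset (Fin l)),
      0 ≤ viol π b j0 j1 (lft π t.1 t.2.1 i) (t.2.1 i) y := by
    intro i _
    unfold viol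
    split_ifs <;> norm_num
  have hg : 0 ≤ gt π b j0 j1 t y := by
    unfold gt
    split_ifs <;> norm_num
  by_cases h : ∀ i, LineEq π b j0 j1 (lft π t.1 t.2.1 i) (t.2.1 i) y
  · have h1 : gt π b j0 j1 t y = 1 := by
      unfold gt
      rw [if_pos]
      refine ⟨(lft π t.1 t.2.1 (t.2.2 (y t.1)),
        dec π b j0 j1 y (lft π t.1 t.2.1 (t.2.2 (y t.1)))), ?_, rfl⟩
      rw [mem_nearP]
      refine ⟨t.2.2 (y t.1), rfl, ?_⟩
      have e3 := h (t.2.2 (y t.1))
      have e4 : (π (t.2.1 (t.2.2 (y t.1)))) (lft π t.1 t.2.1 (t.2.2 (y t.1))) = t.1 := by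
        unfold lft
        exact Equiv.apply_symm_apply _ _
      have e5 : prj b (lft π t.1 t.2.1 (t.2.2 (y t.1)), t.2.1 (t.2.2 (y t.1)))
          (dec π b j0 j1 y (lft π t.1 t.2.1 (t.2.2 (y t.1)))) = y t.1 := by
        unfold LineEq at e3
        rw [e4] at e3
        unfold prj dec
        simp only
        linear_combination -e3
      simp only
      rw [e5]
    have h2 := Finset.sum_nonneg hnn
    linarith
  · push Not at h
    obtain ⟨i, hi⟩ := h
    have h1 : viol π b j0 j1 (lft π t.1 t.2.1 i) (t.2.1 i) y = 1 := by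
      unfold viol
      rw [if_neg hi]
    have h2 := Finset.single_le_sum hnn (Finset.mem_univ i)
    rw [h1] at h2
    linarith

end CompPAux

theorem compP {n Δ q l r r0 : ℕ} [NeZero q] (hn : 1 ≤ n) (hl : 1 ≤ l) (hr : r * 2 ≤ r0)
    (hr0 : 2 * l + 1 ≤ r0) (π : Fin Δ → Equiv.Perm (Fin n)) (b : Fin n × Fin Δ → ZMod q)
    (j0 j1 : Fin Δ) (E : ((Fin n → ZMod q) → ℝ) →ₗ[ℝ] ℝ) (hE : IsSosExpectation r0 E)
    (hv : ∀ u j, E (fun y => by classical exact if LineEq π b j0 j1 u j y then 0 else 1) = 0) :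
    ∃ E' : ((Fin n → ZMod q × ZMod q) → ℝ) →ₗ[ℝ] ℝ, IsSosExpectation r E' ∧
      1 ≤ E' (cov (T := TestP n Δ q l) (nearP π b)) := by
  classical
  have hne : Nonempty (TestP n Δ q l) := by
    have : Nonempty (Fin n) := ⟨⟨0, hn⟩⟩
    have : Nonempty (Fin l) := ⟨⟨0, hl⟩⟩
    have : Nonempty (Fin Δ) := ⟨j0⟩
    infer_instance
  refine ⟨E ∘ₗ LinearMap.funLeft ℝ ℝ (CompPAux.dec π b j0 j1), ?_, ?_⟩
  · refine sos_comp (CompPAux.dec π b j0 j1) 2 ?_ hr hE
    intro v
    refine ⟨{π j0 v, π j1 v}, Finset.card_le_two, fun x y h => ?_⟩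
    exact CompPAux.dec_congr π b j0 j1 x y v (h _ (by simp)) (h _ (by simp))
  · have e1 : (E ∘ₗ LinearMap.funLeft ℝ ℝ (CompPAux.dec π b j0 j1))
        (cov (T := TestP n Δ q l) (nearP π b)) =
        mean (fun t : TestP n Δ q l => E (CompPAux.gt π b j0 j1 t)) := by
      rw [← CompPAux.E_mean]
      change E (fun z => cov (T := TestP n Δ q l) (nearP π b) (CompPAux.dec π b j0 j1 z)) = _
      congr 1
      funext z
      unfold cov
      refine Pool.Agent.Lib.P325P.mean_congr fun t => ?_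
      unfold CompPAux.gt
      congr
    rw [e1]
    refine Pool.Agent.Lib.P325P.le_mean fun t => ?_
    have hf : 0 ≤ E (fun z => CompPAux.gt π b j0 j1 t z - 1 +
        ∑ i : Fin l, CompPAux.viol π b j0 j1 (lft π t.1 t.2.1 i) (t.2.1 i) z) := by
      refine (local_of_sos hE).nonneg _ (insert t.1
        ((Finset.univ.image (fun i : Fin l => π j0 (lft π t.1 t.2.1 i))) ∪
          (Finset.univ.image (fun i : Fin l => π j1 (lft π t.1 t.2.1 i))))) ?_ ?_
        (CompPAux.pointwise π b j0 j1 t)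
      · refine (Finset.card_insert_le _ _).trans (le_trans ?_ hr0)
        have h0 := Finset.card_image_le (s := (Finset.univ : Finset (Fin l)))
          (f := fun i : Fin l => π j0 (lft π t.1 t.2.1 i))
        have h1 := Finset.card_image_le (s := (Finset.univ : Finset (Fin l)))
          (f := fun i : Fin l => π j1 (lft π t.1 t.2.1 i))
        have h2 := Finset.card_union_le
          (Finset.univ.image (fun i : Fin l => π j0 (lft π t.1 t.2.1 i)))
          (Finset.univ.image (fun i : Fin l => π j1 (lft π t.1 t.2.1 i)))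
        rw [Finset.card_univ, Fintype.card_fin] at h0 h1
        omega
      · intro x y hxy
        have hx0 : x t.1 = y t.1 :=
          hxy _ (Finset.mem_coe.2 (Finset.mem_insert_self _ _))
        have hx1 : ∀ i : Fin l, x (π j0 (lft π t.1 t.2.1 i)) = y (π j0 (lft π t.1 t.2.1 i)) :=
          fun i => hxy _ (Finset.mem_coe.2 (Finset.mem_insert_of_mem (Finset.mem_union_left _
            (Finset.mem_image.2 ⟨i, Finset.mem_univ _, rfl⟩))))
        have hx2 : ∀ i : Fin l, x (π j1 (lft π t.1 t.2.1 i)) = y (π j1 (lft π t.1 t.2.1 i)) :=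
          fun i => hxy _ (Finset.mem_coe.2 (Finset.mem_insert_of_mem (Finset.mem_union_right _
            (Finset.mem_image.2 ⟨i, Finset.mem_univ _, rfl⟩))))
        have h1 : CompPAux.gt π b j0 j1 t x = CompPAux.gt π b j0 j1 t y := by
          unfold CompPAux.gt
          have : (∃ p ∈ nearP π b t, CompPAux.dec π b j0 j1 x p.1 = p.2) ↔
              (∃ p ∈ nearP π b t, CompPAux.dec π b j0 j1 y p.1 = p.2) := by
            refine exists_congr fun p => and_congr_right fun hp => ?_
            rw [CompPAux.mem_nearP] at hp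
            obtain ⟨i, hi, -⟩ := hp
            rw [← hi, CompPAux.dec_congr π b j0 j1 x y _ (hx1 i) (hx2 i)]
          simp only [this]
        have h2 : ∀ i : Fin l, CompPAux.viol π b j0 j1 (lft π t.1 t.2.1 i) (t.2.1 i) x =
            CompPAux.viol π b j0 j1 (lft π t.1 t.2.1 i) (t.2.1 i) y := by
          intro i
          unfold CompPAux.viol LineEq
          have e4 : (π (t.2.1 i)) (lft π t.1 t.2.1 i) = t.1 := by
            unfold lft
            exact Equiv.apply_symm_apply _ _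
          rw [e4, hx0, hx1 i, hx2 i]
        simp only [h1, h2]
    have e2 : (fun z => CompPAux.gt π b j0 j1 t z - 1 +
        ∑ i : Fin l, CompPAux.viol π b j0 j1 (lft π t.1 t.2.1 i) (t.2.1 i) z) =
        CompPAux.gt π b j0 j1 t - (fun _ => (1 : ℝ)) +
          ∑ i : Fin l, CompPAux.viol π b j0 j1 (lft π t.1 t.2.1 i) (t.2.1 i) := by
      funext z
      simp only [Pi.add_apply, Pi.sub_apply, Finset.sum_apply]
    rw [e2, map_add, map_sub, map_sum, hE.one] at hf
    have h3 : ∑ i : Fin l, E (CompPAux.viol π b j0 j1 (lft π t.1 t.2.1 i) (t.2.1 i)) = 0 := by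
      refine Finset.sum_eq_zero fun i _ => ?_
      rw [← hv (lft π t.1 t.2.1 i) (t.2.1 i)]
      congr 1
    rw [h3] at hf
    linarith

end Pool.Agent.Lib.P47s
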