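import Pool.Agent.Lib.P325cv.Para

/-!
Module NumP (0.7h; black box P325cv.exists_rpow_ge or plain Mathlib). The degree is at least a power of n.
PROOF. With R = √n / 3 (natural numbers), R / (Δ + 1) / 4 / 2 / 2 is at least √n / (48 (Δ + 1)) - c in the reals for a constant c that does not depend on n
(Nat.floor_div / Nat.lt_div_mul_add..: a / b > a/b - 1 as reals, Nat.lt_succ_sqrt: √n > sqrt n - 1). This is ≥ (2 n)^(1/4) + l for large n, since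
sqrt n / (48 (Δ + 1)) is larger than any constant times n^(1/4) for large n (exists_rpow_ge (1/4) ..). 9 * R ^ 2 ≤ (√n)^2 ≤ n (Nat.sqrt_le').
-/

open scoped BigOperators

namespace Pool.Agent.Lib.P47s

theorem numP (Δ l : ℕ) : ∃ n1 : ℕ, ∀ n ≥ n1, 9 * (Nat.sqrt n / 3) ^ 2 ≤ n ∧
    3 ≤ Nat.sqrt n / 3 / (Δ + 1) / 4 ∧ 2 * l + 1 ≤ Nat.sqrt n / 3 / (Δ + 1) / 4 / 2 ∧
    (2 * (n : ℝ)) ^ (1 / 4 : ℝ) ≤ ((Nat.sqrt n / 3 / (Δ + 1) / 4 / 2 / 2 : ℕ) : ℝ) := by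
  obtain ⟨c, hc⟩ : ∃ c : ℕ, c = 48 * (Δ + 1) := ⟨_, rfl⟩
  obtain ⟨M, hM⟩ : ∃ M : ℕ, M = 2 * c + 2 + c * (2 * l + 3) := ⟨_, rfl⟩
  refine ⟨M ^ 4, fun n hn => ?_⟩
  have hc1 : 48 ≤ c := by omega
  have hM1 : 2 * c + 2 ≤ M := by omega
  have hsq : M ^ 2 ≤ Nat.sqrt n := by
    rw [Nat.le_sqrt']
    calc (M ^ 2) ^ 2 = M ^ 4 := by ring
      _ ≤ n := hn
  have hMsq : M ≤ Nat.sqrt n := le_trans (Nat.le_self_pow (by norm_num) M) hsq
  have hbig : c * (2 * l + 3) ≤ Nat.sqrt n := by omega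
  refine ⟨?_, ?_, ?_, ?_⟩
  · have h1 : 3 * (Nat.sqrt n / 3) ≤ Nat.sqrt n := Nat.mul_div_le _ _
    have h2 : (3 * (Nat.sqrt n / 3)) ^ 2 ≤ (Nat.sqrt n) ^ 2 := Nat.pow_le_pow_left h1 2
    have h3 := Nat.sqrt_le' n
    calc 9 * (Nat.sqrt n / 3) ^ 2 = (3 * (Nat.sqrt n / 3)) ^ 2 := by ring
      _ ≤ (Nat.sqrt n) ^ 2 := h2
      _ ≤ n := h3
  · rw [Nat.div_div_eq_div_mul, Nat.div_div_eq_div_mul, Nat.le_div_iff_mul_le (by positivity)]
    subst hc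
    nlinarith [Nat.zero_le (Δ * l), Nat.zero_le l, Nat.zero_le Δ]
  · rw [Nat.div_div_eq_div_mul, Nat.div_div_eq_div_mul, Nat.div_div_eq_div_mul,
      Nat.le_div_iff_mul_le (by positivity)]
    subst hc
    nlinarith [Nat.zero_le (Δ * l), Nat.zero_le l, Nat.zero_le Δ]
  · have hdiv : Nat.sqrt n / 3 / (Δ + 1) / 4 / 2 / 2 = Nat.sqrt n / c := by
      rw [Nat.div_div_eq_div_mul, Nat.div_div_eq_div_mul, Nat.div_div_eq_div_mul,
        Nat.div_div_eq_div_mul, hc]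
      congr 1
      ring
    rw [hdiv]
    have hn1 : (1 : ℝ) ≤ (n : ℝ) := by
      have : 1 ≤ M ^ 4 := Nat.one_le_pow _ _ (by omega)
      exact_mod_cast le_trans this hn
    have hn0 : (0 : ℝ) ≤ (n : ℝ) := by linarith
    set x : ℝ := (n : ℝ) ^ (1 / 4 : ℝ) with hx
    have hx0 : 0 ≤ x := Real.rpow_nonneg hn0 _
    have hx4 : x ^ 4 = (n : ℝ) := by
      rw [hx, ← Real.rpow_natCast, ← Real.rpow_mul hn0]
      norm_num
    have hxM : (M : ℝ) ≤ x := by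
      have h1 : ((M : ℝ)) ^ 4 ≤ x ^ 4 := by
        rw [hx4]; exact_mod_cast hn
      exact le_of_pow_le_pow_left₀ (by norm_num) hx0 h1
    have h2x : (2 * (n : ℝ)) ^ (1 / 4 : ℝ) ≤ 2 * x := by
      rw [Real.mul_rpow (by norm_num) hn0]
      refine mul_le_mul_of_nonneg_right ?_ hx0
      calc (2 : ℝ) ^ (1 / 4 : ℝ) ≤ (2 : ℝ) ^ (1 : ℝ) :=
            Real.rpow_le_rpow_of_exponent_le (by norm_num) (by norm_num)
        _ = 2 := Real.rpow_one 2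
    have hs : x ^ 2 < (Nat.sqrt n : ℝ) + 1 := by
      have h1 : n < (Nat.sqrt n + 1) ^ 2 := Nat.lt_succ_sqrt' n
      have h2 : (x ^ 2) ^ 2 < ((Nat.sqrt n : ℝ) + 1) ^ 2 := by
        calc (x ^ 2) ^ 2 = x ^ 4 := by ring
          _ = (n : ℝ) := hx4
          _ < ((Nat.sqrt n : ℝ) + 1) ^ 2 := by exact_mod_cast h1
      exact lt_of_pow_lt_pow_left₀ 2 (by positivity) h2
    have hcpos : (0 : ℝ) < (c : ℝ) := by
      have : 0 < c := by omega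
      exact_mod_cast this
    have hfl : (Nat.sqrt n : ℝ) / c < ((Nat.sqrt n / c : ℕ) : ℝ) + 1 := by
      rw [div_lt_iff₀ hcpos]
      have h1 : Nat.sqrt n < (Nat.sqrt n / c + 1) * c := by
        have := Nat.lt_succ_iff.mpr (le_refl (Nat.sqrt n / c))
        rw [mul_comm]
        exact Nat.lt_mul_div_succ _ (by omega)
      exact_mod_cast h1
    have hkey : 2 * x + 1 ≤ (Nat.sqrt n : ℝ) / c := by
      rw [le_div_iff₀ hcpos]
      have hM' : 2 * (c : ℝ) + 2 ≤ x := by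
        have : (2 * (c : ℝ) + 2) ≤ (M : ℝ) := by exact_mod_cast hM1
        linarith
      have hc48 : (48 : ℝ) ≤ c := by exact_mod_cast hc1
      nlinarith [mul_le_mul_of_nonneg_right hM' hx0]
    linarith

end Pool.Agent.Lib.P47s
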