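import Pool.Agent.Lib.P325z.SelC

/-!
Module SelG (0.5h; black box P325z.selC). A bipartite graph without small dense subgraphs.
PROOF. selC with g = 1 and N = 60; the conditions on n hold for n ≥ n0 (n0 = the ceiling of the sum of the left sides and 4096).
The number of vertices touched by H is card (H.image Prod.fst) + card (H.image (pf π)): P325L.SelAux.verts_card.
-/

open scoped BigOperators

namespace Pool.Agent.Lib.P47s

theorem selG (D : ℕ) (hD : 6 ≤ D) : ∃ n0 : ℕ, ∀ n ≥ n0, ∀ R : ℕ, 9 * R ^ 2 ≤ n →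
    ∃ π : Fin (D ^ 8) → Equiv.Perm (Fin n), ∀ H : Finset (Fin n × Fin (D ^ 8)),
      (H.image Prod.fst).card + (H.image (fun e => π e.2 e.1)).card ≤ R →
      60 * H.card ≤ 61 * ((H.image Prod.fst).card + (H.image (fun e => π e.2 e.1)).card) := by
  have h1 : ∃ n1 : ℕ, (2 * (9 * ((D ^ 8 : ℕ) : ℝ)) ^ 3) ^ (4 * 60) ≤ n1 := exists_nat_ge _
  have h2 : ∃ n2 : ℕ, 96 * ((1 : ℕ) : ℝ) ^ 3 * (9 * ((D ^ 8 : ℕ) : ℝ)) ^ (3 * 1) ≤ n2 := exists_nat_ge _
  obtain ⟨n1, hn1⟩ := h1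
  obtain ⟨n2, hn2⟩ := h2
  refine ⟨max 4096 (max n1 n2), fun n hn R hR => ?_⟩
  have hn4 : 4096 ≤ n := le_trans (le_max_left _ _) hn
  have hn1' : (n1 : ℝ) ≤ n := by
    exact_mod_cast le_trans (le_trans (le_max_left _ _) (le_max_right _ _)) hn
  have hn2' : (n2 : ℝ) ≤ n := by
    exact_mod_cast le_trans (le_trans (le_max_right _ _) (le_max_right _ _)) hn
  obtain ⟨π, -, -, h3⟩ := Pool.Agent.Lib.P325z.selC n D 1 R 60 hD hn4 (by norm_num) hR le_rfl
    (hn1.trans hn1') (hn2.trans hn2')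
  refine ⟨π, fun H hH => ?_⟩
  have h4 := Pool.Agent.Lib.P325L.SelAux.verts_card (Pool.Agent.Lib.P325z.pf π) H
  have h5 := h3 H
  rw [h4] at h5
  exact h5 hH

end Pool.Agent.Lib.P47s
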