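import Pool.Agent.Lib.P325L.Sound
import Pool.Agent.Lib.P47s.PDefs

/-!
Module ShiftB (1h; adapt P325L/Sound.lean). Random shifts: every labeling of the left vertices by lines and of the right vertices by
values satisfies few edges.
PROOF. As P325L.sound with q ^ (2 n) line labelings and q ^ n value labelings: let m0 = ⌊δ n Δ⌋ + 1. For fixed X, y and a set S of m0 edges
the number of b with prj b e (X e.1) = y (f e) for all e ∈ S is q ^ (n Δ - m0) (b e is determined on S). If the claim fails,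
q ^ (n Δ) ≤ q ^ (3 n) * choose (n Δ) m0 * q ^ (n Δ - m0); if m0 > n Δ this is a contradiction, otherwise
q ^ m0 ≤ q ^ (3 n) * choose, choose ≤ (3/δ) ^ m0 (SoundAux.choose_bound with d = 2 δ) and (3/δ)^2 ≤ q, so q ^ (2 m0) ≤ q ^ (6 n + m0), m0 ≤ 6 n,
but m0 > δ n Δ ≥ 7 n.
-/

open scoped BigOperators

namespace Pool.Agent.Lib.P47s

theorem shiftB (n Δ q : ℕ) [NeZero q] (δ : ℝ) (hn : 1 ≤ n) (hδ : 0 < δ) (hδ1 : δ ≤ 1)
    (hq : 9 ≤ (q : ℝ) * δ ^ 2) (hΔ : 7 ≤ δ * Δ) (f : Fin n × Fin Δ → Fin n) :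
    ∃ b : Fin n × Fin Δ → ZMod q, ∀ (X : Fin n → ZMod q × ZMod q) (y : Fin n → ZMod q),
      ((Finset.univ.filter (fun e : Fin n × Fin Δ => prj b e (X e.1) = y (f e))).card : ℝ) ≤
        δ * ((n : ℝ) * Δ) := by
  classical
  by_contra hcon
  push Not at hcon
  have hnr : (1 : ℝ) ≤ n := by exact_mod_cast hn
  set m0 : ℕ := ⌊δ * ((n : ℝ) * Δ)⌋₊ + 1 with hm0
  have hm : δ * ((n : ℝ) * Δ) < m0 := by
    rw [hm0]
    push_cast
    exact Nat.lt_floor_add_one _
  have hd2 : δ ^ 2 ≤ 1 := by nlinarith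
  have hk9 : (9 : ℝ) ≤ q := by nlinarith [Nat.cast_nonneg (α := ℝ) q]
  have hk1 : (1 : ℝ) < q := by linarith
  have hk0 : (0 : ℝ) < q := by linarith
  have hkN : 0 < q := by exact_mod_cast hk0
  -- the cover
  let A : (Fin n → ZMod q × ZMod q) × (Fin n → ZMod q) × Finset (Fin n × Fin Δ) →
      Finset ((Fin n × Fin Δ) → ZMod q) := fun t =>
    Fintype.piFinset (fun e => if e ∈ t.2.2 then
      {t.2.1 (f e) - ((t.1 e.1).1 + (t.1 e.1).2 * ((e.2 : ℕ) : ZMod q))} else Finset.univ)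
  let I : Finset ((Fin n → ZMod q × ZMod q) × (Fin n → ZMod q) × Finset (Fin n × Fin Δ)) :=
    Finset.univ ×ˢ (Finset.univ ×ˢ (Finset.powersetCard m0 Finset.univ))
  have hcover : (Finset.univ : Finset ((Fin n × Fin Δ) → ZMod q)) ⊆ I.biUnion A := by
    intro b _
    obtain ⟨x, y, hxy⟩ := hcon b
    have h1 : m0 ≤ (Finset.univ.filter
        (fun e : Fin n × Fin Δ => prj b e (x e.1) = y (f e))).card := by
      rw [hm0, Nat.succ_le_iff]
      exact (Nat.floor_lt (by positivity)).mpr hxy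
    obtain ⟨S, hS1, hS2⟩ := Finset.exists_subset_card_eq h1
    rw [Finset.mem_biUnion]
    refine ⟨(x, y, S), ?_, ?_⟩
    · simp only [I, Finset.mem_product, Finset.mem_univ, true_and, Finset.mem_powersetCard]
      exact ⟨Finset.subset_univ _, hS2⟩
    · simp only [A, Fintype.mem_piFinset]
      intro e
      by_cases he : e ∈ S
      · rw [if_pos he, Finset.mem_singleton]
        have h3 := (Finset.mem_filter.mp (hS1 he)).2
        rw [← h3]
        unfold prj
        ring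
      · rw [if_neg he]
        exact Finset.mem_univ _
  have hA : ∀ t ∈ I, (A t).card = q ^ (n * Δ - m0) := by
    intro t ht
    simp only [I, Finset.mem_product, Finset.mem_univ, true_and, Finset.mem_powersetCard] at ht
    simp only [A, Fintype.card_piFinset]
    have h1 : ∀ e : Fin n × Fin Δ, (if e ∈ t.2.2 then
        ({t.2.1 (f e) - ((t.1 e.1).1 + (t.1 e.1).2 * ((e.2 : ℕ) : ZMod q))} : Finset (ZMod q))
          else Finset.univ).card =
        if e ∈ t.2.2 then 1 else q := by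
      intro e
      split_ifs
      · simp
      · rw [Finset.card_univ, ZMod.card]
    simp only [h1]
    rw [Finset.prod_ite]
    simp only [Finset.prod_const_one, one_mul, Finset.prod_const]
    congr 1
    have h2 : (Finset.univ.filter fun e : Fin n × Fin Δ => e ∉ t.2.2) = Finset.univ \ t.2.2 := by
      ext e
      simp
    rw [h2, Finset.card_sdiff_of_subset (Finset.subset_univ _), ht.2]
    simp
  have hcard : q ^ (n * Δ) ≤ ((q * q) ^ n * (q ^ n * (n * Δ).choose m0)) * q ^ (n * Δ - m0) := by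
    have h1 := (Finset.card_le_card hcover).trans (Finset.card_biUnion_le)
    rw [Finset.sum_congr rfl hA, Finset.sum_const, smul_eq_mul] at h1
    simp only [I, Finset.card_product, Finset.card_powersetCard, Finset.card_univ,
      Fintype.card_pi, ZMod.card, Finset.prod_const, Fintype.card_prod, Fintype.card_fin] at h1
    exact h1
  -- the case distinction
  by_cases hle : m0 ≤ n * Δ
  · have h2 : q ^ m0 ≤ (q * q) ^ n * (q ^ n * (n * Δ).choose m0) := by
      have h3 : q ^ (n * Δ) = q ^ m0 * q ^ (n * Δ - m0) := by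
        rw [← pow_add]
        congr 1
        omega
      rw [h3] at hcard
      exact Nat.le_of_mul_le_mul_right hcard (pow_pos hkN _)
    have h3 : (q : ℝ) ^ m0 ≤ (q : ℝ) ^ (3 * n) * (((n * Δ).choose m0 : ℕ) : ℝ) := by
      have h4 : (q : ℝ) ^ m0 ≤ ((q : ℝ) * q) ^ n * ((q : ℝ) ^ n * (((n * Δ).choose m0 : ℕ) : ℝ)) := by
        exact_mod_cast h2
      calc (q : ℝ) ^ m0 ≤ ((q : ℝ) * q) ^ n * ((q : ℝ) ^ n * (((n * Δ).choose m0 : ℕ) : ℝ)) := h4
        _ = _ := by
            rw [show 3 * n = n + n + n by ring, pow_add, pow_add, mul_pow]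
            ring
    have hcb : (((n * Δ).choose m0 : ℕ) : ℝ) ≤ (3 / δ) ^ m0 := by
      have h5 := P325L.SoundAux.choose_bound (N := n * Δ) (m := m0) (d := 2 * δ) (by linarith)
        (by omega) (by
          push_cast
          have e : 2 * δ / 2 * ((n : ℝ) * Δ) = δ * ((n : ℝ) * Δ) := by ring
          rw [e]
          exact hm.le)
      have e : 6 / (2 * δ) = 3 / δ := by
        field_simp
        norm_num
      rwa [e] at h5
    have h6 : (3 / δ) ^ 2 ≤ (q : ℝ) := by
      rw [div_pow, div_le_iff₀ (by positivity)]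
      linarith
    have h7 : (((n * Δ).choose m0 : ℕ) : ℝ) ^ 2 ≤ (q : ℝ) ^ m0 := by
      calc (((n * Δ).choose m0 : ℕ) : ℝ) ^ 2 ≤ ((3 / δ) ^ m0) ^ 2 :=
            pow_le_pow_left₀ (Nat.cast_nonneg _) hcb 2
        _ = ((3 / δ) ^ 2) ^ m0 := by rw [← pow_mul, ← pow_mul, mul_comm]
        _ ≤ (q : ℝ) ^ m0 := pow_le_pow_left₀ (by positivity) h6 m0
    have h8 : (q : ℝ) ^ (2 * m0) ≤ (q : ℝ) ^ (6 * n + m0) := by
      calc (q : ℝ) ^ (2 * m0) = ((q : ℝ) ^ m0) ^ 2 := by rw [← pow_mul]; ring_nf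
        _ ≤ ((q : ℝ) ^ (3 * n) * (((n * Δ).choose m0 : ℕ) : ℝ)) ^ 2 :=
            pow_le_pow_left₀ (by positivity) h3 2
        _ = (q : ℝ) ^ (6 * n) * (((n * Δ).choose m0 : ℕ) : ℝ) ^ 2 := by
            rw [mul_pow, ← pow_mul]; ring_nf
        _ ≤ (q : ℝ) ^ (6 * n) * (q : ℝ) ^ m0 := mul_le_mul_of_nonneg_left h7 (by positivity)
        _ = _ := (pow_add _ _ _).symm
    have h9 : 2 * m0 ≤ 6 * n + m0 := (pow_le_pow_iff_right₀ hk1).mp h8
    have h10 : (m0 : ℝ) ≤ 6 * n := by
      have : m0 ≤ 6 * n := by omega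
      exact_mod_cast this
    have h11 : 7 * (n : ℝ) ≤ δ * ((n : ℝ) * Δ) := by nlinarith
    linarith
  · push Not at hle
    rw [Nat.choose_eq_zero_of_lt hle] at hcard
    simp only [mul_zero, zero_mul, Nat.le_zero] at hcard
    exact (pow_pos hkN _).ne' hcard

end Pool.Agent.Lib.P47s
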