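import Pool.Agent.Lib.P325P.Base
import Pool.Agent.Lib.P47c.MeanPi
import Pool.Agent.Lib.P47c.Frac
import Pool.Agent.Lib.P47s.Defs
import Pool.Agent.Lib.P47s.PDefs

/-!
Module CollP (1.5h; adapt P47c/Coll.lean; black boxes P325P.Base, P47c.MeanPi, P47c.best). Collisions of short lists at two edges of a test.
PROOF. If M = 0 then rowP A u is empty whenever its card is ≤ 0 and both sides are 0. Let M ≥ 1 and for a left vertex u and a line x let
qu u x = 1/M if x ∈ rowP A u and (rowP A u).card ≤ M, else 0: qu ≥ 0, ∑ x, qu u x ≤ 1. For a right vertex w, an index c : Fin Δ (the edge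
e = ((π c).symm w, c)) and a value v : ZMod q let g w c v = ∑ x, if prj b e x = v then qu e.1 x else 0, and pw w v = mean over c of g w c v; so
pw ≥ 0, ∑ v, pw w v ≤ 1 (mean_sum). The i-th indicator at v is ≤ M * g w (a i) v (if x is a line with prj = v, x ∈ row, one term is 1/M). So for fixed w the mean over a of
the sum over v of the product is ≤ ∑ v, (M * pw w v)^2 (mean_mono, mean_two with coordinates i ≠ j) = M^2 * mean over c of ∑ v, pw w v * g w c v =
M^2 * mean over c of ∑ x, qu (u, x) * pw w (prj b (u, c) x), u = (π c).symm w. The mean over w and c is the mean over the edges e = (u, c), w = π c u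
(for fixed c reindex by the permutation π c: mean_comp, mean_swap). It is ≤ δ: 1/(n Δ) * ∑ e, ∑ x, qu e.1 x * pw (π e.2 e.1) (prj b e x);
P47c.best with π := Prod.fst gives X with ≤ ∑ e, pw (π e) (prj b e (X e.1)) = ∑ e, ∑ v, pw (π e) v * [prj b e (X e.1) = v], and best again gives y with
≤ ∑ e, [prj b e (X e.1) = y (π e)] ≤ δ n Δ (hval).
-/

open scoped BigOperators

namespace Pool.Agent.Lib.P47s

open Pool.Agent.Lib.P325P (mean)

namespace CollPAux

open Pool.Agent.Lib.P325P

section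

variable {n Δ q : ℕ} [NeZero q]

/-- the distribution on the short lists of lines -/
noncomputable def qu (M : ℕ) (A : Finset (Fin n × (ZMod q × ZMod q))) (u : Fin n)
    (x : ZMod q × ZMod q) : ℝ := by
  classical
  exact if x ∈ rowP A u ∧ (rowP A u).card ≤ M then (1 : ℝ) / M else 0

theorem qu_nonneg (M : ℕ) (A : Finset (Fin n × (ZMod q × ZMod q))) (u : Fin n)
    (x : ZMod q × ZMod q) : 0 ≤ qu M A u x := by
  unfold qu
  split_ifs <;> positivity

theorem qu_sum {M : ℕ} (hM : 0 < M) (A : Finset (Fin n × (ZMod q × ZMod q))) (u : Fin n) :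
    ∑ x, qu M A u x ≤ 1 := by
  classical
  have hM' : (0 : ℝ) < M := by exact_mod_cast hM
  unfold qu
  by_cases h : (rowP A u).card ≤ M
  · simp only [h, and_true]
    rw [← Finset.sum_filter]
    simp only [Finset.filter_mem_eq_inter, Finset.univ_inter, Finset.sum_const, nsmul_eq_mul]
    rw [mul_one_div, div_le_one hM']
    exact_mod_cast h
  · simp only [h, and_false, if_false, Finset.sum_const_zero]
    norm_num

/-- the distribution of the value at an edge -/
noncomputable def gg (M : ℕ) (A : Finset (Fin n × (ZMod q × ZMod q)))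
    (b : Fin n × Fin Δ → ZMod q) (e : Fin n × Fin Δ) (v : ZMod q) : ℝ :=
  ∑ x, if prj b e x = v then qu M A e.1 x else 0

theorem gg_nonneg (M : ℕ) (A : Finset (Fin n × (ZMod q × ZMod q)))
    (b : Fin n × Fin Δ → ZMod q) (e : Fin n × Fin Δ) (v : ZMod q) : 0 ≤ gg M A b e v :=
  Finset.sum_nonneg fun x _ => by
    split_ifs
    · exact qu_nonneg _ _ _ _
    · exact le_refl _

theorem gg_mul (M : ℕ) (A : Finset (Fin n × (ZMod q × ZMod q)))
    (b : Fin n × Fin Δ → ZMod q) (e : Fin n × Fin Δ) (F : ZMod q → ℝ) :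
    ∑ v, F v * gg M A b e v = ∑ x, qu M A e.1 x * F (prj b e x) := by
  classical
  unfold gg
  simp only [Finset.mul_sum]
  rw [Finset.sum_comm]
  refine Finset.sum_congr rfl fun x _ => ?_
  rw [Finset.sum_eq_single (prj b e x)]
  · rw [if_pos rfl, mul_comm]
  · intro v _ hv
    rw [if_neg (Ne.symm hv), mul_zero]
  · intro h
    exact absurd (Finset.mem_univ _) h

theorem gg_sum {M : ℕ} (hM : 0 < M) (A : Finset (Fin n × (ZMod q × ZMod q)))
    (b : Fin n × Fin Δ → ZMod q) (e : Fin n × Fin Δ) : ∑ v, gg M A b e v ≤ 1 := by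
  have h := gg_mul M A b e (fun _ => 1)
  simp only [one_mul, mul_one] at h
  rw [h]
  exact qu_sum hM A e.1

theorem ind_le {M : ℕ} (hM : 0 < M) (A : Finset (Fin n × (ZMod q × ZMod q)))
    (b : Fin n × Fin Δ → ZMod q) (u : Fin n) (c : Fin Δ) (v : ZMod q) :
    (if v ∈ (rowP A u).image (prj b (u, c)) ∧ (rowP A u).card ≤ M then (1 : ℝ) else 0) ≤
      M * gg M A b (u, c) v := by
  classical
  have hM' : (0 : ℝ) < M := by exact_mod_cast hM
  split_ifs with h
  · obtain ⟨h1, h2⟩ := h
    obtain ⟨x, hx, hv⟩ := Finset.mem_image.1 h1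
    have h3 : (1 : ℝ) / M ≤ gg M A b (u, c) v := by
      unfold gg
      refine le_trans (le_of_eq ?_) (Finset.single_le_sum
        (f := fun x => if prj b (u, c) x = v then qu M A (u, c).1 x else 0) (fun y _ => ?_)
        (Finset.mem_univ x))
      · simp only [hv, if_true]
        unfold qu
        rw [if_pos ⟨hx, h2⟩]
      · show 0 ≤ if prj b (u, c) y = v then qu M A (u, c).1 y else 0
        split_ifs
        · exact qu_nonneg _ _ _ _
        · exact le_refl _
    have h4 := mul_le_mul_of_nonneg_left h3 hM'.le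
    rwa [mul_one_div, div_self hM'.ne'] at h4
  · exact mul_nonneg hM'.le (gg_nonneg _ _ _ _ _)

theorem edges {M : ℕ} (hM : 0 < M) (hn : 1 ≤ n) (hΔ : 1 ≤ Δ)
    (π : Fin Δ → Equiv.Perm (Fin n)) (b : Fin n × Fin Δ → ZMod q) (δ : ℝ)
    (hval : ∀ (X : Fin n → ZMod q × ZMod q) (y : Fin n → ZMod q),
      ((Finset.univ.filter (fun e : Fin n × Fin Δ => prj b e (X e.1) = y (π e.2 e.1))).card : ℝ) ≤
        δ * ((n : ℝ) * Δ))
    (A : Finset (Fin n × (ZMod q × ZMod q))) (pw : Fin n → ZMod q → ℝ)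
    (h0 : ∀ w v, 0 ≤ pw w v) (h1 : ∀ w, ∑ v, pw w v ≤ 1) :
    mean (fun e : Fin n × Fin Δ => ∑ x, qu M A e.1 x * pw (π e.2 e.1) (prj b e x)) ≤ δ := by
  classical
  have hn' : (0 : ℝ) < n := by exact_mod_cast hn
  have hΔ' : (0 : ℝ) < Δ := by exact_mod_cast hΔ
  obtain ⟨X, hX⟩ := Pool.Agent.Lib.P47c.best (Prod.fst : Fin n × Fin Δ → Fin n) (qu M A)
    (qu_nonneg M A) (qu_sum hM A) (fun e x => pw (π e.2 e.1) (prj b e x)) (fun e x => h0 _ _)
  obtain ⟨y, hy⟩ := Pool.Agent.Lib.P47c.best (fun e : Fin n × Fin Δ => π e.2 e.1) pw h0 h1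
    (fun e v => if prj b e (X e.1) = v then (1 : ℝ) else 0) (fun e v => by positivity)
  have h2 : ∀ e : Fin n × Fin Δ, ∑ v, pw (π e.2 e.1) v *
      (if prj b e (X e.1) = v then (1 : ℝ) else 0) = pw (π e.2 e.1) (prj b e (X e.1)) := by
    intro e
    simp
  rw [Finset.sum_congr rfl fun e _ => h2 e] at hy
  have h3 : ∑ e : Fin n × Fin Δ, (if prj b e (X e.1) = y (π e.2 e.1) then (1 : ℝ) else 0) ≤
      δ * ((n : ℝ) * Δ) := by
    rw [Finset.sum_boole]
    exact hval X y
  unfold mean
  rw [Fintype.card_prod, Fintype.card_fin, Fintype.card_fin, Nat.cast_mul,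
    div_le_iff₀ (mul_pos hn' hΔ')]
  exact (hX.trans hy).trans h3

end

end CollPAux

open CollPAux Pool.Agent.Lib.P325P in
theorem collP {n Δ q l M : ℕ} [NeZero q] (hn : 1 ≤ n) (hΔ : 1 ≤ Δ)
    (π : Fin Δ → Equiv.Perm (Fin n)) (b : Fin n × Fin Δ → ZMod q) (δ : ℝ)
    (hval : ∀ (X : Fin n → ZMod q × ZMod q) (y : Fin n → ZMod q),
      ((Finset.univ.filter (fun e : Fin n × Fin Δ => prj b e (X e.1) = y (π e.2 e.1))).card : ℝ) ≤
        δ * ((n : ℝ) * Δ))
    (A : Finset (Fin n × (ZMod q × ZMod q))) (i j : Fin l) (hij : i ≠ j) :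
    mean (fun w : Fin n => mean (fun a : Fin l → Fin Δ => ∑ v : ZMod q,
      (if v ∈ (rowP A (lft π w a i)).image (prj b (lft π w a i, a i)) ∧
          (rowP A (lft π w a i)).card ≤ M then (1 : ℝ) else 0) *
        (if v ∈ (rowP A (lft π w a j)).image (prj b (lft π w a j, a j)) ∧
          (rowP A (lft π w a j)).card ≤ M then (1 : ℝ) else 0))) ≤ (M : ℝ) ^ 2 * δ := by
  classical
  rcases Nat.eq_zero_or_pos M with hM | hM
  · subst hM
    have hz : ∀ (e : Fin n × Fin Δ) (v : ZMod q),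
        (if v ∈ (rowP A e.1).image (prj b e) ∧ (rowP A e.1).card ≤ 0 then (1 : ℝ) else 0) = 0 := by
      intro e v
      rw [if_neg]
      rintro ⟨h1, h2⟩
      rw [Nat.le_zero, Finset.card_eq_zero] at h2
      rw [h2] at h1
      simp at h1
    have hz' : ∀ (w : Fin n) (a : Fin l → Fin Δ) (i : Fin l) (v : ZMod q),
        (if v ∈ (rowP A (lft π w a i)).image (prj b (lft π w a i, a i)) ∧
          (rowP A (lft π w a i)).card ≤ 0 then (1 : ℝ) else 0) = 0 :=
      fun w a i v => hz (lft π w a i, a i) v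
    simp only [hz', mul_zero, Finset.sum_const_zero]
    rw [show (fun w : Fin n => mean (fun a : Fin l → Fin Δ => (0 : ℝ))) =
      fun w : Fin n => 0 * mean (fun a : Fin l → Fin Δ => (1 : ℝ)) from
      funext fun w => by rw [← mean_mul_left]; simp]
    rw [mean_mul_left]
    norm_num
  haveI : Nonempty (Fin Δ) := ⟨⟨0, hΔ⟩⟩
  haveI : Nonempty (Fin n) := ⟨⟨0, hn⟩⟩
  have hM' : (0 : ℝ) < M := by exact_mod_cast hM
  obtain ⟨g, hg⟩ : ∃ g : Fin n → Fin Δ → ZMod q → ℝ,
      ∀ w c v, g w c v = gg M A b ((π c).symm w, c) v := ⟨_, fun _ _ _ => rfl⟩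
  obtain ⟨pw, hpw⟩ : ∃ pw : Fin n → ZMod q → ℝ, ∀ w v, pw w v = mean (fun c => g w c v) :=
    ⟨_, fun _ _ => rfl⟩
  have hp0 : ∀ w v, 0 ≤ pw w v := by
    intro w v
    rw [hpw]
    refine mean_nonneg fun c => ?_
    rw [hg]
    exact gg_nonneg _ _ _ _ _
  have hp1 : ∀ w, ∑ v, pw w v ≤ 1 := by
    intro w
    rw [Finset.sum_congr rfl fun v _ => hpw w v, ← mean_sum]
    refine mean_le fun c => ?_
    rw [Finset.sum_congr rfl fun v _ => hg w c v]
    exact gg_sum hM A b _
  have hin : ∀ w : Fin n, mean (fun a : Fin l → Fin Δ => ∑ v : ZMod q,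
      (if v ∈ (rowP A (lft π w a i)).image (prj b (lft π w a i, a i)) ∧
          (rowP A (lft π w a i)).card ≤ M then (1 : ℝ) else 0) *
        (if v ∈ (rowP A (lft π w a j)).image (prj b (lft π w a j, a j)) ∧
          (rowP A (lft π w a j)).card ≤ M then (1 : ℝ) else 0)) ≤
      (M : ℝ) ^ 2 * mean (fun c : Fin Δ => ∑ x, qu M A ((π c).symm w) x *
        pw w (prj b ((π c).symm w, c) x)) := by
    intro w
    have h1 : mean (fun a : Fin l → Fin Δ => ∑ v : ZMod q,
        (if v ∈ (rowP A (lft π w a i)).image (prj b (lft π w a i, a i)) ∧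
          (rowP A (lft π w a i)).card ≤ M then (1 : ℝ) else 0) *
        (if v ∈ (rowP A (lft π w a j)).image (prj b (lft π w a j, a j)) ∧
          (rowP A (lft π w a j)).card ≤ M then (1 : ℝ) else 0)) ≤
        mean (fun a : Fin l → Fin Δ => ∑ v : ZMod q, (M * g w (a i) v) * (M * g w (a j) v)) := by
      refine mean_mono fun a => Finset.sum_le_sum fun v _ => ?_
      have e1 := ind_le hM A b (lft π w a i) (a i) v
      have e2 := ind_le hM A b (lft π w a j) (a j) v
      have e3 : g w (a i) v = gg M A b (lft π w a i, a i) v := hg _ _ _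
      have e4 : g w (a j) v = gg M A b (lft π w a j, a j) v := hg _ _ _
      rw [e3, e4]
      refine mul_le_mul e1 e2 (by positivity) ?_
      exact mul_nonneg hM'.le (gg_nonneg _ _ _ _ _)
    refine h1.trans (le_of_eq ?_)
    rw [mean_sum]
    have h2 : ∀ v : ZMod q, mean (fun a : Fin l → Fin Δ => (M * g w (a i) v) * (M * g w (a j) v)) =
        (M : ℝ) ^ 2 * mean (fun c => pw w v * g w c v) := by
      intro v
      rw [Pool.Agent.Lib.P47c.mean_two i j hij (fun c => M * g w c v) (fun c => M * g w c v),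
        mean_mul_left, mean_mul_left, ← hpw]
      ring
    rw [Finset.sum_congr rfl fun v _ => h2 v, ← Finset.mul_sum, ← mean_sum]
    congr 1
    refine mean_congr fun c => ?_
    rw [Finset.sum_congr rfl fun v _ => by rw [hg]]
    exact gg_mul M A b ((π c).symm w, c) (pw w)
  refine (mean_mono hin).trans ?_
  rw [mean_mul_left]
  refine mul_le_mul_of_nonneg_left ?_ (by positivity)
  rw [mean_swap]
  have h3 : ∀ c : Fin Δ, mean (fun w : Fin n => ∑ x, qu M A ((π c).symm w) x *
      pw w (prj b ((π c).symm w, c) x)) =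
      mean (fun u : Fin n => ∑ x, qu M A u x * pw (π c u) (prj b (u, c) x)) := by
    intro c
    rw [← mean_comp (π c) (fun w : Fin n => ∑ x, qu M A ((π c).symm w) x *
      pw w (prj b ((π c).symm w, c) x))]
    refine mean_congr fun u => ?_
    simp only [Equiv.symm_apply_apply]
  rw [mean_congr h3, mean_swap, ← mean_prod (fun e : Fin n × Fin Δ =>
    ∑ x, qu M A e.1 x * pw (π e.2 e.1) (prj b e x))]
  exact edges hM hn hΔ π b δ hval A pw hp0 hp1

end Pool.Agent.Lib.P47s
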