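import Pool.Agent.Lib.P325P.Base
import Pool.Agent.Lib.P47c.MeanPi
import Pool.Agent.Lib.P47c.MissY
import Pool.Agent.Lib.P47c.Sound
import Pool.Agent.Lib.P47s.Defs
import Pool.Agent.Lib.P47s.PDefs
import Pool.Agent.Lib.P47s.CollP

/-!
Module SoundP (1.5h; adapt P47c/Sound.lean; black boxes P325P.Base, P47c.MeanPi, P47c.missY, P47c.SoundAux.numeric, CollP).
Soundness of the tests.
PROOF. missN: if some N i > M then u ^ (∑ N i) ≤ u ^ M (u = 1 - 1/l) and the left side is ≤ 0; otherwise all (B i).card ≤ N i ≤ M, so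
the double sums of missN and missY agree, u ^ (∑ N i) ≤ u ^ (∑ (B i).card), and missY gives the claim.
soundP: unc is a mean over w, a, Y (mean_prod twice). For fixed w, a let B i = (rowP A (u i)).image (prj b (u i, a i)), N i = (rowP A (u i)).card,
u i = lft π w a i. nearP t is disjoint from A iff for all i and v ∈ B i, Y v ≠ i. missN bounds the mean over Y from below, and the mean over w, a of its
double sum is ≤ l^2 M^2 δ (collP for i ≠ j). The first term: jensen and mean over w, a of (rowP A (lft π w a i)).card = A.card / n (mean_one, then for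
fixed c the permutation π c), numeric, exactly as in P47c/Sound.lean.
-/

open scoped BigOperators

namespace Pool.Agent.Lib.P47s

open Pool.Agent.Lib.P325P (mean)
open Pool.Agent.Lib.P47c (unc)

namespace SoundPAux

section

variable {n Δ q l : ℕ} [NeZero q]

theorem mem_rowP (A : Finset (Fin n × (ZMod q × ZMod q))) (u : Fin n) (x : ZMod q × ZMod q) :
    x ∈ rowP A u ↔ (u, x) ∈ A := by
  classical
  unfold rowP
  simp only [Finset.mem_filter, Finset.mem_univ, true_and]

theorem disj_iff (π : Fin Δ → Equiv.Perm (Fin n)) (b : Fin n × Fin Δ → ZMod q)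
    (A : Finset (Fin n × (ZMod q × ZMod q))) (w : Fin n) (a : Fin l → Fin Δ) (Y : ZMod q → Fin l) :
    Disjoint (nearP π b ((w, (a, Y)) : TestP n Δ q l)) A ↔
      ∀ i, ∀ v ∈ (rowP A (lft π w a i)).image (prj b (lft π w a i, a i)), Y v ≠ i := by
  classical
  have hn : ∀ p, p ∈ nearP π b ((w, (a, Y)) : TestP n Δ q l) ↔
      ∃ i, lft π w a i = p.1 ∧ Y (prj b (p.1, a i) p.2) = i := by
    intro p
    unfold nearP
    simp only [Finset.mem_filter, Finset.mem_univ, true_and]
  rw [Finset.disjoint_left]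
  constructor
  · intro h i v hv hY
    obtain ⟨x, hx, rfl⟩ := Finset.mem_image.1 hv
    rw [mem_rowP] at hx
    exact h ((hn _).2 ⟨i, rfl, hY⟩) hx
  · rintro h ⟨u, x⟩ hp hA
    obtain ⟨i, h1, h2⟩ := (hn _).1 hp
    simp only at h1 h2
    subst h1
    refine h i _ (Finset.mem_image.2 ⟨x, (mem_rowP A _ x).2 hA, rfl⟩) h2

theorem sum_rowP (A : Finset (Fin n × (ZMod q × ZMod q))) :
    ∑ u, ((rowP A u).card : ℝ) = A.card := by
  classical
  have h1 : ∀ u, ((rowP A u).card : ℝ) = ∑ x : ZMod q × ZMod q, if (u, x) ∈ A then (1 : ℝ) else 0 := by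
    intro u
    rw [Finset.sum_boole]
    unfold rowP
    rfl
  rw [Finset.sum_congr rfl fun u _ => h1 u,
    ← Fintype.sum_prod_type (f := fun p : Fin n × (ZMod q × ZMod q) => if p ∈ A then (1 : ℝ) else 0),
    Finset.sum_boole]
  simp only [Finset.filter_mem_eq_inter, Finset.univ_inter]

/-- the mean of a function of the left end of the edge `i` -/
theorem mean_lft (hΔ : 1 ≤ Δ) (π : Fin Δ → Equiv.Perm (Fin n)) (i : Fin l) (h : Fin n → ℝ) :
    mean (fun w : Fin n => mean (fun a : Fin l → Fin Δ => h (lft π w a i))) = mean h := by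
  have : Nonempty (Fin Δ) := ⟨⟨0, hΔ⟩⟩
  have h1 : ∀ w : Fin n, mean (fun a : Fin l → Fin Δ => h (lft π w a i)) =
      mean (fun c : Fin Δ => h ((π c).symm w)) := by
    intro w
    exact Pool.Agent.Lib.P47c.mean_one i (fun c : Fin Δ => h ((π c).symm w))
  rw [Pool.Agent.Lib.P325P.mean_congr h1, Pool.Agent.Lib.P325P.mean_swap]
  have h2 : ∀ c : Fin Δ, mean (fun w : Fin n => h ((π c).symm w)) = mean h := by
    intro c
    exact Pool.Agent.Lib.P325P.mean_comp (π c).symm h
  rw [Pool.Agent.Lib.P325P.mean_congr h2, Pool.Agent.Lib.P325P.mean_const]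

end

end SoundPAux

theorem missN {Ω : Type} [Fintype Ω] [DecidableEq Ω] (l M : ℕ) (hl : 1 ≤ l)
    (B : Fin l → Finset Ω) (N : Fin l → ℕ) (hN : ∀ i, (B i).card ≤ N i) :
    (1 - 1 / (l : ℝ)) ^ (∑ i, N i) - (1 - 1 / (l : ℝ)) ^ M -
      ∑ i, ∑ j ∈ Finset.univ.erase i, ∑ x : Ω,
        (if x ∈ B i ∧ N i ≤ M then (1 : ℝ) else 0) *
          (if x ∈ B j ∧ N j ≤ M then (1 : ℝ) else 0) ≤
    mean (fun Y : Ω → Fin l => if ∀ i, ∀ x ∈ B i, Y x ≠ i then (1 : ℝ) else 0) := by
  have hl' : (1 : ℝ) ≤ (l : ℝ) := by exact_mod_cast hl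
  have hu0 : 0 ≤ 1 - 1 / (l : ℝ) := by
    rw [sub_nonneg, div_le_one (by linarith)]
    exact hl'
  have hu1 : 1 - 1 / (l : ℝ) ≤ 1 := by
    have : 0 ≤ 1 / (l : ℝ) := by positivity
    linarith
  by_cases hM : ∃ i, M < N i
  · obtain ⟨i, hi⟩ := hM
    have hmean : 0 ≤ mean (fun Y : Ω → Fin l => if ∀ i, ∀ x ∈ B i, Y x ≠ i then (1 : ℝ) else 0) :=
      Pool.Agent.Lib.P325P.mean_nonneg fun Y => by split_ifs <;> norm_num
    have hsum : 0 ≤ ∑ i, ∑ j ∈ Finset.univ.erase i, ∑ x : Ω,
        (if x ∈ B i ∧ N i ≤ M then (1 : ℝ) else 0) *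
          (if x ∈ B j ∧ N j ≤ M then (1 : ℝ) else 0) :=
      Finset.sum_nonneg fun i _ => Finset.sum_nonneg fun j _ => Finset.sum_nonneg fun x _ => by
        apply mul_nonneg <;> split_ifs <;> norm_num
    have h1 : N i ≤ ∑ i, N i :=
      Finset.single_le_sum (f := fun i => N i) (fun _ _ => Nat.zero_le _) (Finset.mem_univ i)
    have : (1 - 1 / (l : ℝ)) ^ (∑ i, N i) ≤ (1 - 1 / (l : ℝ)) ^ M :=
      pow_le_pow_of_le_one hu0 hu1 (hi.le.trans h1)
    linarith
  · push Not at hM
    have h := Pool.Agent.Lib.P47c.missY l M hl B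
    have h1 : ∀ i x, (x ∈ B i ∧ (B i).card ≤ M) ↔ (x ∈ B i ∧ N i ≤ M) := by
      intro i x
      constructor
      · rintro ⟨h1, _⟩
        exact ⟨h1, hM i⟩
      · rintro ⟨h1, _⟩
        exact ⟨h1, (hN i).trans (hM i)⟩
    simp only [h1] at h
    have h2 : (1 - 1 / (l : ℝ)) ^ (∑ i, N i) ≤ (1 - 1 / (l : ℝ)) ^ (∑ i, (B i).card) :=
      pow_le_pow_of_le_one hu0 hu1 (Finset.sum_le_sum fun i _ => hN i)
    linarith

open SoundPAux in
theorem soundP {n Δ q l : ℕ} [NeZero q] (M : ℕ) (hn : 1 ≤ n) (hΔ : 1 ≤ Δ) (hl : 2 ≤ l)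
    (π : Fin Δ → Equiv.Perm (Fin n)) (b : Fin n × Fin Δ → ZMod q) (δ : ℝ) (hδ : 0 ≤ δ)
    (hval : ∀ (X : Fin n → ZMod q × ZMod q) (y : Fin n → ZMod q),
      ((Finset.univ.filter (fun e : Fin n × Fin Δ => prj b e (X e.1) = y (π e.2 e.1))).card : ℝ) ≤
        δ * ((n : ℝ) * Δ))
    (A : Finset (Fin n × (ZMod q × ZMod q))) :
    Real.exp (-((A.card : ℝ) / n)) - 1 / ((l : ℝ) - 1) - (1 - 1 / (l : ℝ)) ^ M -
      (l : ℝ) ^ 2 * ((M : ℝ) ^ 2 * δ) ≤ unc (T := TestP n Δ q l) (nearP π b) A := by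
  classical
  have : Nonempty (Fin n) := ⟨⟨0, hn⟩⟩
  have : Nonempty (Fin Δ) := ⟨⟨0, hΔ⟩⟩
  have : Nonempty (Fin l) := ⟨⟨0, by omega⟩⟩
  have hl2 : (2 : ℝ) ≤ l := by exact_mod_cast hl
  have hl0 : (0 : ℝ) < l := by linarith
  have hu : (0 : ℝ) < 1 - 1 / (l : ℝ) := by
    rw [sub_pos, div_lt_one hl0]
    linarith
  -- the mean over the tests
  have hunc : unc (T := TestP n Δ q l) (nearP π b) A =
      mean (fun w : Fin n => mean (fun a : Fin l → Fin Δ =>
        mean (fun Y : ZMod q → Fin l =>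
          if ∀ i, ∀ v ∈ (rowP A (lft π w a i)).image (prj b (lft π w a i, a i)), Y v ≠ i
            then (1 : ℝ) else 0))) := by
    unfold unc
    rw [Pool.Agent.Lib.P325P.mean_prod]
    refine Pool.Agent.Lib.P325P.mean_congr fun w => ?_
    rw [Pool.Agent.Lib.P325P.mean_prod]
    refine Pool.Agent.Lib.P325P.mean_congr fun a => ?_
    refine Pool.Agent.Lib.P325P.mean_congr fun Y => ?_
    by_cases h : Disjoint (nearP π b ((w, (a, Y)) : TestP n Δ q l)) A
    · rw [if_pos h, if_pos ((disj_iff π b A w a Y).1 h)]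
    · rw [if_neg h, if_neg fun h' => h ((disj_iff π b A w a Y).2 h')]
  -- the three parts of the lower bound
  have hlow : ∀ (w : Fin n) (a : Fin l → Fin Δ),
      (1 - 1 / (l : ℝ)) ^ (∑ i, (rowP A (lft π w a i)).card) - (1 - 1 / (l : ℝ)) ^ M -
        ∑ i, ∑ j ∈ Finset.univ.erase i, ∑ v : ZMod q,
          (if v ∈ (rowP A (lft π w a i)).image (prj b (lft π w a i, a i)) ∧
            (rowP A (lft π w a i)).card ≤ M then (1 : ℝ) else 0) *
          (if v ∈ (rowP A (lft π w a j)).image (prj b (lft π w a j, a j)) ∧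
            (rowP A (lft π w a j)).card ≤ M then (1 : ℝ) else 0) ≤
      mean (fun Y : ZMod q → Fin l =>
        if ∀ i, ∀ v ∈ (rowP A (lft π w a i)).image (prj b (lft π w a i, a i)), Y v ≠ i
          then (1 : ℝ) else 0) := by
    intro w a
    exact missN (Ω := ZMod q) l M (by omega)
      (fun i => (rowP A (lft π w a i)).image (prj b (lft π w a i, a i)))
      (fun i => (rowP A (lft π w a i)).card) (fun i => Finset.card_image_le)
  -- the collisions
  have hcoll : mean (fun w : Fin n => mean (fun a : Fin l → Fin Δ =>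
      ∑ i, ∑ j ∈ Finset.univ.erase i, ∑ v : ZMod q,
          (if v ∈ (rowP A (lft π w a i)).image (prj b (lft π w a i, a i)) ∧
            (rowP A (lft π w a i)).card ≤ M then (1 : ℝ) else 0) *
          (if v ∈ (rowP A (lft π w a j)).image (prj b (lft π w a j, a j)) ∧
            (rowP A (lft π w a j)).card ≤ M then (1 : ℝ) else 0))) ≤
      (l : ℝ) ^ 2 * ((M : ℝ) ^ 2 * δ) := by
    have h1 : ∀ w : Fin n, mean (fun a : Fin l → Fin Δ =>
        ∑ i, ∑ j ∈ Finset.univ.erase i, ∑ v : ZMod q,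
          (if v ∈ (rowP A (lft π w a i)).image (prj b (lft π w a i, a i)) ∧
            (rowP A (lft π w a i)).card ≤ M then (1 : ℝ) else 0) *
          (if v ∈ (rowP A (lft π w a j)).image (prj b (lft π w a j, a j)) ∧
            (rowP A (lft π w a j)).card ≤ M then (1 : ℝ) else 0)) =
        ∑ i, ∑ j ∈ Finset.univ.erase i, mean (fun a : Fin l → Fin Δ => ∑ v : ZMod q,
          (if v ∈ (rowP A (lft π w a i)).image (prj b (lft π w a i, a i)) ∧
            (rowP A (lft π w a i)).card ≤ M then (1 : ℝ) else 0) *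
          (if v ∈ (rowP A (lft π w a j)).image (prj b (lft π w a j, a j)) ∧
            (rowP A (lft π w a j)).card ≤ M then (1 : ℝ) else 0)) := by
      intro w
      rw [Pool.Agent.Lib.P325P.mean_sum]
      refine Finset.sum_congr rfl fun i _ => ?_
      rw [Pool.Agent.Lib.P325P.mean_sum]
    rw [Pool.Agent.Lib.P325P.mean_congr h1, Pool.Agent.Lib.P325P.mean_sum]
    have h2 : ∀ i ∈ (Finset.univ : Finset (Fin l)), mean (fun w : Fin n =>
        ∑ j ∈ Finset.univ.erase i, mean (fun a : Fin l → Fin Δ => ∑ v : ZMod q,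
          (if v ∈ (rowP A (lft π w a i)).image (prj b (lft π w a i, a i)) ∧
            (rowP A (lft π w a i)).card ≤ M then (1 : ℝ) else 0) *
          (if v ∈ (rowP A (lft π w a j)).image (prj b (lft π w a j, a j)) ∧
            (rowP A (lft π w a j)).card ≤ M then (1 : ℝ) else 0))) ≤
        (l : ℝ) * ((M : ℝ) ^ 2 * δ) := by
      intro i _
      rw [Pool.Agent.Lib.P325P.mean_sum]
      have h3 : ∀ j ∈ (Finset.univ : Finset (Fin l)).erase i, mean (fun w : Fin n =>
          mean (fun a : Fin l → Fin Δ => ∑ v : ZMod q,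
          (if v ∈ (rowP A (lft π w a i)).image (prj b (lft π w a i, a i)) ∧
            (rowP A (lft π w a i)).card ≤ M then (1 : ℝ) else 0) *
          (if v ∈ (rowP A (lft π w a j)).image (prj b (lft π w a j, a j)) ∧
            (rowP A (lft π w a j)).card ≤ M then (1 : ℝ) else 0))) ≤ (M : ℝ) ^ 2 * δ := by
        intro j hj
        exact collP hn hΔ π b δ hval A i j (Finset.ne_of_mem_erase hj).symm
      refine (Finset.sum_le_sum h3).trans ?_
      rw [Finset.sum_const, nsmul_eq_mul]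
      refine mul_le_mul_of_nonneg_right ?_ (by positivity)
      have h4 : ((Finset.univ : Finset (Fin l)).erase i).card ≤ l := by
        refine (Finset.card_erase_le).trans ?_
        simp
      exact_mod_cast h4
    refine (Finset.sum_le_sum h2).trans ?_
    rw [Finset.sum_const, nsmul_eq_mul, Finset.card_univ, Fintype.card_fin]
    apply le_of_eq
    ring
  -- the main term
  set β : ℝ := (A.card : ℝ) / n with hβ
  have hβ0 : 0 ≤ β := by positivity
  set c : ℝ := -Real.log (1 - 1 / (l : ℝ)) with hc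
  have hmain : Real.exp (-(c * (l * β))) ≤
      mean (fun w : Fin n => mean (fun a : Fin l → Fin Δ =>
        (1 - 1 / (l : ℝ)) ^ (∑ i, (rowP A (lft π w a i)).card))) := by
    have hj := Pool.Agent.Lib.P47c.jensen (X := Fin n × (Fin l → Fin Δ))
      (fun s => c * ∑ i, ((rowP A (lft π s.1 s.2 i)).card : ℝ))
    have hm : mean (fun s : Fin n × (Fin l → Fin Δ) =>
        c * ∑ i, ((rowP A (lft π s.1 s.2 i)).card : ℝ)) = c * (l * β) := by
      rw [Pool.Agent.Lib.P325P.mean_mul_left, Pool.Agent.Lib.P325P.mean_sum]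
      congr 1
      have h1 : ∀ i ∈ (Finset.univ : Finset (Fin l)),
          mean (fun s : Fin n × (Fin l → Fin Δ) =>
            ((rowP A (lft π s.1 s.2 i)).card : ℝ)) = β := by
        intro i _
        rw [Pool.Agent.Lib.P325P.mean_prod]
        refine Eq.trans (mean_lft hΔ π i (fun u => ((rowP A u).card : ℝ))) ?_
        unfold mean
        rw [sum_rowP, Fintype.card_fin]
      rw [Finset.sum_congr rfl h1, Finset.sum_const, nsmul_eq_mul, Finset.card_univ,
        Fintype.card_fin]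
    rw [hm] at hj
    refine hj.trans ?_
    rw [Pool.Agent.Lib.P325P.mean_prod]
    refine Pool.Agent.Lib.P325P.mean_mono fun w => ?_
    refine Pool.Agent.Lib.P325P.mean_mono fun a => ?_
    apply le_of_eq
    have h2 : (1 - 1 / (l : ℝ)) = Real.exp (-c) := by
      rw [hc, neg_neg, Real.exp_log hu]
    rw [h2, ← Real.exp_nat_mul]
    congr 1
    push_cast
    ring
  have hnum := Pool.Agent.Lib.P47c.SoundAux.numeric l hl β hβ0
  rw [← hc] at hnum
  -- put together
  have hfin : mean (fun w : Fin n => mean (fun a : Fin l → Fin Δ =>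
        (1 - 1 / (l : ℝ)) ^ (∑ i, (rowP A (lft π w a i)).card))) - (1 - 1 / (l : ℝ)) ^ M -
      mean (fun w : Fin n => mean (fun a : Fin l → Fin Δ =>
      ∑ i, ∑ j ∈ Finset.univ.erase i, ∑ v : ZMod q,
          (if v ∈ (rowP A (lft π w a i)).image (prj b (lft π w a i, a i)) ∧
            (rowP A (lft π w a i)).card ≤ M then (1 : ℝ) else 0) *
          (if v ∈ (rowP A (lft π w a j)).image (prj b (lft π w a j, a j)) ∧
            (rowP A (lft π w a j)).card ≤ M then (1 : ℝ) else 0))) ≤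
      unc (T := TestP n Δ q l) (nearP π b) A := by
    rw [hunc]
    refine le_trans (le_of_eq ?_) (Pool.Agent.Lib.P325P.mean_mono fun w =>
      Pool.Agent.Lib.P325P.mean_mono fun a => hlow w a)
    have h1 : ∀ w : Fin n, mean (fun a : Fin l → Fin Δ =>
        (1 - 1 / (l : ℝ)) ^ (∑ i, (rowP A (lft π w a i)).card) - (1 - 1 / (l : ℝ)) ^ M -
        ∑ i, ∑ j ∈ Finset.univ.erase i, ∑ v : ZMod q,
          (if v ∈ (rowP A (lft π w a i)).image (prj b (lft π w a i, a i)) ∧
            (rowP A (lft π w a i)).card ≤ M then (1 : ℝ) else 0) *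
          (if v ∈ (rowP A (lft π w a j)).image (prj b (lft π w a j, a j)) ∧
            (rowP A (lft π w a j)).card ≤ M then (1 : ℝ) else 0)) =
        mean (fun a : Fin l → Fin Δ =>
          (1 - 1 / (l : ℝ)) ^ (∑ i, (rowP A (lft π w a i)).card)) -
        (1 - 1 / (l : ℝ)) ^ M -
        mean (fun a : Fin l → Fin Δ =>
        ∑ i, ∑ j ∈ Finset.univ.erase i, ∑ v : ZMod q,
          (if v ∈ (rowP A (lft π w a i)).image (prj b (lft π w a i, a i)) ∧
            (rowP A (lft π w a i)).card ≤ M then (1 : ℝ) else 0) *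
          (if v ∈ (rowP A (lft π w a j)).image (prj b (lft π w a j, a j)) ∧
            (rowP A (lft π w a j)).card ≤ M then (1 : ℝ) else 0)) := by
      intro w
      rw [Pool.Agent.Lib.P325P.mean_sub, Pool.Agent.Lib.P325P.mean_sub,
        Pool.Agent.Lib.P325P.mean_const]
    rw [Pool.Agent.Lib.P325P.mean_congr h1, Pool.Agent.Lib.P325P.mean_sub,
      Pool.Agent.Lib.P325P.mean_sub, Pool.Agent.Lib.P325P.mean_const]
  linarith

end Pool.Agent.Lib.P47s
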