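import Pool.Agent.Lib.P47s.Defs
import Pool.Agent.Lib.P47s.PDefs

/-!
Module Expd (1.5h). Sums of few equations have many variables.
PROOF. Let H = {(u, j) : Γ u j ≠ 0}, s = wt Γ = the number of u with Γ u ≠ 0 = card (H.image fst). (i) If Γ u ≠ 0 then at least 3 of the
values Γ u j are not 0: if only Γ u j and perhaps Γ u j' (j ≠ j') are not 0 then Γ u j + Γ u j' = 0 and j Γ u j + j' Γ u j' = 0 give
(j - j') Γ u j = 0, and j ≠ j' in ZMod q since j, j' < Δ ≤ q (q prime, ZMod q a field; ZMod.natCast_self_eq_zero, val_cast). So 3 s ≤ H.card (sum over the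
fibers). (ii) H.card ≤ Δ s, so the number of touched vertices is s + r ≤ s + Δ s ≤ (Δ + 1) S ≤ R, r = card (H.image π), and
60 H.card ≤ 61 (s + r). (iii) Let U be the set of the w with exactly one e ∈ H over it. Then H.card ≥ U.card + 2 (r - U.card), i.e.
U.card ≥ 2 r - H.card, and for w ∈ U the value ∑ e over w, Γ e.1 e.2 is not 0, so U.card ≤ wt. Hence 61 wt ≥ 122 r - 61 H.card ≥
120 H.card - 122 s - 61 H.card = 59 H.card - 122 s ≥ 177 s - 122 s = 55 s, so s ≤ 2 wt.
-/

open scoped BigOperators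

namespace Pool.Agent.Lib.P47s

namespace ExpdAux

lemma wt_le {W A : Type} [Fintype W] [Zero A] (l : W → A) (U : Finset W) (hU : ∀ w ∈ U, l w ≠ 0) :
    U.card ≤ wt l := by
  classical
  unfold wt
  apply Finset.card_le_card
  intro w hw
  rw [Finset.mem_filter]
  exact ⟨Finset.mem_univ _, hU w hw⟩

lemma wt_eq {W A : Type} [Fintype W] [Zero A] (l : W → A) (U : Finset W)
    (hU : ∀ w, w ∈ U ↔ l w ≠ 0) : wt l = U.card := by
  classical
  unfold wt
  congr 1
  ext w
  rw [Finset.mem_filter, hU]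
  exact ⟨fun h => h.2, fun h => ⟨Finset.mem_univ _, h⟩⟩

/-- A nonzero solution of the two equations has at least three nonzero values. -/
lemma three {Δ q : ℕ} [Fact q.Prime] (hΔ : Δ ≤ q) (g : Fin Δ → ZMod q)
    (h1 : ∑ j, g j = 0) (h2 : ∑ j, g j * ((j : ℕ) : ZMod q) = 0) (hg : g ≠ 0) :
    3 ≤ (Finset.univ.filter (fun j => g j ≠ 0)).card := by
  classical
  obtain ⟨A, hA⟩ : ∃ A, A = Finset.univ.filter (fun j => g j ≠ 0) := ⟨_, rfl⟩
  have hm : ∀ j, j ∈ A ↔ g j ≠ 0 := by
    intro j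
    rw [hA, Finset.mem_filter]
    exact ⟨fun h => h.2, fun h => ⟨Finset.mem_univ _, h⟩⟩
  rw [← hA]
  have e1 : ∑ j ∈ A, g j = 0 := by
    rw [← h1]
    apply Finset.sum_subset (Finset.subset_univ _)
    intro j _ hj
    by_contra h
    exact hj ((hm j).2 h)
  have e2 : ∑ j ∈ A, g j * ((j : ℕ) : ZMod q) = 0 := by
    rw [← h2]
    apply Finset.sum_subset (Finset.subset_univ _)
    intro j _ hj
    have : g j = 0 := by
      by_contra h
      exact hj ((hm j).2 h)
    rw [this, zero_mul]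
  by_contra hlt
  have h3 : A.card = 0 ∨ A.card = 1 ∨ A.card = 2 := by omega
  rcases h3 with h | h | h
  · apply hg
    funext j
    by_contra hj
    have := (hm j).2 hj
    rw [Finset.card_eq_zero] at h
    rw [h] at this
    exact absurd this (Finset.notMem_empty _)
  · obtain ⟨j, hj⟩ := Finset.card_eq_one.1 h
    have h4 : j ∈ A := by rw [hj]; exact Finset.mem_singleton_self _
    rw [hj, Finset.sum_singleton] at e1
    exact (hm j).1 h4 e1
  · obtain ⟨j, j', hne, hj⟩ := Finset.card_eq_two.1 h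
    have h4 : j ∈ A := by rw [hj]; simp
    rw [hj, Finset.sum_pair hne] at e1 e2
    have h5 : g j * (((j : ℕ) : ZMod q) - ((j' : ℕ) : ZMod q)) = 0 := by
      have h6 : g j' = - g j := by
        rw [eq_neg_iff_add_eq_zero, add_comm]; exact e1
      rw [h6] at e2
      linear_combination e2
    rcases mul_eq_zero.1 h5 with h6 | h6
    · exact (hm j).1 h4 h6
    · rw [sub_eq_zero] at h6
      have h7 := congrArg ZMod.val h6
      rw [ZMod.val_cast_of_lt (lt_of_lt_of_le j.2 hΔ), ZMod.val_cast_of_lt (lt_of_lt_of_le j'.2 hΔ)] at h7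
      exact hne (Fin.ext h7)

end ExpdAux

open ExpdAux

theorem expd {n Δ q S R : ℕ} [Fact q.Prime] (hΔ : Δ ≤ q) (π : Fin Δ → Equiv.Perm (Fin n))
    (hπ : ∀ H : Finset (Fin n × Fin Δ),
      (H.image Prod.fst).card + (H.image (fun e => π e.2 e.1)).card ≤ R →
      60 * H.card ≤ 61 * ((H.image Prod.fst).card + (H.image (fun e => π e.2 e.1)).card))
    (hS : (Δ + 1) * S ≤ R) (Γ : Fin n → Fin Δ → ZMod q)
    (h1 : ∀ u, ∑ j, Γ u j = 0) (h2 : ∀ u, ∑ j, Γ u j * ((j : ℕ) : ZMod q) = 0)
    (hs : wt Γ ≤ S) :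
    wt Γ ≤ 2 * wt (fun w : Fin n => ∑ e : Fin n × Fin Δ,
      if π e.2 e.1 = w then Γ e.1 e.2 else 0) := by
  classical
  obtain ⟨H, hH⟩ : ∃ H : Finset (Fin n × Fin Δ), H = Finset.univ.filter (fun e => Γ e.1 e.2 ≠ 0) :=
    ⟨_, rfl⟩
  have hm : ∀ e, e ∈ H ↔ Γ e.1 e.2 ≠ 0 := by
    intro e
    rw [hH, Finset.mem_filter]
    exact ⟨fun h => h.2, fun h => ⟨Finset.mem_univ _, h⟩⟩
  have hfst : ∀ u, u ∈ H.image Prod.fst ↔ Γ u ≠ 0 := by
    intro u
    rw [Finset.mem_image, Function.ne_iff]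
    constructor
    · rintro ⟨e, he, rfl⟩
      exact ⟨e.2, (hm e).1 he⟩
    · rintro ⟨j, hj⟩
      exact ⟨(u, j), (hm _).2 hj, rfl⟩
  have hwt : wt Γ = (H.image Prod.fst).card := wt_eq Γ _ hfst
  have hA : 3 * (H.image Prod.fst).card ≤ H.card := by
    rw [Finset.card_eq_sum_card_image Prod.fst H, mul_comm, ← smul_eq_mul]
    apply Finset.card_nsmul_le_sum
    intro u hu
    refine (three hΔ (Γ u) (h1 u) (h2 u) ((hfst u).1 hu)).trans ?_
    apply Finset.card_le_card_of_injOn (fun j => ((u, j) : Fin n × Fin Δ))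
    · intro j hj
      rw [Finset.mem_coe, Finset.mem_filter] at hj
      rw [Finset.mem_coe, Finset.mem_filter]
      exact ⟨(hm _).2 hj.2, rfl⟩
    · intro j _ j' _ h
      exact (Prod.mk.inj h).2
  have hB0 : H.card ≤ Δ * (H.image Prod.fst).card := by
    have h3 : H ⊆ (H.image Prod.fst) ×ˢ (Finset.univ : Finset (Fin Δ)) := by
      intro e he
      rw [Finset.mem_product]
      exact ⟨Finset.mem_image_of_mem _ he, Finset.mem_univ _⟩
    have h4 := Finset.card_le_card h3
    rw [Finset.card_product, Finset.card_univ, Fintype.card_fin] at h4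
    rw [mul_comm]
    exact h4
  have hr : (H.image (fun e => π e.2 e.1)).card ≤ H.card := Finset.card_image_le
  have hR : (H.image Prod.fst).card + (H.image (fun e => π e.2 e.1)).card ≤ R := by
    have h3 : (H.image Prod.fst).card ≤ S := by rw [← hwt]; exact hs
    have h4 : (Δ + 1) * (H.image Prod.fst).card ≤ (Δ + 1) * S := Nat.mul_le_mul_left _ h3
    have h5 : (Δ + 1) * (H.image Prod.fst).card =
        Δ * (H.image Prod.fst).card + (H.image Prod.fst).card := by ring
    omega
  have hB := hπ H hR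
  obtain ⟨U, hU⟩ : ∃ U : Finset (Fin n), U = (H.image (fun e => π e.2 e.1)).filter
      (fun w => (H.filter (fun e => π e.2 e.1 = w)).card = 1) := ⟨_, rfl⟩
  have hC : 2 * (H.image (fun e => π e.2 e.1)).card ≤ H.card + U.card := by
    have h3 : U.card = ∑ w ∈ H.image (fun e => π e.2 e.1),
        if (H.filter (fun e => π e.2 e.1 = w)).card = 1 then 1 else 0 := by
      rw [hU, Finset.card_filter]
    rw [h3, Finset.card_eq_sum_card_image (fun e => π e.2 e.1) H, ← Finset.sum_add_distrib,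
      mul_comm, ← smul_eq_mul]
    apply Finset.card_nsmul_le_sum
    intro w hw
    have h4 : 0 < (H.filter (fun e => π e.2 e.1 = w)).card := by
      rw [Finset.card_pos]
      obtain ⟨e, he, hew⟩ := Finset.mem_image.1 hw
      exact ⟨e, Finset.mem_filter.2 ⟨he, hew⟩⟩
    split_ifs with h5
    · omega
    · omega
  have hD : U.card ≤ wt (fun w : Fin n => ∑ e : Fin n × Fin Δ,
      if π e.2 e.1 = w then Γ e.1 e.2 else 0) := by
    apply wt_le
    intro w hw
    rw [hU, Finset.mem_filter] at hw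
    obtain ⟨e, he⟩ := Finset.card_eq_one.1 hw.2
    have he' : e ∈ H.filter (fun e => π e.2 e.1 = w) := by rw [he]; exact Finset.mem_singleton_self _
    rw [Finset.mem_filter] at he'
    have h3 : ∑ e : Fin n × Fin Δ, (if π e.2 e.1 = w then Γ e.1 e.2 else 0) = Γ e.1 e.2 := by
      rw [Finset.sum_eq_single e]
      · rw [if_pos he'.2]
      · intro e' _ hne
        split_ifs with h4
        · by_contra h5
          have h6 : e' ∈ H.filter (fun e => π e.2 e.1 = w) := Finset.mem_filter.2 ⟨(hm e').2 h5, h4⟩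
          rw [he, Finset.mem_singleton] at h6
          exact hne h6
        · rfl
      · intro h
        exact absurd (Finset.mem_univ _) h
    show (∑ e : Fin n × Fin Δ, if π e.2 e.1 = w then Γ e.1 e.2 else 0) ≠ 0
    rw [h3]
    exact (hm e).1 he'.1
  rw [hwt]
  omega

end Pool.Agent.Lib.P47s
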