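import Pool.Agent.Lib.P47s.Defs
import Pool.Agent.Lib.P47s.PDefs

/-!
Module FouA (1h; black box PDefs). Fourier analysis on W → ZMod q.
PROOF. chi_add, chi_neg, chi_zero: ZMod.stdAddChar is an additive character (AddChar.map_add_eq_mul, AddChar.map_neg_eq_conj).
chi_sub_arg is symmetric in the arguments. sum_chi: if l w0 ≠ 0 choose y0 = Pi.single w0 1 and use
chi l (y + y0) = chi l y * chi l y0, chi l y0 = stdAddChar (l w0) ≠ 1 (ZMod.injective_stdAddChar), so the sum is 0 (or AddChar.sum_eq_zero..).
inv: ∑ l, hat f l * chi l y = ∑ y', f y' (∑ l, chi (-l) y' * chi l y) / card = ∑ y', f y' [y = y'] (chi (-l) y' * chi l y = chi l (y - y'),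
and chi l x is symmetric in l and x, so sum_chi applies). hat_mul: insert inv for g into the definition of hat (f g):
hat (f g) ν = ∑ l', hat g l' * hat f (ν - l'), and reindex l = ν - l' (Equiv.subLeft). hat_dep: if l w0 ≠ 0, w0 ∉ D, then
f (y + Pi.single w0 1) = f y, so hat f l = hat f l * chi (-l) (single w0 1) up to conj, a factor ≠ 1. hat_jun: Submodule.span_induction; a function
that depends on D, card D ≤ t < wt l, has some w0 ∉ D with l w0 ≠ 0; hat is additive and homogeneous.
-/

open scoped BigOperators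

namespace Pool.Agent.Lib.P47s

variable {W : Type} [Fintype W] [DecidableEq W] {q : ℕ} [NeZero q]

namespace FouAAux

omit [DecidableEq W] in
theorem chi_symm (l y : W → ZMod q) : chi l y = chi y l := by
  unfold chi
  congr 1
  exact Finset.sum_congr rfl fun w _ => mul_comm _ _

omit [DecidableEq W] in
theorem chi_add' (l l' y : W → ZMod q) : chi (l + l') y = chi l y * chi l' y := by
  unfold chi
  rw [← AddChar.map_add_eq_mul, ← Finset.sum_add_distrib]
  congr 1
  exact Finset.sum_congr rfl fun w _ => by rw [Pi.add_apply, add_mul]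

omit [DecidableEq W] in
theorem chi_add_right (l y y' : W → ZMod q) : chi l (y + y') = chi l y * chi l y' := by
  rw [chi_symm, chi_add', chi_symm y, chi_symm y']

theorem chi_single (l : W → ZMod q) (w0 : W) :
    chi l (Pi.single w0 1) = ZMod.stdAddChar (l w0) := by
  unfold chi
  congr 1
  rw [Finset.sum_eq_single w0]
  · rw [Pi.single_eq_same, mul_one]
  · intro w _ hw
    rw [Pi.single_eq_of_ne hw, mul_zero]
  · intro h
    exact absurd (Finset.mem_univ w0) h

theorem chi_single_ne (l : W → ZMod q) (w0 : W) (h : l w0 ≠ 0) :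
    chi l (Pi.single w0 1) ≠ 1 := by
  rw [chi_single]
  intro h1
  apply h
  have h2 : ZMod.stdAddChar (l w0) = ZMod.stdAddChar (0 : ZMod q) := by
    rw [h1, AddChar.map_zero_eq_one]
  exact ZMod.injective_stdAddChar h2

/-- a function invariant under the shift by a vector `y0` with `chi l y0 ≠ 1` is orthogonal to
`chi l` -/
theorem sum_zero (f : (W → ZMod q) → ℂ) (l y0 : W → ZMod q) (h : chi l y0 ≠ 1)
    (hf : ∀ y, f (y + y0) = f y) : ∑ y, f y * chi l y = 0 := by
  have h1 : ∑ y, f y * chi l y = ∑ y, f (y + y0) * chi l (y + y0) :=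
    (Equiv.sum_comp (Equiv.addRight y0) (fun y => f y * chi l y)).symm
  have h2 : ∑ y, f (y + y0) * chi l (y + y0) = chi l y0 * ∑ y, f y * chi l y := by
    rw [Finset.mul_sum]
    refine Finset.sum_congr rfl fun y _ => ?_
    rw [hf, chi_add_right]
    ring
  have h3 : (1 - chi l y0) * ∑ y, f y * chi l y = 0 := by
    rw [sub_mul, one_mul, ← h2, ← h1, sub_self]
  rcases mul_eq_zero.1 h3 with h4 | h4
  · exact absurd (sub_eq_zero.1 h4).symm h
  · exact h4

end FouAAux

open FouAAux

omit [DecidableEq W] in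
theorem chi_add (l l' y : W → ZMod q) : chi (l + l') y = chi l y * chi l' y := chi_add' l l' y

omit [DecidableEq W] in
theorem chi_zero (y : W → ZMod q) : chi 0 y = 1 := by
  unfold chi
  simp

omit [DecidableEq W] in
theorem chi_neg (l y : W → ZMod q) : chi (-l) y = (starRingEnd ℂ) (chi l y) := by
  unfold chi
  rw [← AddChar.map_neg_eq_conj]
  congr 1
  rw [← Finset.sum_neg_distrib]
  exact Finset.sum_congr rfl fun w _ => by rw [Pi.neg_apply, neg_mul]

theorem sum_chi (l : W → ZMod q) :
    ∑ y, chi l y = if l = 0 then (Fintype.card (W → ZMod q) : ℂ) else 0 := by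
  by_cases h : l = 0
  · subst h
    rw [if_pos rfl, Finset.sum_congr rfl fun y _ => chi_zero y]
    simp
  · rw [if_neg h]
    obtain ⟨w0, hw⟩ := Function.ne_iff.1 h
    have h1 := sum_zero (fun _ => 1) l (Pi.single w0 1) (chi_single_ne l w0 hw) (fun _ => rfl)
    simpa using h1

theorem hat_chi (l' l : W → ZMod q) : hat (chi l') l = if l = l' then 1 else 0 := by
  have hc : (Fintype.card (W → ZMod q) : ℂ) ≠ 0 := by
    exact_mod_cast Fintype.card_ne_zero
  unfold hat
  have h1 : ∑ y, chi l' y * chi (-l) y = ∑ y, chi (l' + -l) y :=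
    Finset.sum_congr rfl fun y _ => (chi_add l' (-l) y).symm
  rw [h1, sum_chi]
  by_cases h : l = l'
  · subst h
    rw [if_pos rfl, if_pos (by rw [add_neg_cancel]), div_self hc]
  · rw [if_neg h, if_neg, zero_div]
    intro h2
    exact h (by rw [← sub_eq_add_neg, sub_eq_zero] at h2; exact h2.symm)

theorem fourier_inv (f : (W → ZMod q) → ℂ) (y : W → ZMod q) : ∑ l, hat f l * chi l y = f y := by
  have hc : (Fintype.card (W → ZMod q) : ℂ) ≠ 0 := by
    exact_mod_cast Fintype.card_ne_zero
  have h1 : ∀ l, hat f l * chi l y =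
      ∑ y', f y' * chi (y + -y') l / (Fintype.card (W → ZMod q) : ℂ) := by
    intro l
    unfold hat
    rw [div_mul_eq_mul_div, Finset.sum_mul, Finset.sum_div]
    refine Finset.sum_congr rfl fun y' _ => ?_
    congr 1
    rw [mul_assoc]
    congr 1
    rw [chi_add, chi_symm y l, chi_symm (-y') l, mul_comm]
    congr 1
    unfold chi
    congr 1
    refine Finset.sum_congr rfl fun w _ => ?_
    rw [Pi.neg_apply, Pi.neg_apply]
    ring
  rw [Finset.sum_congr rfl fun l _ => h1 l, Finset.sum_comm]
  have h2 : ∀ y', ∑ l, f y' * chi (y + -y') l / (Fintype.card (W → ZMod q) : ℂ) =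
      if y' = y then f y' else 0 := by
    intro y'
    rw [← Finset.sum_div, ← Finset.mul_sum, sum_chi]
    by_cases h : y' = y
    · subst h
      rw [if_pos rfl, if_pos (by rw [add_neg_cancel]), mul_div_assoc, div_self hc, mul_one]
    · rw [if_neg h, if_neg, mul_zero, zero_div]
      intro h3
      exact h (by rw [← sub_eq_add_neg, sub_eq_zero] at h3; exact h3.symm)
  rw [Finset.sum_congr rfl fun y' _ => h2 y', Finset.sum_ite_eq' Finset.univ y,
    if_pos (Finset.mem_univ y)]

theorem hat_mul (f g : (W → ZMod q) → ℂ) (v : W → ZMod q) :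
    hat (fun y => f y * g y) v = ∑ l, hat f l * hat g (v - l) := by
  have h1 : ∀ y, f y * g y * chi (-v) y = ∑ l, hat f l * (g y * chi (-(v - l)) y) := by
    intro y
    rw [← fourier_inv f y, Finset.sum_mul, Finset.sum_mul]
    refine Finset.sum_congr rfl fun l _ => ?_
    have h2 : -(v - l) = l + -v := by abel
    rw [h2, chi_add]
    ring
  unfold hat at h1 ⊢
  rw [Finset.sum_congr rfl fun y _ => h1 y, Finset.sum_comm, Finset.sum_div]
  refine Finset.sum_congr rfl fun l _ => ?_
  rw [← Finset.mul_sum, mul_div_assoc]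

theorem hat_conj (f : (W → ZMod q) → ℝ) (l : W → ZMod q) :
    hat (fun y => (f y : ℂ)) (-l) = (starRingEnd ℂ) (hat (fun y => (f y : ℂ)) l) := by
  unfold hat
  rw [map_div₀, map_sum, map_natCast]
  congr 1
  refine Finset.sum_congr rfl fun y _ => ?_
  rw [map_mul, Complex.conj_ofReal, ← chi_neg]

theorem hat_jun {t : ℕ} {f : (W → ZMod q) → ℝ} (hf : f ∈ Jun W (ZMod q) t) (l : W → ZMod q)
    (hl : t < wt l) : hat (fun y => (f y : ℂ)) l = 0 := by
  classical
  unfold Jun at hf
  induction hf using Submodule.span_induction with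
  | mem f hf =>
    obtain ⟨D, hD, hdep⟩ := hf
    obtain ⟨w0, hw0, hwD⟩ : ∃ w0, l w0 ≠ 0 ∧ w0 ∉ D := by
      by_contra hcon
      push Not at hcon
      have h1 : wt l ≤ D.card := by
        unfold wt
        refine Finset.card_le_card fun w hw => hcon w ?_
        simpa using hw
      omega
    unfold hat
    rw [sum_zero (fun y => (f y : ℂ)) (-l) (Pi.single w0 1)
      (chi_single_ne (-l) w0 (by rw [Pi.neg_apply]; exact neg_ne_zero.2 hw0)), zero_div]
    intro y
    have h1 : f (y + Pi.single w0 1) = f y := by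
      refine hdep fun w hw => ?_
      have hne : w ≠ w0 := fun h => hwD (h ▸ hw)
      rw [Pi.add_apply, Pi.single_eq_of_ne hne, add_zero]
    show ((f (y + Pi.single w0 1) : ℝ) : ℂ) = (f y : ℂ)
    rw [h1]
  | zero =>
    unfold hat
    simp
  | add f g _ _ ihf ihg =>
    have h1 : hat (fun y => (((f + g) y : ℝ) : ℂ)) l =
        hat (fun y => (f y : ℂ)) l + hat (fun y => (g y : ℂ)) l := by
      unfold hat
      rw [← add_div, ← Finset.sum_add_distrib]
      congr 1
      refine Finset.sum_congr rfl fun y _ => ?_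
      show ((f y + g y : ℝ) : ℂ) * chi (-l) y = (f y : ℂ) * chi (-l) y + (g y : ℂ) * chi (-l) y
      rw [Complex.ofReal_add, add_mul]
    rw [h1, ihf, ihg, add_zero]
  | smul a f _ ihf =>
    have h1 : hat (fun y => (((a • f) y : ℝ) : ℂ)) l = (a : ℂ) * hat (fun y => (f y : ℂ)) l := by
      unfold hat
      rw [← mul_div_assoc, Finset.mul_sum]
      congr 1
      refine Finset.sum_congr rfl fun y _ => ?_
      show ((a * f y : ℝ) : ℂ) * chi (-l) y = (a : ℂ) * ((f y : ℂ) * chi (-l) y)
      rw [Complex.ofReal_mul, mul_assoc]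
    rw [h1, ihf, mul_zero]

end Pool.Agent.Lib.P47s
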