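import Pool.Agent.Lib.P47s.Defs
import Pool.Agent.Lib.P47s.PDefs
import Pool.Agent.Lib.P47s.FouA

/-!
Module FouB (1h; black box FouA). The functional fn e.
PROOF. fn_one: the constant 1 is chi 0, hat_chi. fn_sq: hat (f^2) v = ∑ l, hat f l * hat f (v - l) (hat_mul, f real), and with l' = l - v
(v = l - l') hat f (v - l) = hat f (-l') = conj (hat f l'); so ∑ v, hat (f^2) v * e v = ∑ l, ∑ l', hat f l * conj (hat f l') * e (l - l')
(Finset.sum_comm and the bijection v ↦ l - v for fixed l). fn_eq: the complex function y ↦ [⟨l, y⟩ = β] is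
(1/q) ∑ t : ZMod q, stdAddChar (- (t * β)) * chi (t • l) y (orthogonality of characters of ZMod q: sum_chi for W = Unit or
AddChar.sum_mulShift), so its coefficients give (∑ over the frequencies) = (1/q) ∑ t, stdAddChar (-(t β)) * e (t • l) (hat_chi, hat is linear),
which is 1 by the hypothesis (stdAddChar (-(t β)) * stdAddChar (t β) = 1). The function in the claim is 1 minus this one, fn_one.
-/

open scoped BigOperators

namespace Pool.Agent.Lib.P47s

variable {W : Type} [Fintype W] [DecidableEq W] {q : ℕ} [NeZero q]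

namespace FouBAux

theorem fn_apply (e : (W → ZMod q) → ℂ) (f : (W → ZMod q) → ℝ) :
    fn e f = (∑ l, hat (fun y => (f y : ℂ)) l * e l).re := rfl

theorem hat_congr {f g : (W → ZMod q) → ℂ} (h : ∀ y, f y = g y) (l : W → ZMod q) : hat f l = hat g l := by
  have : f = g := funext h
  rw [this]

theorem hat_smul (c : ℂ) (f : (W → ZMod q) → ℂ) (l : W → ZMod q) : hat (fun y => c * f y) l = c * hat f l := by
  unfold hat
  rw [mul_div_assoc', Finset.mul_sum]
  congr 1
  exact Finset.sum_congr rfl fun y _ => by ring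

theorem hat_sum {ι : Type} (s : Finset ι) (f : ι → (W → ZMod q) → ℂ) (l : W → ZMod q) :
    hat (fun y => ∑ i ∈ s, f i y) l = ∑ i ∈ s, hat (f i) l := by
  unfold hat
  rw [← Finset.sum_div]
  congr 1
  rw [Finset.sum_comm]
  exact Finset.sum_congr rfl fun y _ => by rw [Finset.sum_mul]

theorem indic (l : W → ZMod q) (β : ZMod q) (y : W → ZMod q) :
    (((if ∑ w, l w * y w = β then 1 else 0 : ℝ)) : ℂ) =
      (q : ℂ)⁻¹ * ∑ t : ZMod q, ZMod.stdAddChar (-(t * β)) * chi (t • l) y := by
  have h1 : ∀ t : ZMod q, ZMod.stdAddChar (-(t * β)) * chi (t • l) y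
      = (ZMod.stdAddChar (t * (∑ w, l w * y w - β)) : ℂ) := by
    intro t
    unfold chi
    rw [← AddChar.map_add_eq_mul]
    congr 1
    have : ∑ w, (t • l) w * y w = t * ∑ w, l w * y w := by
      rw [Finset.mul_sum]
      exact Finset.sum_congr rfl fun w _ => by rw [Pi.smul_apply, smul_eq_mul, mul_assoc]
    rw [this]; ring
  rw [Finset.sum_congr rfl fun t _ => h1 t, AddChar.sum_mulShift _ (ZMod.isPrimitive_stdAddChar q)]
  have hq : (q : ℂ) ≠ 0 := by exact_mod_cast NeZero.ne q
  by_cases h : ∑ w, l w * y w = β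
  · rw [if_pos h, if_pos (sub_eq_zero.2 h), ZMod.card]
    push_cast
    field_simp
  · rw [if_neg h, if_neg (sub_ne_zero.2 h)]
    simp

end FouBAux

open FouBAux in
theorem fn_one (e : (W → ZMod q) → ℂ) (he : e 0 = 1) : fn e (fun _ => 1) = 1 := by
  rw [fn_apply]
  have h1 : ∀ l : W → ZMod q, hat (fun _ => ((1 : ℝ) : ℂ)) l * e l = if l = 0 then 1 else 0 := by
    intro l
    rw [hat_congr (g := chi (0 : W → ZMod q)) (fun y => by rw [chi_zero]; simp) l, hat_chi]
    split_ifs with h
    · rw [h, he, one_mul]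
    · rw [zero_mul]
  rw [Finset.sum_congr rfl fun l _ => h1 l]
  simp

open FouBAux in
theorem fn_sq (e : (W → ZMod q) → ℂ) (f : (W → ZMod q) → ℝ) :
    fn e (fun y => f y ^ 2) = (∑ l, ∑ l', hat (fun y => (f y : ℂ)) l *
      (starRingEnd ℂ) (hat (fun y => (f y : ℂ)) l') * e (l - l')).re := by
  rw [fn_apply]
  congr 1
  have h1 : ∀ v : W → ZMod q, hat (fun y => ((f y ^ 2 : ℝ) : ℂ)) v * e v
      = ∑ l, hat (fun y => (f y : ℂ)) l * hat (fun y => (f y : ℂ)) (v - l) * e v := by
    intro v
    rw [hat_congr (g := fun y => (f y : ℂ) * (f y : ℂ)) (fun y => by push_cast; ring) v, hat_mul, Finset.sum_mul]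
  rw [Finset.sum_congr rfl fun v _ => h1 v, Finset.sum_comm]
  refine Finset.sum_congr rfl fun l _ => ?_
  rw [← Equiv.sum_comp (Equiv.subLeft l)]
  refine Finset.sum_congr rfl fun l' _ => ?_
  rw [Equiv.subLeft_apply]
  have h2 : l - l' - l = -l' := by abel
  rw [h2, hat_conj]

open FouBAux in
theorem fn_eq (e : (W → ZMod q) → ℂ) (l : W → ZMod q) (β : ZMod q)
    (h : ∀ t : ZMod q, e (t • l) = ZMod.stdAddChar (t * β)) :
    fn e (fun y => if ∑ w, l w * y w = β then 0 else 1) = 0 := by
  have he : e 0 = 1 := by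
    have := h 0
    rw [zero_smul, zero_mul, AddChar.map_zero_eq_one] at this
    exact this
  have hsub : (fun y : W → ZMod q => if ∑ w, l w * y w = β then (0 : ℝ) else 1)
      = (fun _ => 1) - (fun y => if ∑ w, l w * y w = β then 1 else 0) := by
    funext y
    rw [Pi.sub_apply]
    split_ifs <;> simp
  rw [hsub, map_sub, fn_one e he]
  have hq : (q : ℂ) ≠ 0 := by exact_mod_cast NeZero.ne q
  have h2 : fn e (fun y => if ∑ w, l w * y w = β then 1 else 0) = 1 := by
    rw [fn_apply]
    have h3 : ∀ l' : W → ZMod q, hat (fun y => (((if ∑ w, l w * y w = β then 1 else 0 : ℝ)) : ℂ)) l' * e l'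
        = (q : ℂ)⁻¹ * ∑ t : ZMod q, ZMod.stdAddChar (-(t * β)) * ((if l' = t • l then 1 else 0) * e l') := by
      intro l'
      rw [hat_congr (indic l β) l', hat_smul, hat_sum, mul_assoc, Finset.sum_mul]
      congr 1
      refine Finset.sum_congr rfl fun t _ => ?_
      rw [hat_smul, hat_chi]; ring
    rw [Finset.sum_congr rfl fun l' _ => h3 l', ← Finset.mul_sum, Finset.sum_comm]
    have h4 : ∀ t : ZMod q, ∑ l' : W → ZMod q, ZMod.stdAddChar (-(t * β)) * ((if l' = t • l then 1 else 0) * e l') = 1 := by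
      intro t
      rw [Finset.sum_eq_single (t • l)]
      · rw [if_pos rfl, one_mul, h t, ← AddChar.map_add_eq_mul, neg_add_cancel, AddChar.map_zero_eq_one]
      · intro l' _ hne
        rw [if_neg hne, zero_mul, mul_zero]
      · intro hn; exact absurd (Finset.mem_univ _) hn
    rw [Finset.sum_congr rfl fun t _ => h4 t]
    rw [Finset.sum_const, Finset.card_univ, ZMod.card, nsmul_eq_mul, mul_one, inv_mul_cancel₀ hq]
    simp
  rw [h2, sub_self]

end Pool.Agent.Lib.P47s
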