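import Mathlib

/-!
Module Psd (1h). A matrix that is a rank one matrix on every class of an equivalence relation is positive semidefinite.
PROOF. For z with P z let N z be the number of l with P l and rel l z (≥ 1 by hrefl) and G z = ∑ over l with P l, rel l z of c l * K l z. Then
∑ over z with P z of |G z|^2 / N z (a real number ≥ 0; |G|^2 = G * conj G) is ∑ l, ∑ l', c l * conj (c l') * (∑ over z with P z, rel l z,
rel l' z of K l z * conj (K l' z) / N z) (l, l' with P). If rel l l' does not hold, there is no such z (hsymm, htrans), and K l l' = 0. If rel l l' holds,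
the z are exactly those with P z and rel l z, there are N l of them (N z = N l as the classes agree), and K l z * conj (K l' z) =
K l z * K z l' = K l l' (hconj, hmul). So the inner sum is K l l'. The terms of the claim with ¬ P l or ¬ P l' vanish (hc).
-/

open scoped BigOperators

namespace Pool.Agent.Lib.P47s

theorem psd {X : Type} [Fintype X] (P : X → Prop) (rel : X → X → Prop)
    (hrefl : ∀ l, P l → rel l l) (hsymm : ∀ l l', P l → P l' → rel l l' → rel l' l)
    (htrans : ∀ l l' z, P l → P l' → P z → rel l l' → rel l' z → rel l z) (K : X → X → ℂ)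
    (hK0 : ∀ l l', P l → P l' → ¬ rel l l' → K l l' = 0)
    (hconj : ∀ l l', P l → P l' → rel l l' → K l' l = (starRingEnd ℂ) (K l l'))
    (hmul : ∀ l l' z, P l → P l' → P z → rel l l' → rel l' z → K l z = K l l' * K l' z)
    (c : X → ℂ) (hc : ∀ l, ¬ P l → c l = 0) :
    0 ≤ (∑ l, ∑ l', c l * (starRingEnd ℂ) (c l') * K l l').re := by
  classical
  set A : Finset X := Finset.univ.filter P with hA
  have memA : ∀ l, l ∈ A ↔ P l := fun l => by simp [hA]
  set N : X → ℝ := fun z => ((A.filter (fun l => rel l z)).card : ℝ) with hN
  set G : X → ℂ := fun z => ∑ l ∈ A, if rel l z then c l * K l z else 0 with hG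
  -- the inner sums
  have inner : ∀ l ∈ A, ∀ l' ∈ A,
      (∑ z ∈ A, (if rel l z then (if rel l' z then
        K l z * (starRingEnd ℂ) (K l' z) / (N z : ℂ) else 0) else 0)) = K l l' := by
    intro l hl l' hl'
    rw [memA] at hl hl'
    by_cases hr : rel l l'
    · have hr' := hsymm l l' hl hl' hr
      set B : Finset X := A.filter (fun z => rel l z) with hB
      have hBl : l ∈ B := by
        rw [hB, Finset.mem_filter, memA]
        exact ⟨hl, hrefl l hl⟩
      have hB0 : ((B.card : ℝ) : ℂ) ≠ 0 := by
        have : 0 < B.card := Finset.card_pos.2 ⟨l, hBl⟩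
        have h2 : ((B.card : ℝ)) ≠ 0 := by exact_mod_cast this.ne'
        exact_mod_cast h2
      have e1 : ∀ z ∈ A, (if rel l z then (if rel l' z then
          K l z * (starRingEnd ℂ) (K l' z) / (N z : ℂ) else 0) else 0) =
          if rel l z then K l l' / ((B.card : ℝ) : ℂ) else 0 := by
        intro z hz
        rw [memA] at hz
        by_cases hlz : rel l z
        · have hl'z : rel l' z := htrans l' l z hl' hl hz hr' hlz
          rw [if_pos hlz, if_pos hl'z, if_pos hlz]
          have hzl' := hsymm l' z hl' hz hl'z
          rw [← hconj l' z hl' hz hl'z, ← hmul l z l' hl hz hl' hlz hzl']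
          have hNB : A.filter (fun m => rel m z) = B := by
            ext m
            have i1 : m ∈ A.filter (fun m => rel m z) ↔ P m ∧ rel m z := by
              simp [hA]
            have i2 : m ∈ B ↔ P m ∧ rel l m := by
              simp [hB, hA]
            rw [i1, i2]
            constructor
            · rintro ⟨hm, hmz⟩
              exact ⟨hm, htrans l z m hl hz hm hlz (hsymm m z hm hz hmz)⟩
            · rintro ⟨hm, hlm⟩
              exact ⟨hm, htrans m l z hm hl hz (hsymm l m hl hm hlm) hlz⟩
          rw [hN]
          simp only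
          rw [hNB]
        · rw [if_neg hlz, if_neg hlz]
      rw [Finset.sum_congr rfl e1, ← Finset.sum_filter, Finset.sum_const, nsmul_eq_mul]
      have : ((B.card : ℕ) : ℂ) = ((B.card : ℝ) : ℂ) := by push_cast; rfl
      rw [this]
      field_simp
    · rw [hK0 l l' hl hl' hr]
      apply Finset.sum_eq_zero
      intro z hz
      rw [memA] at hz
      by_cases hlz : rel l z
      · by_cases hl'z : rel l' z
        · exact absurd (htrans l z l' hl hz hl' hlz (hsymm l' z hl' hz hl'z)) hr
        · rw [if_pos hlz, if_neg hl'z]
      · rw [if_neg hlz]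
  have e2 : (∑ l, ∑ l', c l * (starRingEnd ℂ) (c l') * K l l') =
      ∑ z ∈ A, G z * (starRingEnd ℂ) (G z) / (N z : ℂ) := by
    have h1 : (∑ l, ∑ l', c l * (starRingEnd ℂ) (c l') * K l l') =
        ∑ l ∈ A, ∑ l' ∈ A, c l * (starRingEnd ℂ) (c l') * K l l' := by
      rw [hA, Finset.sum_filter]
      refine Finset.sum_congr rfl fun l _ => ?_
      by_cases hl : P l
      · rw [if_pos hl, Finset.sum_filter]
        refine Finset.sum_congr rfl fun l' _ => ?_
        by_cases hl' : P l'
        · rw [if_pos hl']
        · rw [if_neg hl', hc l' hl']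
          simp
      · rw [if_neg hl]
        apply Finset.sum_eq_zero
        intro l' _
        rw [hc l hl]
        simp
    have h2 : ∀ z ∈ A, G z * (starRingEnd ℂ) (G z) / (N z : ℂ) =
        ∑ l ∈ A, ∑ l' ∈ A, c l * (starRingEnd ℂ) (c l') * (if rel l z then (if rel l' z then
        K l z * (starRingEnd ℂ) (K l' z) / (N z : ℂ) else 0) else 0) := by
      intro z _
      rw [hG]
      simp only
      rw [map_sum, Finset.sum_mul_sum, Finset.sum_div]
      refine Finset.sum_congr rfl fun l _ => ?_
      rw [Finset.sum_div]
      refine Finset.sum_congr rfl fun l' _ => ?_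
      by_cases h1 : rel l z
      · by_cases h2 : rel l' z
        · rw [if_pos h1, if_pos h2, if_pos h1, if_pos h2, map_mul]
          ring
        · rw [if_pos h1, if_neg h2, if_pos h1, if_neg h2]
          simp
      · rw [if_neg h1, if_neg h1]
        simp
    rw [h1, Finset.sum_congr rfl h2]
    symm
    rw [Finset.sum_comm]
    refine Finset.sum_congr rfl fun l hl => ?_
    rw [Finset.sum_comm]
    refine Finset.sum_congr rfl fun l' hl' => ?_
    rw [← Finset.mul_sum, inner l hl l' hl']
  rw [e2, Complex.re_sum]
  refine Finset.sum_nonneg fun z _ => ?_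
  rw [Complex.mul_conj, ← Complex.ofReal_div, Complex.ofReal_re]
  exact div_nonneg (Complex.normSq_nonneg _) (Nat.cast_nonneg _)

end Pool.Agent.Lib.P47s
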