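import Pool.Agent.Lib.P47s.Defs
import Pool.Agent.Lib.P47s.PDefs
import Pool.Agent.Lib.P47s.FouA
import Pool.Agent.Lib.P47s.FouB
import Pool.Agent.Lib.P47s.Psd

/-!
Module SysE (2h; black boxes FouA, FouB, Psd). A solution of the sum-of-squares hierarchy for a system of linear equations without short
derivations of a contradiction.
PROOF. (i) If size a ≤ S and T a = 0 then size a ≤ 2 * wt 0 = 0, so a = 0 (hz). wt facts: wt (-l) = wt l, wt (l + l') ≤ wt l + wt l',
wt (t • l) ≤ wt l, wt 0 = 0. size (-a) = size ((-1) • a) ≤ size a. (ii) Let D l mean: wt l ≤ d and ∃ a, size a ≤ 2 * d ∧ T a = l. The element a is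
unique: for a, a' the difference has size ≤ 4 d ≤ S and T (a - a') = 0. Let e l = stdAddChar (β a) for this a if D l, and e l = 0 otherwise.
(iii) If D l, D l' and wt (l + l') ≤ d then D (l + l') and e (l + l') = e l * e l': a + a' has size ≤ 4 d ≤ S, so
size (a + a') ≤ 2 * wt (l + l') ≤ 2 d. D 0 and e 0 = 1 (a = 0, h0). If D l then D (-l) and e (-l) = conj (e l).
(iv) E = fn e. one: fn_one. sq: for f ∈ Jun (d / 2) let c l = hat f l, which is 0 unless P l := wt l ≤ d / 2 (hat_jun); fn_sq and psd with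
rel l l' := D (l - l') and K l l' = e (l - l'): for P l, P l' the weight of l - l' is ≤ d, so transitivity and hmul follow from (iii), symmetry and
hconj from (iii) as well. (v) For a with size a ≤ S and wt (T a) ≤ d: size a ≤ 2 wt (T a) ≤ 2 d; for t : ZMod q, T (t • a) = t • T a has weight
≤ d and size (t • a) ≤ 2 d, so D (t • T a) and e (t • T a) = stdAddChar (β (t • a)) = stdAddChar (t * β a). fn_eq.
-/

open scoped BigOperators

namespace Pool.Agent.Lib.P47s

namespace SysEAux

section Weight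

theorem wt_zero {W A : Type} [Fintype W] [Zero A] : wt (0 : W → A) = 0 := by
  classical
  unfold wt
  rw [Finset.card_eq_zero, Finset.filter_eq_empty_iff]
  intro w _ h
  exact h rfl

theorem wt_mono {W A B : Type} [Fintype W] [Zero A] [Zero B] {l : W → A} {l' : W → B}
    (h : ∀ w, l w ≠ 0 → l' w ≠ 0) : wt l ≤ wt l' := by
  classical
  unfold wt
  refine Finset.card_le_card fun w hw => ?_
  rw [Finset.mem_filter] at hw ⊢
  exact ⟨hw.1, h w hw.2⟩

theorem wt_add_le {W A : Type} [Fintype W] [AddZeroClass A] (l l' : W → A) :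
    wt (l + l') ≤ wt l + wt l' := by
  classical
  unfold wt
  refine le_trans (Finset.card_le_card fun w hw => ?_) (Finset.card_union_le _ _)
  rw [Finset.mem_filter] at hw
  rw [Finset.mem_union, Finset.mem_filter, Finset.mem_filter]
  by_contra hcon
  push Not at hcon
  refine hw.2 ?_
  rw [Pi.add_apply, hcon.1 (Finset.mem_univ w), hcon.2 (Finset.mem_univ w), add_zero]

variable {W : Type} [Fintype W] {q : ℕ}

theorem wt_neg_le (l : W → ZMod q) : wt (-l) ≤ wt l :=
  wt_mono fun w hw h => hw (by rw [Pi.neg_apply, h, neg_zero])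

theorem wt_smul_le (t : ZMod q) (l : W → ZMod q) : wt (t • l) ≤ wt l :=
  wt_mono fun w hw h => hw (by rw [Pi.smul_apply, h, smul_zero])

theorem wt_sub_le (l l' : W → ZMod q) : wt (l - l') ≤ wt l + wt l' := by
  rw [sub_eq_add_neg]
  exact (wt_add_le l (-l')).trans (Nat.add_le_add_left (wt_neg_le l') _)

end Weight

section Main

variable {q : ℕ} [NeZero q] {W : Type} [Fintype W] {G : Type} [AddCommGroup G] [Module (ZMod q) G]
  (T : G →ₗ[ZMod q] (W → ZMod q)) (β : G →ₗ[ZMod q] ZMod q) (size : G → ℕ) (S d : ℕ)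

/-- the frequencies with a short derivation -/
def Dv (l : W → ZMod q) : Prop := wt l ≤ d ∧ ∃ a, size a ≤ 2 * d ∧ T a = l

/-- the values at the characters -/
noncomputable def ev (l : W → ZMod q) : ℂ := by
  classical
  exact if h : Dv T size d l then ZMod.stdAddChar (β h.2.choose) else 0

theorem ev_zero {l : W → ZMod q} (h : ¬ Dv T size d l) : ev T β size d l = 0 := by
  unfold ev
  rw [dif_neg h]

variable (h0 : size 0 = 0) (hadd : ∀ a b, size (a + b) ≤ size a + size b)
    (hsmul : ∀ (c : ZMod q) (a : G), size (c • a) ≤ size a) (hz : ∀ a, size a = 0 → a = 0)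
    (hexp : ∀ a, size a ≤ S → size a ≤ 2 * wt (T a)) (hd : 4 * d ≤ S)

include hsmul in
omit [NeZero q] in
theorem size_neg (a : G) : size (-a) ≤ size a := by
  have h := hsmul (-1) a
  rwa [neg_one_smul] at h

include hadd hsmul hz hexp hd in
omit [NeZero q] in
theorem uniq {a a' : G} (ha : size a ≤ 2 * d) (ha' : size a' ≤ 2 * d) (h : T a = T a') :
    a = a' := by
  have h1 : size (a + -a') ≤ S := by
    have e1 := hadd a (-a')
    have e2 := size_neg size hsmul a'
    omega
  have h2 := hexp _ h1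
  rw [map_add, map_neg, h, add_neg_cancel, wt_zero] at h2
  have h3 : a + -a' = 0 := hz _ (by omega)
  exact add_neg_eq_zero.1 h3

include hadd hsmul hz hexp hd in
theorem ev_eq {l : W → ZMod q} {a : G} (hl : wt l ≤ d) (ha : size a ≤ 2 * d) (h : T a = l) :
    ev T β size d l = ZMod.stdAddChar (β a) := by
  have hD : Dv T size d l := ⟨hl, a, ha, h⟩
  unfold ev
  rw [dif_pos hD]
  have h1 := hD.2.choose_spec
  rw [uniq T size S d hadd hsmul hz hexp hd h1.1 ha (h1.2.trans h.symm)]

include hadd hsmul hz hexp hd in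
theorem ev_add {l l' : W → ZMod q} (hl : Dv T size d l) (hl' : Dv T size d l')
    (hw : wt (l + l') ≤ d) :
    Dv T size d (l + l') ∧ ev T β size d (l + l') = ev T β size d l * ev T β size d l' := by
  obtain ⟨h1, a, ha, rfl⟩ := hl
  obtain ⟨h1', a', ha', rfl⟩ := hl'
  have e1 := hadd a a'
  have e2 := hexp (a + a') (by omega)
  rw [map_add] at e2
  have e3 : size (a + a') ≤ 2 * d := by omega
  refine ⟨⟨hw, a + a', e3, map_add T a a'⟩, ?_⟩
  rw [ev_eq T β size S d hadd hsmul hz hexp hd hw e3 (map_add T a a'),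
    ev_eq T β size S d hadd hsmul hz hexp hd h1 ha rfl,
    ev_eq T β size S d hadd hsmul hz hexp hd h1' ha' rfl, map_add, AddChar.map_add_eq_mul]

include hadd hsmul hz hexp hd in
theorem ev_neg {l : W → ZMod q} (hl : Dv T size d l) :
    Dv T size d (-l) ∧ ev T β size d (-l) = (starRingEnd ℂ) (ev T β size d l) := by
  obtain ⟨h1, a, ha, rfl⟩ := hl
  have e1 : size (-a) ≤ 2 * d := (size_neg size hsmul a).trans ha
  have e2 : wt (-(T a)) ≤ d := (wt_neg_le _).trans h1
  refine ⟨⟨e2, -a, e1, map_neg T a⟩, ?_⟩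
  rw [ev_eq T β size S d hadd hsmul hz hexp hd e2 e1 (map_neg T a),
    ev_eq T β size S d hadd hsmul hz hexp hd h1 ha rfl, map_neg, AddChar.map_neg_eq_conj]

include h0 in
omit [NeZero q] in
theorem dv_zero : Dv T size d (0 : W → ZMod q) :=
  ⟨by rw [wt_zero]; exact Nat.zero_le _, 0, by rw [h0]; exact Nat.zero_le _, map_zero T⟩

end Main

end SysEAux

open SysEAux in
theorem sysE {q : ℕ} [NeZero q] {W : Type} [Fintype W] [DecidableEq W] {G : Type}
    [AddCommGroup G] [Module (ZMod q) G] (T : G →ₗ[ZMod q] (W → ZMod q)) (β : G →ₗ[ZMod q] ZMod q)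
    (size : G → ℕ) (S d : ℕ) (h0 : size 0 = 0) (hadd : ∀ a b, size (a + b) ≤ size a + size b)
    (hsmul : ∀ (c : ZMod q) (a : G), size (c • a) ≤ size a) (hz : ∀ a, size a = 0 → a = 0)
    (hexp : ∀ a, size a ≤ S → size a ≤ 2 * wt (T a)) (hd : 4 * d ≤ S) :
    ∃ E : ((W → ZMod q) → ℝ) →ₗ[ℝ] ℝ, IsSosExpectation (d / 2) E ∧
      ∀ a, size a ≤ S → wt (T a) ≤ d →
        E (fun y => if ∑ w, T a w * y w = β a then 0 else 1) = 0 := by
  have hP : ∀ l l' : W → ZMod q, wt l ≤ d / 2 → wt l' ≤ d / 2 → wt (l - l') ≤ d := by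
    intro l l' h h'
    have h1 := wt_sub_le l l'
    omega
  refine ⟨fn (ev T β size d), ⟨?_, ?_⟩, ?_⟩
  · refine fn_one _ ?_
    rw [ev_eq T β size S d hadd hsmul hz hexp hd (a := 0) (by rw [wt_zero]; exact Nat.zero_le _)
      (by rw [h0]; exact Nat.zero_le _) (map_zero T), map_zero, AddChar.map_zero_eq_one]
  · intro f hf
    rw [fn_sq]
    refine psd (fun l => wt l ≤ d / 2) (fun l l' => Dv T size d (l - l')) ?_ ?_ ?_
      (fun l l' => ev T β size d (l - l')) ?_ ?_ ?_ _ ?_
    · intro l _
      show Dv T size d (l - l)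
      rw [sub_self]
      exact dv_zero T size d h0
    · intro l l' _ _ h
      show Dv T size d (l' - l)
      rw [← neg_sub]
      exact (ev_neg T β size S d hadd hsmul hz hexp hd h).1
    · intro l l' z h1 _ h3 h h'
      show Dv T size d (l - z)
      rw [← sub_add_sub_cancel l l' z]
      exact (ev_add T β size S d hadd hsmul hz hexp hd h h'
        (by rw [sub_add_sub_cancel]; exact hP l z h1 h3)).1
    · intro l l' _ _ h
      exact ev_zero T β size d h
    · intro l l' _ _ h
      show ev T β size d (l' - l) = _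
      rw [← neg_sub]
      exact (ev_neg T β size S d hadd hsmul hz hexp hd h).2
    · intro l l' z h1 _ h3 h h'
      show ev T β size d (l - z) = _
      rw [← sub_add_sub_cancel l l' z]
      exact (ev_add T β size S d hadd hsmul hz hexp hd h h'
        (by rw [sub_add_sub_cancel]; exact hP l z h1 h3)).2
    · intro l hl
      exact hat_jun hf l (not_le.1 hl)
  · intro a ha hw
    have h1 := hexp a ha
    refine fn_eq _ _ _ fun t => ?_
    rw [ev_eq T β size S d hadd hsmul hz hexp hd (a := t • a) ((wt_smul_le t _).trans hw)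
      ((hsmul t a).trans (by omega)) (map_smul T t a), map_smul, smul_eq_mul]

end Pool.Agent.Lib.P47s
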