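import Pool.Agent.Lib.P47s.Defs
import Pool.Agent.Lib.P47s.PDefs
import Pool.Agent.Lib.P47s.SysE
import Pool.Agent.Lib.P47s.Expd

/-!
Module SysP (1.5h; black boxes SysE, Expd). The line equations have a solution of the sum-of-squares hierarchy.
PROOF. sysE with W = Fin n, G = the submodule of the Γ : Fin n → Fin Δ → ZMod q with ∑ j, Γ u j = 0 and ∑ j, Γ u j * j = 0 for all u,
T Γ w = ∑ e, if π e.2 e.1 = w then Γ e.1 e.2 else 0, β Γ = ∑ e, Γ e.1 e.2 * b e, size Γ = wt Γ (subadditive, 0 only for Γ = 0), hexp = expd.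
For u, j apply the last claim to the Γ with Γ u = single j 1 - (1 - j) • single j0 1 - j • single j1 1 and Γ u' = 0 for u' ≠ u: it is in G
(1 - (1 - j) - j = 0, j - (1 - j) * 0 - j * 1 = 0), has size ≤ 1 ≤ S, T Γ is supported on {π j u, π j0 u, π j1 u}, so wt (T Γ) ≤ 3 ≤ d, and
∑ w, T Γ w * y w = ∑ e, Γ e * y (π e.2 e.1) = y (π j u) - (1 - j) y (π j0 u) - j y (π j1 u), β Γ = b (u, j) - (1 - j) b (u, j0) - j b (u, j1): the
equation ∑ w, T Γ w * y w = β Γ is equivalent to LineEq.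
-/

open scoped BigOperators

namespace Pool.Agent.Lib.P47s

namespace SysPAux

lemma wt_add {W A : Type} [Fintype W] [AddZeroClass A] (l l' : W → A) :
    wt (l + l') ≤ wt l + wt l' := by
  classical
  unfold wt
  refine (Finset.card_le_card ?_).trans (Finset.card_union_le _ _)
  intro w hw
  rw [Finset.mem_union]
  simp only [Finset.mem_filter, Finset.mem_univ, true_and] at hw ⊢
  by_contra hc
  push Not at hc
  apply hw
  rw [Pi.add_apply, hc.1, hc.2, add_zero]

lemma wt_mono {W A : Type} [Fintype W] [Zero A] (l l' : W → A) (h : ∀ w, l' w = 0 → l w = 0) :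
    wt l ≤ wt l' := by
  unfold wt
  apply Finset.card_le_card
  intro w hw
  simp only [Finset.mem_filter, Finset.mem_univ, true_and] at hw ⊢
  exact fun h' => hw (h w h')

lemma wt_le_card {W A : Type} [Fintype W] [Zero A] (l : W → A) (s : Finset W)
    (h : ∀ w, w ∉ s → l w = 0) : wt l ≤ s.card := by
  unfold wt
  apply Finset.card_le_card
  intro w hw
  simp only [Finset.mem_filter, Finset.mem_univ, true_and] at hw
  by_contra hc
  exact hw (h w hc)

lemma wt_zero {W A : Type} [Fintype W] [Zero A] : wt (0 : W → A) = 0 := by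
  have := wt_le_card (0 : W → A) ∅ (fun _ _ => rfl)
  simpa using this

lemma eq_zero_of_wt {W A : Type} [Fintype W] [Zero A] (l : W → A) (h : wt l = 0) : l = 0 := by
  unfold wt at h
  rw [Finset.card_eq_zero] at h
  funext w
  by_contra hc
  have : w ∈ (∅ : Finset W) := by
    rw [← h]
    simp only [Finset.mem_filter, Finset.mem_univ, true_and]
    exact hc
  exact absurd this (Finset.notMem_empty w)

/-- The combinations of equations in which all lines cancel. -/
def Gs (n Δ q : ℕ) : Submodule (ZMod q) (Fin n → Fin Δ → ZMod q) where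
  carrier := {Γ | ∀ u, ∑ j, Γ u j = 0 ∧ ∑ j, Γ u j * ((j : ℕ) : ZMod q) = 0}
  add_mem' := by
    intro a b ha hb u
    obtain ⟨h1, h2⟩ := ha u
    obtain ⟨h3, h4⟩ := hb u
    constructor
    · have : ∑ j, (a + b) u j = ∑ j, a u j + ∑ j, b u j := by
        rw [← Finset.sum_add_distrib]; rfl
      rw [this, h1, h3, add_zero]
    · have : ∑ j, (a + b) u j * ((j : ℕ) : ZMod q) =
          ∑ j, a u j * ((j : ℕ) : ZMod q) + ∑ j, b u j * ((j : ℕ) : ZMod q) := by
        rw [← Finset.sum_add_distrib]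
        refine Finset.sum_congr rfl fun j _ => ?_
        rw [← add_mul]
        rfl
      rw [this, h2, h4, add_zero]
  zero_mem' := by
    intro u
    constructor
    · exact Finset.sum_eq_zero fun _ _ => rfl
    · refine Finset.sum_eq_zero fun j _ => ?_
      show (0 : ZMod q) * _ = 0
      rw [zero_mul]
  smul_mem' := by
    intro c a ha u
    obtain ⟨h1, h2⟩ := ha u
    constructor
    · have : ∑ j, (c • a) u j = c * ∑ j, a u j := by
        rw [Finset.mul_sum]; rfl
      rw [this, h1, mul_zero]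
    · have : ∑ j, (c • a) u j * ((j : ℕ) : ZMod q) = c * ∑ j, a u j * ((j : ℕ) : ZMod q) := by
        rw [Finset.mul_sum]
        refine Finset.sum_congr rfl fun j _ => ?_
        rw [← mul_assoc]
        rfl
      rw [this, h2, mul_zero]

/-- The coefficients at the right vertices. -/
def TT {n Δ : ℕ} (q : ℕ) (π : Fin Δ → Equiv.Perm (Fin n)) :
    (Fin n → Fin Δ → ZMod q) →ₗ[ZMod q] (Fin n → ZMod q) where
  toFun Γ := fun w => ∑ e : Fin n × Fin Δ, if π e.2 e.1 = w then Γ e.1 e.2 else 0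
  map_add' := by
    intro a b
    funext w
    rw [Pi.add_apply, ← Finset.sum_add_distrib]
    refine Finset.sum_congr rfl fun e _ => ?_
    split_ifs
    · rfl
    · rw [add_zero]
  map_smul' := by
    intro c a
    funext w
    rw [Pi.smul_apply, RingHom.id_apply, smul_eq_mul, Finset.mul_sum]
    refine Finset.sum_congr rfl fun e _ => ?_
    split_ifs
    · rfl
    · rw [mul_zero]

/-- The constant term. -/
def BB {n Δ q : ℕ} (b : Fin n × Fin Δ → ZMod q) :
    (Fin n → Fin Δ → ZMod q) →ₗ[ZMod q] ZMod q where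
  toFun Γ := ∑ e : Fin n × Fin Δ, Γ e.1 e.2 * b e
  map_add' := by
    intro a c
    rw [← Finset.sum_add_distrib]
    refine Finset.sum_congr rfl fun e _ => ?_
    rw [← add_mul]
    rfl
  map_smul' := by
    intro c a
    rw [RingHom.id_apply, smul_eq_mul, Finset.mul_sum]
    refine Finset.sum_congr rfl fun e _ => ?_
    rw [← mul_assoc]
    rfl

lemma TT_apply {n Δ q : ℕ} (π : Fin Δ → Equiv.Perm (Fin n)) (Γ : Fin n → Fin Δ → ZMod q)
    (w : Fin n) : TT q π Γ w = ∑ e : Fin n × Fin Δ, if π e.2 e.1 = w then Γ e.1 e.2 else 0 := rfl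

lemma BB_apply {n Δ q : ℕ} (b : Fin n × Fin Δ → ZMod q) (Γ : Fin n → Fin Δ → ZMod q) :
    BB b Γ = ∑ e : Fin n × Fin Δ, Γ e.1 e.2 * b e := rfl

lemma sum_TT {n Δ q : ℕ} (π : Fin Δ → Equiv.Perm (Fin n)) (Γ : Fin n → Fin Δ → ZMod q)
    (y : Fin n → ZMod q) :
    ∑ w, TT q π Γ w * y w = ∑ e : Fin n × Fin Δ, Γ e.1 e.2 * y (π e.2 e.1) := by
  have h1 : ∀ w, TT q π Γ w * y w =
      ∑ e : Fin n × Fin Δ, (if π e.2 e.1 = w then Γ e.1 e.2 * y w else 0) := by
    intro w
    rw [TT_apply, Finset.sum_mul]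
    refine Finset.sum_congr rfl fun e _ => ?_
    split_ifs
    · rfl
    · rw [zero_mul]
  rw [Finset.sum_congr rfl fun w _ => h1 w, Finset.sum_comm]
  refine Finset.sum_congr rfl fun e _ => ?_
  rw [Finset.sum_ite_eq]
  simp

/-- The coefficients of one equation. -/
def vv {Δ : ℕ} (q : ℕ) (j j0 j1 : Fin Δ) (k : Fin Δ) : ZMod q :=
  (if k = j then 1 else 0) - (1 - ((j : ℕ) : ZMod q)) * (if k = j0 then 1 else 0) -
    ((j : ℕ) : ZMod q) * (if k = j1 then 1 else 0)

lemma sum_vv {Δ q : ℕ} (j j0 j1 : Fin Δ) (g : Fin Δ → ZMod q) :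
    ∑ k, vv q j j0 j1 k * g k =
      g j - (1 - ((j : ℕ) : ZMod q)) * g j0 - ((j : ℕ) : ZMod q) * g j1 := by
  have h : ∀ a : Fin Δ, ∑ k, (if k = a then (1 : ZMod q) else 0) * g k = g a := by
    intro a
    have : ∀ k, (if k = a then (1 : ZMod q) else 0) * g k = if k = a then g k else 0 := by
      intro k
      split_ifs
      · rw [one_mul]
      · rw [zero_mul]
    rw [Finset.sum_congr rfl fun k _ => this k, Finset.sum_ite_eq' Finset.univ a]
    simp
  have h2 : ∀ k, vv q j j0 j1 k * g k = (if k = j then (1 : ZMod q) else 0) * g k -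
      (1 - ((j : ℕ) : ZMod q)) * ((if k = j0 then (1 : ZMod q) else 0) * g k) -
      ((j : ℕ) : ZMod q) * ((if k = j1 then (1 : ZMod q) else 0) * g k) := by
    intro k
    unfold vv
    ring
  rw [Finset.sum_congr rfl fun k _ => h2 k, Finset.sum_sub_distrib, Finset.sum_sub_distrib,
    ← Finset.mul_sum, ← Finset.mul_sum, h, h, h]

/-- One equation as a combination. -/
def g0 {n Δ : ℕ} (q : ℕ) (u : Fin n) (j j0 j1 : Fin Δ) : Fin n → Fin Δ → ZMod q :=
  fun u' => if u' = u then vv q j j0 j1 else 0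

lemma sum_g0 {n Δ q : ℕ} (u : Fin n) (j j0 j1 : Fin Δ) (h : Fin n × Fin Δ → ZMod q) :
    ∑ e : Fin n × Fin Δ, g0 q u j j0 j1 e.1 e.2 * h e =
      h (u, j) - (1 - ((j : ℕ) : ZMod q)) * h (u, j0) - ((j : ℕ) : ZMod q) * h (u, j1) := by
  rw [Fintype.sum_prod_type, Finset.sum_eq_single u]
  · rw [← sum_vv j j0 j1 (fun k => h (u, k))]
    refine Finset.sum_congr rfl fun k _ => ?_
    show g0 q u j j0 j1 u k * h (u, k) = _
    unfold g0
    rw [if_pos rfl]
  · intro u' _ hu
    refine Finset.sum_eq_zero fun k _ => ?_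
    show g0 q u j j0 j1 u' k * h (u', k) = 0
    unfold g0
    rw [if_neg hu]
    exact zero_mul _
  · intro hc
    exact absurd (Finset.mem_univ u) hc

lemma g0_mem {n Δ q : ℕ} (u : Fin n) (j j0 j1 : Fin Δ) (hj0 : (j0 : ℕ) = 0)
    (hj1 : (j1 : ℕ) = 1) : g0 q u j j0 j1 ∈ Gs n Δ q := by
  intro u'
  by_cases hu : u' = u
  · have e1 : g0 q u j j0 j1 u' = vv q j j0 j1 := by
      unfold g0
      rw [if_pos hu]
    rw [e1]
    constructor
    · have h := sum_vv (q := q) j j0 j1 (fun _ => 1)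
      simp only [mul_one] at h
      rw [h]
      ring
    · have h := sum_vv (q := q) j j0 j1 (fun k => ((k : ℕ) : ZMod q))
      rw [h, hj0, hj1]
      push_cast
      ring
  · have e1 : g0 q u j j0 j1 u' = 0 := by
      unfold g0
      rw [if_neg hu]
    rw [e1]
    constructor
    · exact Finset.sum_eq_zero fun _ _ => rfl
    · refine Finset.sum_eq_zero fun k _ => ?_
      show (0 : ZMod q) * _ = 0
      rw [zero_mul]

lemma wt_g0 {n Δ q : ℕ} (u : Fin n) (j j0 j1 : Fin Δ) : wt (g0 q u j j0 j1) ≤ 1 := by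
  have := wt_le_card (g0 q u j j0 j1) {u} (fun w hw => by
    rw [Finset.mem_singleton] at hw
    unfold g0
    rw [if_neg hw])
  simpa using this

lemma wt_Tg0 {n Δ q : ℕ} (π : Fin Δ → Equiv.Perm (Fin n)) (u : Fin n) (j j0 j1 : Fin Δ) :
    wt (TT q π (g0 q u j j0 j1)) ≤ 3 := by
  refine (wt_le_card _ {π j u, π j0 u, π j1 u} ?_).trans Finset.card_le_three
  intro w hw
  rw [Finset.mem_insert, Finset.mem_insert, Finset.mem_singleton] at hw
  push Not at hw
  rw [TT_apply]
  refine Finset.sum_eq_zero fun e _ => ?_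
  split_ifs with h
  · unfold g0
    split_ifs with hu
    · rw [hu] at h
      unfold vv
      have h1 : e.2 ≠ j := fun hc => hw.1 (by rw [← h, hc])
      have h2 : e.2 ≠ j0 := fun hc => hw.2.1 (by rw [← h, hc])
      have h3 : e.2 ≠ j1 := fun hc => hw.2.2 (by rw [← h, hc])
      rw [if_neg h1, if_neg h2, if_neg h3]
      ring
    · rfl
  · rfl

end SysPAux

open SysPAux in
theorem sysP {n Δ q S R d : ℕ} [Fact q.Prime] (hΔ : Δ ≤ q) (π : Fin Δ → Equiv.Perm (Fin n))
    (hπ : ∀ H : Finset (Fin n × Fin Δ),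
      (H.image Prod.fst).card + (H.image (fun e => π e.2 e.1)).card ≤ R →
      60 * H.card ≤ 61 * ((H.image Prod.fst).card + (H.image (fun e => π e.2 e.1)).card))
    (hS : (Δ + 1) * S ≤ R) (hd3 : 3 ≤ d) (hd : 4 * d ≤ S) (j0 j1 : Fin Δ) (hj0 : (j0 : ℕ) = 0)
    (hj1 : (j1 : ℕ) = 1) (b : Fin n × Fin Δ → ZMod q) :
    ∃ E : ((Fin n → ZMod q) → ℝ) →ₗ[ℝ] ℝ, IsSosExpectation (d / 2) E ∧
      ∀ u j, E (fun y => by classical exact if LineEq π b j0 j1 u j y then 0 else 1) = 0 := by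
  classical
  have : NeZero q := ⟨(Fact.out : q.Prime).ne_zero⟩
  obtain ⟨E, hE, hEq⟩ := sysE ((TT q π).comp (Gs n Δ q).subtype)
    ((BB b).comp (Gs n Δ q).subtype)
    (fun Γ : Gs n Δ q => wt (Γ : Fin n → Fin Δ → ZMod q)) S d wt_zero
    (fun a c => wt_add _ _)
    (fun c a => wt_mono _ _ (fun w hw => by
      show c • ((a : Fin n → Fin Δ → ZMod q) w) = 0
      rw [hw, smul_zero]))
    (fun a ha => Subtype.ext (eq_zero_of_wt _ ha))
    (fun a ha => expd hΔ π hπ hS (a : Fin n → Fin Δ → ZMod q) (fun u => (a.2 u).1)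
      (fun u => (a.2 u).2) ha)
    hd
  refine ⟨E, hE, fun u j => ?_⟩
  have h := hEq ⟨g0 q u j j0 j1, g0_mem u j j0 j1 hj0 hj1⟩ ((wt_g0 u j j0 j1).trans (by omega))
    ((wt_Tg0 π u j j0 j1).trans hd3)
  refine (congrArg E (funext fun y => ?_)).trans h
  have hiff : LineEq π b j0 j1 u j y ↔
      ∑ w, ((TT q π).comp (Gs n Δ q).subtype)
        ⟨g0 q u j j0 j1, g0_mem u j j0 j1 hj0 hj1⟩ w * y w =
      ((BB b).comp (Gs n Δ q).subtype) ⟨g0 q u j j0 j1, g0_mem u j j0 j1 hj0 hj1⟩ := by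
    have e1 : ∑ w, ((TT q π).comp (Gs n Δ q).subtype)
        ⟨g0 q u j j0 j1, g0_mem u j j0 j1 hj0 hj1⟩ w * y w =
        y (π j u) - (1 - ((j : ℕ) : ZMod q)) * y (π j0 u) -
          ((j : ℕ) : ZMod q) * y (π j1 u) := by
      have := sum_TT π (g0 q u j j0 j1) y
      rw [sum_g0 u j j0 j1 (fun e => y (π e.2 e.1))] at this
      exact this
    have e2 : ((BB b).comp (Gs n Δ q).subtype)
        ⟨g0 q u j j0 j1, g0_mem u j j0 j1 hj0 hj1⟩ =
        b (u, j) - (1 - ((j : ℕ) : ZMod q)) * b (u, j0) - ((j : ℕ) : ZMod q) * b (u, j1) :=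
      (BB_apply b (g0 q u j j0 j1)).trans (sum_g0 u j j0 j1 b)
    rw [e1, e2]
    unfold LineEq
    constructor
    · intro hh
      linear_combination hh
    · intro hh
      linear_combination hh
  by_cases hL : LineEq π b j0 j1 u j y
  · exact (if_pos hL).trans (if_pos (hiff.1 hL)).symm
  · exact (if_neg hL).trans (if_neg (fun hc => hL (hiff.2 hc))).symm

end Pool.Agent.Lib.P47s
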