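import Pool.Agent.Lib.P47c.TDefs
import Pool.Agent.Lib.P47c.BaseC
import Pool.Agent.Lib.P47s.Defs
import Pool.Agent.Lib.P47s.PDefs
import Pool.Agent.Lib.P47s.NumP
import Pool.Agent.Lib.P47s.SelG
import Pool.Agent.Lib.P47s.ShiftB
import Pool.Agent.Lib.P47s.SysP
import Pool.Agent.Lib.P47s.CompP
import Pool.Agent.Lib.P47s.SoundP

/-!
Module BaseP (1.5h; adapt P47c/BaseC.lean; black boxes NumP, SelG, ShiftB, SysP, CompP, SoundP, P47c.BaseCAux.cov_comp, unc_comp).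
Families of sets with a coverage gap and perfect completeness.
PROOF. η = min ε 1; l ≥ 2 with 1/(l-1) ≤ η/3, M with (1-1/l)^M ≤ η/3 (as in baseC), δ = min 1 (η / (3 l^2 (M^2+1))), D = max 6 ⌈7/δ⌉₊, Δ = D^8 ≥ D,
q a prime with q ≥ Δ and q ≥ 9/δ^2 (Nat.exists_infinite_primes). Ω = ZMod q × ZMod q (2 ≤ card, Q = l * (q * q) bounds (nearP t).card: its elements
are determined by i and the line), C = Δ^l * l^q (≥ 1), card (TestP n Δ q l) = n * (Δ^l * l^q). n0 = max of those of selG D, numP Δ l and 1. For n ≥ n0: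
R = √n/3, π from selG, S = R/(Δ+1) ((Δ+1) * S ≤ R: Nat.mul_div_le), d = S/4, b from shiftB for f e = π e.2 e.1, sysP gives E of degree d/2, compP with
r0 = d/2, r = d/2/2 (r * 2 ≤ r0) gives E'. V = Fin n, near = nearP π b ∘ (Fintype.equivFin (TestP n Δ q l)).symm (cov_comp, unc_comp). soundP gives the
last claim. j0 = ⟨0, _⟩, j1 = ⟨1, _⟩ : Fin (D^8).
-/

open scoped BigOperators

namespace Pool.Agent.Lib.P47s

open Pool.Agent.Lib.P47c (cov unc)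

namespace BasePAux

theorem card_nearP {n Δ q l : ℕ} [NeZero q] (π : Fin Δ → Equiv.Perm (Fin n))
    (b : Fin n × Fin Δ → ZMod q) (t : TestP n Δ q l) : (nearP π b t).card ≤ l * (q * q) := by
  classical
  have hsub : nearP π b t ⊆ Finset.univ.image
      (fun s : Fin l × (ZMod q × ZMod q) => (lft π t.1 t.2.1 s.1, s.2)) := by
    intro p hp
    unfold nearP at hp
    rw [Finset.mem_filter] at hp
    obtain ⟨i, hi, -⟩ := hp.2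
    rw [Finset.mem_image]
    exact ⟨(i, p.2), Finset.mem_univ _, Prod.ext hi rfl⟩
  refine (Finset.card_le_card hsub).trans (Finset.card_image_le.trans ?_)
  rw [Finset.card_univ, Fintype.card_prod, Fintype.card_prod, Fintype.card_fin, ZMod.card]

theorem card_testP (n Δ q l : ℕ) [NeZero q] :
    Fintype.card (TestP n Δ q l) = n * (Δ ^ l * l ^ q) := by
  unfold TestP
  rw [Fintype.card_prod, Fintype.card_prod, Fintype.card_fun, Fintype.card_fun,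
    Fintype.card_fin, Fintype.card_fin, Fintype.card_fin, ZMod.card]

/-- the parameters -/
theorem params (ε : ℝ) (hε : 0 < ε) : ∃ (l M : ℕ) (δ : ℝ) (D q : ℕ), 2 ≤ l ∧
    1 / ((l : ℝ) - 1) + (1 - 1 / (l : ℝ)) ^ M + (l : ℝ) ^ 2 * ((M : ℝ) ^ 2 * δ) ≤ ε ∧
    0 < δ ∧ δ ≤ 1 ∧ 6 ≤ D ∧ 7 ≤ δ * ((D ^ 8 : ℕ) : ℝ) ∧ q.Prime ∧ D ^ 8 ≤ q ∧
    9 ≤ (q : ℝ) * δ ^ 2 := by
  obtain ⟨η, hη0, hηε⟩ : ∃ η : ℝ, 0 < η ∧ η ≤ ε := ⟨min ε 1, lt_min hε one_pos, min_le_left _ _⟩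
  obtain ⟨l, hl2, hl⟩ : ∃ l : ℕ, 2 ≤ l ∧ 1 / ((l : ℝ) - 1) ≤ η / 3 := by
    have hpos : (0 : ℝ) < 3 / η := by positivity
    refine ⟨⌈3 / η⌉₊ + 1, ?_, ?_⟩
    · have := Nat.ceil_pos.2 hpos
      omega
    · push_cast
      have h1 : 3 / η ≤ (⌈3 / η⌉₊ : ℝ) := Nat.le_ceil _
      rw [add_sub_cancel_right]
      rw [div_le_iff₀ (lt_of_lt_of_le hpos h1)]
      calc (1 : ℝ) = η / 3 * (3 / η) := by field_simp
        _ ≤ η / 3 * (⌈3 / η⌉₊ : ℝ) := mul_le_mul_of_nonneg_left h1 (by positivity)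
  have hlR : (2 : ℝ) ≤ (l : ℝ) := by exact_mod_cast hl2
  have hl0 : (0 : ℝ) < (l : ℝ) := by linarith
  obtain ⟨M, hM⟩ : ∃ M : ℕ, (1 - 1 / (l : ℝ)) ^ M < η / 3 :=
    exists_pow_lt_of_lt_one (by positivity) (by
      have : 0 < 1 / (l : ℝ) := by positivity
      linarith)
  have hden : (0 : ℝ) < 3 * (l : ℝ) ^ 2 * ((M : ℝ) ^ 2 + 1) := by positivity
  set δ : ℝ := min 1 (η / (3 * (l : ℝ) ^ 2 * ((M : ℝ) ^ 2 + 1))) with hδdef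
  have hδ0 : 0 < δ := lt_min one_pos (div_pos hη0 hden)
  have hδ1 : δ ≤ 1 := min_le_left _ _
  have hδM : (l : ℝ) ^ 2 * ((M : ℝ) ^ 2 * δ) ≤ η / 3 := by
    have h1 : δ ≤ η / (3 * (l : ℝ) ^ 2 * ((M : ℝ) ^ 2 + 1)) := min_le_right _ _
    have h2 : δ * (3 * (l : ℝ) ^ 2 * ((M : ℝ) ^ 2 + 1)) ≤ η := (le_div_iff₀ hden).1 h1
    have h3 : 0 ≤ δ * (l : ℝ) ^ 2 := by positivity
    nlinarith
  set D : ℕ := max 6 ⌈7 / δ⌉₊ with hD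
  have hD6 : 6 ≤ D := le_max_left _ _
  have hDp : D ≤ D ^ 8 := Nat.le_self_pow (by norm_num) D
  have h7 : 7 ≤ δ * ((D ^ 8 : ℕ) : ℝ) := by
    have h1 : 7 / δ ≤ (⌈7 / δ⌉₊ : ℝ) := Nat.le_ceil _
    have h2 : (⌈7 / δ⌉₊ : ℝ) ≤ ((D ^ 8 : ℕ) : ℝ) := by
      exact_mod_cast (le_max_right 6 ⌈7 / δ⌉₊).trans hDp
    have h3 : 7 / δ ≤ ((D ^ 8 : ℕ) : ℝ) := h1.trans h2
    rw [div_le_iff₀ hδ0] at h3
    linarith
  obtain ⟨q, hq1, hqp⟩ := Nat.exists_infinite_primes (max (D ^ 8) ⌈9 / δ ^ 2⌉₊)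
  refine ⟨l, M, δ, D, q, hl2, by linarith, hδ0, hδ1, hD6, h7, hqp, (le_max_left _ _).trans hq1, ?_⟩
  have hδ2 : 0 < δ ^ 2 := by positivity
  have h1 : 9 / δ ^ 2 ≤ (⌈9 / δ ^ 2⌉₊ : ℝ) := Nat.le_ceil _
  have h2 : (⌈9 / δ ^ 2⌉₊ : ℝ) ≤ (q : ℝ) := by
    exact_mod_cast (le_max_right (D ^ 8) ⌈9 / δ ^ 2⌉₊).trans hq1
  exact (div_le_iff₀ hδ2).1 (h1.trans h2)

end BasePAux

theorem baseP (ε : ℝ) (hε : 0 < ε) : ∃ (Ω : Type) (_ : Fintype Ω) (_ : DecidableEq Ω)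
    (_ : Nonempty Ω) (Q C n0 : ℕ), 2 ≤ Fintype.card Ω ∧ 1 ≤ C ∧
    ∀ n ≥ n0, ∃ (V : Type) (_ : Fintype V) (M : ℕ) (near : Fin M → Finset (V × Ω)) (r : ℕ)
      (E : ((V → Ω) → ℝ) →ₗ[ℝ] ℝ),
      Nonempty V ∧ 0 < M ∧ M ≤ C * n ∧ Fintype.card V ≤ C * n ∧ (∀ j, (near j).card ≤ Q) ∧
      (2 * (n : ℝ)) ^ (1 / 4 : ℝ) ≤ r ∧ IsSosExpectation r E ∧ 1 ≤ E (cov near) ∧
      ∀ A : Finset (V × Ω), Real.exp (-((A.card : ℝ) / Fintype.card V)) - ε ≤ unc near A := by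
  classical
  obtain ⟨l, M, δ, D, q, hl2, herr, hδ0, hδ1, hD6, h7, hqp, hDq, h9⟩ := BasePAux.params ε hε
  have hf : Fact q.Prime := ⟨hqp⟩
  have hqz : NeZero q := ⟨hqp.ne_zero⟩
  have hD8 : D ≤ D ^ 8 := Nat.le_self_pow (by norm_num) D
  have hq2 : 2 ≤ q := hqp.two_le
  have hC1 : 1 ≤ (D ^ 8) ^ l * l ^ q := by
    have h1 : 0 < (D ^ 8) ^ l := pow_pos (by omega) _
    have h2 : 0 < l ^ q := pow_pos (by omega) _
    exact Nat.succ_le_of_lt (Nat.mul_pos h1 h2)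
  obtain ⟨n1, hn1⟩ := selG D hD6
  obtain ⟨n2, hn2⟩ := numP (D ^ 8) l
  refine ⟨ZMod q × ZMod q, inferInstance, inferInstance, inferInstance, l * (q * q),
    (D ^ 8) ^ l * l ^ q, max (max n1 n2) 1, ?_, hC1, fun n hn => ?_⟩
  · rw [Fintype.card_prod, ZMod.card]
    nlinarith
  have hn0 : 1 ≤ n := le_of_max_le_right hn
  obtain ⟨g1, g2, g3, g4⟩ := hn2 n (le_of_max_le_right (le_of_max_le_left hn))
  obtain ⟨π, hπ⟩ := hn1 n (le_of_max_le_left (le_of_max_le_left hn)) (Nat.sqrt n / 3) g1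
  obtain ⟨b, hb⟩ := shiftB n (D ^ 8) q δ hn0 hδ0 hδ1 h9 h7 (fun e => π e.2 e.1)
  obtain ⟨E, hE, hv⟩ := sysP (S := Nat.sqrt n / 3 / (D ^ 8 + 1)) (R := Nat.sqrt n / 3)
    (d := Nat.sqrt n / 3 / (D ^ 8 + 1) / 4) hDq π hπ (Nat.mul_div_le _ _) g2 (Nat.mul_div_le _ _)
    ⟨0, by omega⟩ ⟨1, by omega⟩ rfl rfl b
  obtain ⟨E', hE', hcov⟩ := compP (l := l) (r := Nat.sqrt n / 3 / (D ^ 8 + 1) / 4 / 2 / 2) hn0
    (by omega) (Nat.div_mul_le_self _ _) g3 π b ⟨0, by omega⟩ ⟨1, by omega⟩ E hE hv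
  have hcT := BasePAux.card_testP n (D ^ 8) q l
  refine ⟨Fin n, inferInstance, Fintype.card (TestP n (D ^ 8) q l),
    fun j => nearP π b ((Fintype.equivFin (TestP n (D ^ 8) q l)).symm j),
    Nat.sqrt n / 3 / (D ^ 8 + 1) / 4 / 2 / 2, E', ⟨⟨0, hn0⟩⟩, ?_, ?_, ?_,
    fun j => BasePAux.card_nearP _ _ _, g4, hE', ?_, fun A => ?_⟩
  · rw [hcT]
    exact Nat.mul_pos hn0 hC1
  · rw [hcT, mul_comm]
  · rw [Fintype.card_fin]
    exact Nat.le_mul_of_pos_left _ hC1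
  · rw [Pool.Agent.Lib.P47c.BaseCAux.cov_comp
      (Fintype.equivFin (TestP n (D ^ 8) q l)).symm (nearP π b)]
    exact hcov
  · rw [Pool.Agent.Lib.P47c.BaseCAux.unc_comp
      (Fintype.equivFin (TestP n (D ^ 8) q l)).symm (nearP π b)]
    have h1 := soundP M hn0 (by omega : 1 ≤ D ^ 8) hl2 π b δ hδ0.le hb A
    rw [Fintype.card_fin]
    linarith

end Pool.Agent.Lib.P47s
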