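import Pool.Agent.Lib.P47s.Model

/-!
Approximation of facility location by programs with different factors for the opening costs and the
service costs.
-/

open scoped BigOperators

namespace Pool.Agent.Lib.P47s

open Pool.Agent.Lib.P47c (Inst)

/-- The weighted cost of the set `S` of open facilities: `a` times the opening costs plus `b` times
the sum of the distances of the clients of the instance to the nearest open facilities. -/
noncomputable def wcost {m M : ℕ} (I : Inst m M) (a b : ℝ) (S : Finset (Fin m)) : ℝ :=
  a * ∑ i ∈ S, I.opening i +
    b * ∑ j ∈ I.clients, ⨅ i : S, I.space.dist (Sum.inl i.1) (Sum.inr j)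

/-- The program with the set `Feas` of feasible points, in which the set `S` of open facilities
with the assignment `σ` is the point `pt S σ`, approximates the minimum cost of the instance within
the factors `a` and `b`: some affine function `w y + w0`, which is equal to `wcost I a b S` at
`pt S σ` whenever `S` is nonempty and `σ` sends every client of the instance to a nearest facility
in `S`, is at least the minimum cost on `Feas`. (For `a = b` this is the approximation of the
minimum cost within the factor `a`.) -/
def Bifactor {m M : ℕ} (I : Inst m M) {Y : Type} [AddCommGroup Y] [Module ℝ Y] (Feas : Set Y)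
    (pt : Finset (Fin m) → (Fin M → Fin m) → Y) (a b : ℝ) : Prop :=
  ∃ (w : Y →ₗ[ℝ] ℝ) (w0 : ℝ),
    (∀ S σ, S.Nonempty → I.Nearest S σ → w (pt S σ) + w0 = wcost I a b S) ∧
    ∀ y ∈ Feas, I.opt (fun S => S.Nonempty) ≤ w y + w0

end Pool.Agent.Lib.P47s
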