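import Pool.Agent.Lib.P325pg.Hull
import Pool.Agent.Lib.P47s.Defs
import Pool.Agent.Lib.P47s.SosA

/-!
Exact duality for nonnegative functions together with the positivity of all squares of functions of
a subspace.
-/

open scoped BigOperators NNReal

namespace Pool.Agent.Lib.P47s

namespace DualJAux

open Pool.Agent.Lib.P325pg (hull_compact)

variable {Z : Type} [Fintype Z] (L : Submodule ℝ (Z → ℝ))

/-- The cone of the nonnegative combinations. -/
def cone {R : ℕ} (g : Fin R → Z → ℝ) : Set (Z → ℝ) :=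
  {k | ∃ (l : Fin R → ℝ) (l0 : ℝ) (Q : Z → ℝ), (∀ j, 0 ≤ l j) ∧ 0 ≤ l0 ∧ Q ∈ sosC L ∧
    ∀ x, k x = l0 + ∑ j, l j * g j x + Q x}

theorem cone_comb {R : ℕ} (g : Fin R → Z → ℝ) {k1 k2 : Z → ℝ} (h1 : k1 ∈ cone L g)
    (h2 : k2 ∈ cone L g) {a b : ℝ} (ha : 0 ≤ a) (hb : 0 ≤ b) : a • k1 + b • k2 ∈ cone L g := by
  obtain ⟨l, l0, Q, h3, h4, h5, h6⟩ := h1
  obtain ⟨l', l0', Q', h3', h4', h5', h6'⟩ := h2
  refine ⟨fun j => a * l j + b * l' j, a * l0 + b * l0', fun x => a * Q x + b * Q' x,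
    fun j => add_nonneg (mul_nonneg ha (h3 j)) (mul_nonneg hb (h3' j)),
    add_nonneg (mul_nonneg ha h4) (mul_nonneg hb h4'),
    sosC_add (sosC_smul h5 ha) (sosC_smul h5' hb), fun x => ?_⟩
  show a * k1 x + b * k2 x = _
  rw [h6, h6']
  have e1 : ∑ j, (a * l j + b * l' j) * g j x =
      a * ∑ j, l j * g j x + b * ∑ j, l' j * g j x := by
    rw [Finset.mul_sum, Finset.mul_sum, ← Finset.sum_add_distrib]
    exact Finset.sum_congr rfl fun j _ => by ring
  rw [e1]
  ring

theorem sphere_compact : IsCompact {q : Z → ℝ | q ∈ L ∧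
    ∑ x, q x ^ 2 = 1} := by
  apply Metric.isCompact_of_isClosed_isBounded
  · apply IsClosed.inter
    · exact Submodule.closed_of_finiteDimensional (L)
    · exact isClosed_eq (continuous_finsetSum _ fun x _ => (continuous_apply x).pow 2)
        continuous_const
  · refine (Metric.isBounded_closedBall (x := (0 : Z → ℝ)) (r := 1)).subset ?_
    rintro q ⟨_, hq⟩
    rw [mem_closedBall_zero_iff, pi_norm_le_iff_of_nonneg zero_le_one]
    intro x
    rw [Real.norm_eq_abs, ← sq_le_one_iff_abs_le_one]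
    have h1 := Finset.single_le_sum (f := fun x => q x ^ 2) (fun x _ => sq_nonneg (q x))
      (Finset.mem_univ x)
    rw [hq] at h1
    exact h1

theorem dual [Nonempty Z] {R : ℕ} (g : Fin R → Z → ℝ) (hg : ∀ j x, 0 ≤ g j x)
    (f : Z → ℝ) (s : ℝ)
    (h : ∀ γ : Z → ℝ, ∑ x, γ x = 1 → (∀ j, 0 ≤ ∑ x, γ x * g j x) →
      (∀ q ∈ L, 0 ≤ ∑ x, γ x * q x ^ 2) →
      ∑ x, γ x * f x ≤ s) :
    ∃ (l : Fin R → ℝ) (l0 : ℝ) (Q : Z → ℝ), (∀ j, 0 ≤ l j) ∧ 0 ≤ l0 ∧ Q ∈ sosC L ∧
      ∀ x, s - f x = l0 + ∑ j, l j * g j x + Q x := by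
  classical
  have hX : (0 : ℝ) < Fintype.card Z := by exact_mod_cast Fintype.card_pos
  set G : Fin R → ℝ := fun j => ∑ x, g j x with hG
  have hG0 : ∀ j, 0 ≤ G j := fun j => Finset.sum_nonneg fun x _ => hg j x
  set T1 : Set (Z → ℝ) := (fun (j : Fin R) (x : Z) => (G j)⁻¹ * g j x) '' {j | 0 < G j}
    with hT1
  set T0 : Set (Z → ℝ) := {fun _ => (Fintype.card Z : ℝ)⁻¹} with hT0
  set T2 : Set (Z → ℝ) := (fun (q : Z → ℝ) x => q x ^ 2) ''
    {q : Z → ℝ | q ∈ L ∧ ∑ x, q x ^ 2 = 1} with hT2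
  set T3 : Set (Z → ℝ) := {fun x => f x - s} with hT3
  have hcomp : IsCompact (((T1 ∪ T0) ∪ T2) ∪ T3) := by
    apply IsCompact.union
    · apply IsCompact.union
      · exact ((Set.toFinite _).image _ |>.isCompact).union isCompact_singleton
      · exact (sphere_compact L).image (continuous_pi fun x => (continuous_apply x).pow 2)
    · exact isCompact_singleton
  have hC := hull_compact hcomp
  by_cases h0 : (0 : Z → ℝ) ∈ convexHull ℝ (((T1 ∪ T0) ∪ T2) ∪ T3)
  · -- the decomposition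
    set S : Set (Z → ℝ) := {c | ∃ (t : ℝ) (k : Z → ℝ), 0 ≤ t ∧ k ∈ cone L g ∧
      ∑ x, k x = 1 - t ∧ ∀ x, c x = k x + t * (f x - s)} with hS
    have hSc : Convex ℝ S := by
      rintro c1 ⟨t1, k1, a1, a2, a3, a4⟩ c2 ⟨t2, k2, b1, b2, b3, b4⟩ a b ha hb hab
      refine ⟨a * t1 + b * t2, a • k1 + b • k2, by positivity, cone_comb L g a2 b2 ha hb, ?_, ?_⟩
      · show ∑ x, (a * k1 x + b * k2 x) = _
        rw [Finset.sum_add_distrib, ← Finset.mul_sum, ← Finset.mul_sum, a3, b3]
        linear_combination hab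
      · intro x
        show a * c1 x + b * c2 x = (a * k1 x + b * k2 x) + _
        rw [a4, b4]
        ring
    have hsub : ((T1 ∪ T0) ∪ T2) ∪ T3 ⊆ S := by
      rintro c (((⟨j, hj, rfl⟩ | hc) | ⟨q, ⟨hq', hq2⟩, rfl⟩) | hc)
      · refine ⟨0, fun x => (G j)⁻¹ * g j x, le_rfl, ⟨Pi.single j (G j)⁻¹, 0, 0, ?_, le_rfl,
          (sosC L).zero_mem, ?_⟩, ?_, ?_⟩
        · intro i
          by_cases hij : i = j
          · subst hij
            rw [Pi.single_eq_same]
            exact inv_nonneg.2 (hG0 i)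
          · rw [Pi.single_eq_of_ne hij]
        · intro x
          rw [Finset.sum_eq_single j]
          · rw [Pi.single_eq_same]
            simp
          · intro i _ hij
            rw [Pi.single_eq_of_ne hij, zero_mul]
          · simp
        · rw [← Finset.mul_sum]
          show (G j)⁻¹ * G j = 1 - 0
          rw [inv_mul_cancel₀ (ne_of_gt hj), sub_zero]
        · intro x
          simp
      · rw [hT0, Set.mem_singleton_iff] at hc
        subst hc
        refine ⟨0, fun _ => (Fintype.card Z : ℝ)⁻¹, le_rfl, ⟨0,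
          (Fintype.card Z : ℝ)⁻¹, 0, fun _ => le_rfl, by positivity,
          (sosC L).zero_mem, fun x => by simp⟩, ?_, fun x => by simp⟩
        rw [Finset.sum_const, Finset.card_univ, nsmul_eq_mul, mul_inv_cancel₀ hX.ne', sub_zero]
      · refine ⟨0, fun x => q x ^ 2, le_rfl, ⟨0, 0, fun x => q x ^ 2, fun _ => le_rfl, le_rfl, ?_,
          fun x => by simp⟩, by rw [hq2, sub_zero], fun x => by simp⟩
        exact sosC_sq hq'
      · rw [hT3, Set.mem_singleton_iff] at hc
        subst hc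
        refine ⟨1, 0, zero_le_one, ⟨0, 0, 0, fun _ => le_rfl, le_rfl, (sosC L).zero_mem,
          fun x => by simp⟩, by simp, fun x => by simp⟩
    obtain ⟨t, k, ht, hk, hk1, hk2⟩ := convexHull_min hsub hSc h0
    have ht0 : 0 < t := by
      rcases ht.eq_or_lt with h1 | h1
      · exfalso
        rw [← h1] at hk1 hk2
        have h2 : ∀ x, k x = 0 := by
          intro x
          have h3 := hk2 x
          rw [zero_mul, add_zero] at h3
          exact h3.symm
        rw [Finset.sum_eq_zero (fun x _ => h2 x)] at hk1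
        norm_num at hk1
      · exact h1
    have hk' : t⁻¹ • k + (0 : ℝ) • k ∈ cone L g :=
      cone_comb L g hk hk (inv_nonneg.2 ht0.le) le_rfl
    obtain ⟨l, l0, Q, h3, h4, h5, h6⟩ := hk'
    refine ⟨l, l0, Q, h3, h4, h5, fun x => ?_⟩
    rw [← h6 x]
    show s - f x = t⁻¹ * k x + 0 * k x
    have h7 := hk2 x
    have h8 : k x = t * (s - f x) := by
      have h9 : (0 : Z → ℝ) x = 0 := rfl
      rw [h9] at h7
      linarith
    rw [h8]
    field_simp
    ring
  · -- the separation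
    exfalso
    obtain ⟨F, u, hu, hF⟩ := geometric_hahn_banach_point_closed
      (convex_convexHull ℝ _) hC.isClosed h0
    rw [map_zero] at hu
    have hpos : ∀ c ∈ ((T1 ∪ T0) ∪ T2) ∪ T3, 0 < F c := fun c hc =>
      hu.trans (hF c (subset_convexHull ℝ _ hc))
    have hFs : ∀ φ : Z → ℝ, F φ = ∑ x, φ x * F (Pi.single x 1) := by
      intro φ
      have h1 : φ = ∑ x, φ x • (Pi.single x (1 : ℝ) : Z → ℝ) := by
        funext y
        rw [Finset.sum_apply]
        simp [Pi.single_apply]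
      conv_lhs => rw [h1]
      rw [map_sum]
      exact Finset.sum_congr rfl fun x _ => by rw [map_smul, smul_eq_mul]
    set l1 : ℝ := F (fun _ => 1) with hl1
    have hl10 : 0 < l1 := by
      have h1 := hpos (fun _ => (Fintype.card Z : ℝ)⁻¹)
        (Or.inl (Or.inl (Or.inr rfl)))
      have h2 : (fun _ : Z => (Fintype.card Z : ℝ)⁻¹) =
          (Fintype.card Z : ℝ)⁻¹ • fun _ => (1 : ℝ) := by
        funext x
        simp
      rw [h2, map_smul, smul_eq_mul] at h1
      exact pos_of_mul_pos_right h1 (by positivity)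
    set γ : Z → ℝ := fun x => l1⁻¹ * F (Pi.single x 1) with hγ
    have hγs : ∀ φ : Z → ℝ, ∑ x, γ x * φ x = l1⁻¹ * F φ := by
      intro φ
      rw [hFs φ, Finset.mul_sum]
      refine Finset.sum_congr rfl fun x _ => ?_
      rw [hγ]
      ring
    have hfin := h γ ?_ ?_ ?_
    · have h1 := hpos (fun x => f x - s) (Or.inr rfl)
      have h2 : (fun x => f x - s) = f - s • fun _ => (1 : ℝ) := by
        funext x
        simp
      rw [h2, map_sub, map_smul, smul_eq_mul, ← hl1] at h1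
      rw [hγs f, inv_mul_le_iff₀ hl10] at hfin
      linarith
    · have h1 := hγs (fun _ => 1)
      simp only [mul_one] at h1
      rw [h1, ← hl1, inv_mul_cancel₀ hl10.ne']
    · intro j
      rw [hγs (g j)]
      apply mul_nonneg (inv_nonneg.2 hl10.le)
      rcases (hG0 j).eq_or_lt with h1 | h1
      · have h2 : g j = 0 := by
          funext x
          exact (Finset.sum_eq_zero_iff_of_nonneg (fun x _ => hg j x)).1 h1.symm x
            (Finset.mem_univ x)
        rw [h2, map_zero]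
      · have h2 := hpos (fun x => (G j)⁻¹ * g j x) (Or.inl (Or.inl (Or.inl ⟨j, h1, rfl⟩)))
        have h3 : (fun x => (G j)⁻¹ * g j x) = (G j)⁻¹ • g j := rfl
        rw [h3, map_smul, smul_eq_mul] at h2
        exact (pos_of_mul_pos_right h2 (by positivity)).le
    · intro q hqL
      rw [hγs (fun x => q x ^ 2)]
      apply mul_nonneg (inv_nonneg.2 hl10.le)
      set n2 : ℝ := ∑ x, q x ^ 2 with hn2
      have hn20 : 0 ≤ n2 := Finset.sum_nonneg fun x _ => sq_nonneg _
      rcases hn20.eq_or_lt with h1 | h1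
      · have h2 : (fun x => q x ^ 2) = 0 := by
          funext x
          exact (Finset.sum_eq_zero_iff_of_nonneg (fun x _ => sq_nonneg (q x))).1 h1.symm x
            (Finset.mem_univ x)
        rw [h2, map_zero]
      · have hsq : Real.sqrt n2 * Real.sqrt n2 = n2 := Real.mul_self_sqrt h1.le
        have hsp : 0 < Real.sqrt n2 := Real.sqrt_pos.2 h1
        have hmem : (fun x => ((Real.sqrt n2)⁻¹ • q) x ^ 2) ∈ T2 := by
          refine ⟨(Real.sqrt n2)⁻¹ • q, ⟨Submodule.smul_mem _ _ hqL, ?_⟩, rfl⟩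
          have h3 : ∀ x, ((Real.sqrt n2)⁻¹ • q) x ^ 2 = n2⁻¹ * q x ^ 2 := by
            intro x
            show ((Real.sqrt n2)⁻¹ * q x) ^ 2 = _
            rw [mul_pow, inv_pow, sq (Real.sqrt n2), hsq]
          rw [Finset.sum_congr rfl (fun x _ => h3 x), ← Finset.mul_sum, ← hn2,
            inv_mul_cancel₀ h1.ne']
        have h2 := hpos _ (Or.inl (Or.inr hmem))
        have h3 : (fun x => ((Real.sqrt n2)⁻¹ • q) x ^ 2) = n2⁻¹ • fun x => q x ^ 2 := by
          funext x
          show ((Real.sqrt n2)⁻¹ * q x) ^ 2 = n2⁻¹ * q x ^ 2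
          rw [mul_pow, inv_pow, sq (Real.sqrt n2), hsq]
        rw [h3, map_smul, smul_eq_mul] at h2
        exact (pos_of_mul_pos_right h2 (by positivity)).le

end DualJAux

theorem dualJ {Z : Type} [Fintype Z] [Nonempty Z] (L : Submodule ℝ (Z → ℝ)) {R : ℕ}
    (g : Fin R → Z → ℝ) (hg : ∀ j x, 0 ≤ g j x) (f : Z → ℝ) (s : ℝ) (h : CertW L g s f) :
    ∃ (l : Fin R → ℝ) (l0 : ℝ) (Q : Z → ℝ), (∀ j, 0 ≤ l j) ∧ 0 ≤ l0 ∧ Q ∈ sosC L ∧
      ∀ x, s - f x = l0 + ∑ j, l j * g j x + Q x :=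
  DualJAux.dual L g hg f s h

end Pool.Agent.Lib.P47s
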