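import Pool.Agent.Lib.P325P.Es
import Pool.Agent.Lib.P47s.Defs
import Pool.Agent.Lib.P47s.SosA

/-!
Lifts and components of sums of squares.
-/

open scoped BigOperators NNReal

namespace Pool.Agent.Lib.P47s

open Pool.Agent.Lib.P325P (mean es lift es_sum es_zero_of_dep)

theorem sosC_mean {Z X : Type} [Fintype X] {L : Submodule ℝ (Z → ℝ)} (Q : X → Z → ℝ)
    (hQ : ∀ x, Q x ∈ sosC L) : (fun y => mean (fun x => Q x y)) ∈ sosC L := by
  have h1 : (fun y => mean (fun x => Q x y)) =
      fun y => (Fintype.card X : ℝ)⁻¹ * ∑ x, Q x y := by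
    funext y
    unfold mean
    rw [div_eq_inv_mul]
  rw [h1]
  exact sosC_smul (sosC_sum _ _ fun x _ => hQ x) (inv_nonneg.2 (Nat.cast_nonneg _))

theorem sosC_lift {V K Ω : Type} [Fintype V] [DecidableEq V] [Fintype K] [DecidableEq K]
    [Fintype Ω] (z : V → K) {t : ℕ} {Q : (V × K → Ω) → ℝ} (hQ : Q ∈ sosC (Jun (V × K) Ω t)) :
    lift z Q ∈ sosC (Jun V Ω t) := by
  have h0 : ∀ x : V × K → Ω, (fun y : V → Ω =>
      Q (fun p => if p.2 = z p.1 then y p.1 else x p)) ∈ sosC (Jun V Ω t) := by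
    intro x
    refine sosC_comp (fun (y : V → Ω) p => if p.2 = z p.1 then y p.1 else x p) ?_ hQ
    intro g hg
    have h1 := jun_comp (fun (y : V → Ω) (p : V × K) => if p.2 = z p.1 then y p.1 else x p) 1
      (fun p => ⟨{p.1}, (Finset.card_singleton _).le, fun a b hab => by
        show (if p.2 = z p.1 then a p.1 else x p) = (if p.2 = z p.1 then b p.1 else x p)
        rw [hab p.1 (Finset.mem_singleton_self _)]⟩) hg
    rwa [mul_one] at h1
  exact sosC_mean (fun (x : V × K → Ω) (y : V → Ω) =>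
    Q (fun p => if p.2 = z p.1 then y p.1 else x p)) h0

namespace SosBAux

section Lin

variable {V Ω : Type} [Fintype V] [DecidableEq V] [Fintype Ω] [Nonempty Ω]

theorem es_add (T : Finset V) (f g : (V → Ω) → ℝ) (y : V → Ω) :
    es T (f + g) y = es T f y + es T g y := by
  have h1 : (f + g) = fun x => ∑ j ∈ (Finset.univ : Finset Bool),
      (1 : ℝ) * (bif j then f else g) x := by
    funext x
    simp
  rw [h1, es_sum]
  simp

theorem es_smul (T : Finset V) (a : ℝ) (f : (V → Ω) → ℝ) (y : V → Ω) :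
    es T (a • f) y = a * es T f y := by
  have h1 : (a • f) = fun x => ∑ j ∈ ({()} : Finset Unit), (fun _ => a) j * (fun _ => f) j x := by
    funext x
    simp
  rw [h1, es_sum]
  simp

theorem es_zero (T : Finset V) (y : V → Ω) : es T (0 : (V → Ω) → ℝ) y = 0 := by
  have h1 := es_smul T 0 (0 : (V → Ω) → ℝ) y
  rw [zero_smul, zero_mul] at h1
  exact h1

end Lin

end SosBAux

open SosBAux

theorem es_jun {V Ω : Type} [Fintype V] [DecidableEq V] [Fintype Ω] [Nonempty Ω] {t : ℕ}
    {f : (V → Ω) → ℝ} (hf : f ∈ Jun V Ω t) (T : Finset V) (hT : t < T.card) (y : V → Ω) :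
    es T f y = 0 := by
  refine Submodule.span_induction (p := fun f _ => es T f y = 0) ?_ ?_ ?_ ?_ hf
  · rintro g ⟨D, hD, hg⟩
    exact es_zero_of_dep hg (fun hsub => by
      have h1 := Finset.card_le_card hsub
      omega) y
  · exact es_zero T y
  · intro f g _ _ h1 h2
    rw [es_add, h1, h2, add_zero]
  · intro a f _ h1
    rw [es_smul, h1, mul_zero]

theorem sosC_es {V Ω : Type} [Fintype V] [DecidableEq V] [Fintype Ω] [Nonempty Ω] {t : ℕ}
    {f : (V → Ω) → ℝ} (hf : f ∈ sosC (Jun V Ω t)) (T : Finset V) (hT : 2 * t < T.card)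
    (y : V → Ω) : es T f y = 0 := by
  refine Submodule.span_induction (p := fun f _ => es T f y = 0) ?_ ?_ ?_ ?_ hf
  · rintro _ ⟨g, hg, rfl⟩
    have h1 : (fun z => g z ^ 2) ∈ Jun V Ω (t + t) := by
      have h2 := jun_mul hg hg
      have h3 : (fun z => g z ^ 2) = fun z => g z * g z := by
        funext z
        exact sq (g z)
      rw [h3]
      exact h2
    exact es_jun h1 T (by omega) y
  · exact es_zero T y
  · intro f g _ _ h1 h2
    rw [es_add, h1, h2, add_zero]
  · intro a f _ h1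
    have h2 : a • f = (a : ℝ) • f := rfl
    rw [h2, es_smul, h1, mul_zero]

end Pool.Agent.Lib.P47s
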