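import Pool.Agent.Lib.P325av.RankAv
import Pool.Agent.Lib.P325pg.RankS
import Pool.Agent.Lib.P47s.Defs
import Pool.Agent.Lib.P47s.SosA
import Pool.Agent.Lib.P47s.SosB

/-!
Module RankJ (1.5h; adapt P325av/RankAv.lean and P325pg/RankS.lean; black boxes SosA, SosB). Lower bound for a lifted function which is,
for the good choices of copies, a short sum of products of nonnegative functions plus a sum of squares of functions of few labels.
PROOF. Follow P325pg.rankS with the single term estimate used in P325av.rankAv (same hypotheses hγ, same bound exp (-2r)) instead of termS.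
P = (y ↦ mean over z of [G z] * lift z (Q z) y) is in sosC (Jun V Ω t) (sosC_mean, sosC_smul, sosC_lift), so es T P y = 0 for r < card T
(sosC_es, 2 t ≤ r) and 0 ≤ E P (sosC_pos, hE.sq and jun_mono since t ≤ r). E is a local expectation of degree r by local_of_sos.
-/

open scoped BigOperators NNReal

namespace Pool.Agent.Lib.P47s

open Pool.Agent.Lib.P325h (IsLocalExpectation)
open Pool.Agent.Lib.P325P Pool.Agent.Lib.P325P.RankAux
open Pool.Agent.Lib.P325pg (sqAvg avg_sum_goodS)

variable {V K Ω : Type} [Fintype V] [DecidableEq V] [Fintype K] [DecidableEq K] [Fintype Ω]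
  [Nonempty Ω] [Nonempty K]

theorem RankJAux.sqAvg_mem {t : ℕ} (G : (V → K) → Prop) [DecidablePred G]
    (Q : (V → K) → (V × K → Ω) → ℝ) (hQ : ∀ z, Q z ∈ sosC (Jun (V × K) Ω t)) :
    sqAvg G Q ∈ sosC (Jun V Ω t) := by
  refine sosC_mean (fun z y => (if G z then (1 : ℝ) else 0) * lift z (Q z) y) fun z => ?_
  refine sosC_smul (sosC_lift z (hQ z)) ?_
  split <;> norm_num

theorem rankJ {r t : ℕ} (ht : 2 * t ≤ r) {E : ((V → Ω) → ℝ) →ₗ[ℝ] ℝ} (hE : IsSosExpectation r E)
    (F : (V → Ω) → ℝ) (hF1 : ∀ y, F y ≤ 1)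
    (hFr : ∀ T : Finset V, r < T.card → ∀ y, es T F y = 0)
    {I : Type} [Fintype I] (u : I → (V → K) → ℝ) (v : I → (V × K → Ω) → ℝ)
    (hu : ∀ j z, 0 ≤ u j z) (hv : ∀ j x, 0 ≤ v j x)
    (G : (V → K) → Prop) [DecidablePred G]
    (h0 : ∀ j z, ¬ G z → u j z = 0) (Q : (V → K) → (V × K → Ω) → ℝ)
    (hQ : ∀ z, Q z ∈ sosC (Jun (V × K) Ω t))
    (hdec : ∀ z : V → K, G z → ∀ x : V × K → Ω,
      F (fun i => x (i, z i)) = ∑ j, u j z * v j x + Q z x)
    (τ L : ℝ) (hτ : 0 < τ)
    (hT : ∀ j : ℕ, r < 2 * j → 1 < τ * Real.sqrt (Fintype.card K) ^ j)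
    (hL : (r : ℝ) * Real.log (Fintype.card Ω) + Real.log (1 / τ) ≤ L)
    (hγ : 4 * (Fintype.card Ω : ℝ) * ((Fintype.card V : ℝ) *
      (Real.exp 1 * (Fintype.card Ω : ℝ) * Real.sqrt (L + 1) /
        Real.sqrt (Real.sqrt (Fintype.card K)))) ≤ Real.exp (-4)) :
    -((Fintype.card I : ℝ) * (2 * ((2 * (Fintype.card Ω : ℝ) *
      ((Fintype.card V : ℝ) + 1)) ^ r * τ) + Real.exp (-(2 * (r : ℝ))))) ≤
      mean (fun z : V → K => if G z then (1 : ℝ) else 0) * E F := by
  classical
  have hB : 0 ≤ 2 * ((2 * (Fintype.card Ω : ℝ) * ((Fintype.card V : ℝ) + 1)) ^ r * τ) +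
      Real.exp (-(2 * (r : ℝ))) := by positivity
  set B : ℝ := 2 * ((2 * (Fintype.card Ω : ℝ) * ((Fintype.card V : ℝ) + 1)) ^ r * τ) +
      Real.exp (-(2 * (r : ℝ))) with hBdef
  have hprod : ∀ j z x, u j z * v j x ≤ 1 := by
    intro j z x
    by_cases hz : G z
    · refine le_trans ?_ (hF1 (fun i => x (i, z i)))
      rw [hdec z hz x]
      have h1 := Finset.single_le_sum (f := fun j => u j z * v j x)
        (fun i _ => mul_nonneg (hu i z) (hv i x)) (Finset.mem_univ j)
      have h2 := sosC_nonneg (hQ z) x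
      linarith
    · rw [h0 j z hz, zero_mul]
      exact zero_le_one
  have hEl : IsLocalExpectation r E := local_of_sos hE
  have hj : ∀ j, -B ≤ Lam r E (avg (u j) (v j)) := by
    intro j
    obtain ⟨x0, hx0⟩ := Finite.exists_max (v j)
    by_cases hc : v j x0 = 0
    · have hv0 : ∀ x, v j x = 0 := fun x => le_antisymm (hc ▸ hx0 x) (hv j x)
      have h0 : avg (u j) (v j) = fun y => ∑ i ∈ (∅ : Finset I), (1 : ℝ) * (avg (u i) (v i)) y := by
        funext y
        rw [Finset.sum_empty]
        unfold avg lift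
        have : ∀ z : V → K, u j z * mean (fun x : V × K → Ω =>
            v j (fun p => if p.2 = z p.1 then y p.1 else x p)) = 0 := by
          intro z
          rw [mean_congr (g := fun _ => (0 : ℝ)) (fun x => hv0 _), mean_const, mul_zero]
        rw [mean_congr (g := fun _ => (0 : ℝ)) this, mean_const]
      rw [h0, lam_sum, Finset.sum_empty]
      linarith
    · have hcpos : 0 < v j x0 := lt_of_le_of_ne (hv j x0) (Ne.symm hc)
      rw [← avg_scale (u j) (v j) hc]
      refine term hEl _ (fun z => mul_nonneg hcpos.le (hu j z)) (fun z => ?_) _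
        (fun x => mul_nonneg (inv_nonneg.2 hcpos.le) (hv j x)) (fun x => ?_) τ L hτ hT hL hγ
      · rw [mul_comm]
        exact hprod j z x0
      · rw [inv_mul_le_iff₀ hcpos, mul_one]
        exact hx0 x
  set ρ : ℝ := mean (fun z : V → K => if G z then (1 : ℝ) else 0) with hρ
  set P : (V → Ω) → ℝ := sqAvg G Q with hP
  have hPm : P ∈ sosC (Jun V Ω t) := RankJAux.sqAvg_mem G Q hQ
  have hF : ρ • F - P = fun y => ∑ j ∈ (Finset.univ : Finset I),
      (1 : ℝ) * (avg (u j) (v j)) y := by
    funext y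
    rw [Pi.sub_apply, Pi.smul_apply, smul_eq_mul, hρ, avg_sum_goodS u v F G h0 Q hdec y, hP,
      add_sub_cancel_right]
    exact Finset.sum_congr rfl fun j _ => (one_mul _).symm
  have hFr' : ∀ T : Finset V, r < T.card → ∀ y, es T (ρ • F - P) y = 0 := by
    intro T hT' y
    have e0 : ρ • F - P = fun x => ∑ j ∈ (Finset.univ : Finset Bool),
        (bif j then ρ else -1) * (bif j then F else P) x := by
      funext x
      simp [sub_eq_add_neg]
    rw [e0, es_sum]
    simp only [Fintype.sum_bool, cond_true, cond_false]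
    rw [hFr T hT' y, sosC_es hPm T (by omega) y]
    ring
  have hE2 : ρ * E F = E (ρ • F - P) + E P := by
    rw [← map_add, sub_add_cancel, map_smul, smul_eq_mul]
  have hEP : 0 ≤ E P := sosC_pos E (fun g hg => hE.sq g (jun_mono (by omega) hg)) hPm
  have h5 : -((Fintype.card I : ℝ) * B) ≤ E (ρ • F - P) := by
    rw [← lam_eq r E (ρ • F - P) hFr']
    conv_rhs => rw [hF]
    rw [lam_sum]
    calc -((Fintype.card I : ℝ) * B) = ∑ _j : I, -B := by
          rw [Finset.sum_const, Finset.card_univ, nsmul_eq_mul]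
          ring
      _ ≤ ∑ j, 1 * Lam r E (avg (u j) (v j)) := by
          apply Finset.sum_le_sum
          intro j _
          rw [one_mul]
          exact hj j
  rw [hE2]
  linarith

end Pool.Agent.Lib.P47s
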