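import Pool.Agent.Lib.P325P.Es
import Pool.Agent.Lib.P47s.Defs
import Pool.Agent.Lib.P47s.SosA
import Pool.Agent.Lib.P47s.DualJ
import Pool.Agent.Lib.P47s.RankJ

/-!
Module LPJ (1h; adapt P47c/LPC.lean; black boxes dualJ, rankJ, es_sum, es_zero_of_dep). Nonnegative functions and squares bound the lifted
function for few choices of copies only.
PROOF. As P47c.lpC, with dualJ in place of farkas: if CertW holds for z then s - F (i ↦ X (i, z i)) = μ + ∑ j, l j * g j X + Q X; if not take
l = 0, μ = 0, Q = 0. rankJ with I = Option (Fin R) applied to the function s - F.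
-/

open scoped BigOperators NNReal

namespace Pool.Agent.Lib.P47s

open Pool.Agent.Lib.P325P (es)

theorem lpJ {V K Ω : Type} [Fintype V] [DecidableEq V] [Fintype K] [DecidableEq K] [Fintype Ω]
    [Nonempty Ω] [Nonempty K] {r t : ℕ} (ht : 2 * t ≤ r) {E : ((V → Ω) → ℝ) →ₗ[ℝ] ℝ}
    (hE : IsSosExpectation r E) (F : (V → Ω) → ℝ) (hF0 : ∀ y, 0 ≤ F y)
    (hFr : ∀ T : Finset V, r < T.card → ∀ y, es T F y = 0)
    (s s1 : ℝ) (hs : s ≤ 1) (hEF : s1 ≤ E F) (R : ℕ) (g : Fin R → (V × K → Ω) → ℝ)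
    (hg : ∀ j x, 0 ≤ g j x) (τ : ℝ) (hτ : 0 < τ)
    (hT : ∀ j : ℕ, r < 2 * j → 1 < τ * Real.sqrt (Fintype.card K) ^ j)
    (hγ : 4 * (Fintype.card Ω : ℝ) * ((Fintype.card V : ℝ) *
      (Real.exp 1 * (Fintype.card Ω : ℝ) *
        Real.sqrt ((r : ℝ) * Real.log (Fintype.card Ω) + Real.log (1 / τ) + 1) /
        Real.sqrt (Real.sqrt (Fintype.card K)))) ≤ Real.exp (-4)) :
    (Nat.card {z : V → K // CertW (Jun (V × K) Ω t) g s (fun X => F (fun i => X (i, z i)))} : ℝ)
        * (s1 - s) ≤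
      ((R : ℝ) + 1) * (2 * ((2 * (Fintype.card Ω : ℝ) * ((Fintype.card V : ℝ) + 1)) ^ r * τ) +
        Real.exp (-(2 * (r : ℝ)))) * (Fintype.card (V → K) : ℝ) := by
  classical
  set G : (V → K) → Prop := fun z =>
    CertW (Jun (V × K) Ω t) g s (fun X => F (fun i => X (i, z i))) with hG
  have key : ∀ z : V → K, ∃ (l : Fin R → ℝ) (μ : ℝ) (Q : (V × K → Ω) → ℝ), (∀ j, 0 ≤ l j) ∧
      0 ≤ μ ∧ Q ∈ sosC (Jun (V × K) Ω t) ∧
      (¬ G z → μ = 0 ∧ ∀ j, l j = 0) ∧
      (G z → ∀ X : V × K → Ω, s - F (fun i => X (i, z i)) =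
        μ + ∑ j, l j * g j X + Q X) := by
    intro z
    by_cases hC : G z
    · obtain ⟨l, l0, Q, hl1, hl2, hl3, hl4⟩ := dualJ (Jun (V × K) Ω t) g hg
        (fun X => F (fun i => X (i, z i))) s hC
      exact ⟨l, l0, Q, hl1, hl2, hl3, fun h => absurd hC h, fun _ X => hl4 X⟩
    · exact ⟨fun _ => 0, 0, 0, fun _ => le_rfl, le_rfl, (sosC _).zero_mem,
        fun _ => ⟨rfl, fun _ => rfl⟩, fun h => absurd h hC⟩
  choose l μ Q hl hμ hQ h0 hX using key
  have hFs1 : ∀ y, s - F y ≤ 1 := fun y => by linarith [hF0 y]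
  have hFsr : ∀ T : Finset V, r < T.card → ∀ y, es T (fun y => s - F y) y = 0 := by
    intro T hT' y
    have h1 : (fun y => s - F y) = fun x => ∑ j : Bool, (if j then (1 : ℝ) else -1) *
        (if j then (fun _ : V → Ω => s) else F) x := by
      funext x
      rw [Fintype.sum_bool]
      simp only [Bool.false_eq_true, if_true, if_false]
      ring
    rw [h1, P325P.es_sum, Fintype.sum_bool]
    simp only [Bool.false_eq_true, if_true, if_false]
    rw [hFr T hT' y]
    have h2 : es T (fun _ : V → Ω => s) y = 0 := by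
      refine P325P.es_zero_of_dep (J := (∅ : Finset V)) ?_ ?_ y
      · intro x x' _
        rfl
      · intro h
        rw [Finset.subset_empty.1 h, Finset.card_empty] at hT'
        exact absurd hT' (Nat.not_lt_zero _)
    rw [h2]
    ring
  have key2 := rankJ (V := V) (K := K) (Ω := Ω) ht hE (fun y => s - F y) hFs1 hFsr
    (I := Option (Fin R))
    (fun o z => o.elim (μ z) (fun j => l z j))
    (fun o x => o.elim 1 (fun j => g j x))
    (by
      rintro (_ | j) z
      · exact hμ z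
      · exact hl z j)
    (by
      rintro (_ | j) x
      · exact zero_le_one
      · exact hg j x)
    G
    (by
      rintro (_ | j) z hz
      · exact (h0 z hz).1
      · exact (h0 z hz).2 j)
    Q hQ
    (by
      intro z hz x
      have h1 := hX z hz x
      show s - F (fun i => x (i, z i)) = _
      rw [h1, Fintype.sum_option]
      simp only [Option.elim_none, Option.elim_some, mul_one])
    τ ((r : ℝ) * Real.log (Fintype.card Ω) + Real.log (1 / τ)) hτ hT le_rfl hγ
  rw [Fintype.card_option, Fintype.card_fin] at key2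
  have hEF' : E (fun y => s - F y) ≤ s - s1 := by
    have h1 : (fun y => s - F y) = (fun _ => s) - F := rfl
    have h2 : (fun _ : V → Ω => s) = s • fun _ => (1 : ℝ) := by
      ext z; simp
    rw [h1, map_sub, h2, map_smul, hE.one, smul_eq_mul, mul_one]
    linarith
  set B : ℝ := 2 * ((2 * (Fintype.card Ω : ℝ) * ((Fintype.card V : ℝ) + 1)) ^ r * τ) +
      Real.exp (-(2 * (r : ℝ))) with hB
  set ρ : ℝ := P325P.mean (fun z : V → K => if G z then (1 : ℝ) else 0) with hρ
  have hρ0 : 0 ≤ ρ := by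
    rw [hρ]
    unfold P325P.mean
    apply div_nonneg _ (Nat.cast_nonneg _)
    refine Finset.sum_nonneg fun z _ => ?_
    split <;> norm_num
  have hcZ : (0 : ℝ) < (Fintype.card (V → K) : ℝ) := by
    exact_mod_cast Fintype.card_pos_iff.2 ⟨fun _ => Classical.arbitrary K⟩
  have hρc : (Nat.card {z : V → K // G z} : ℝ) = ρ * (Fintype.card (V → K) : ℝ) := by
    rw [hρ]
    unfold P325P.mean
    rw [div_mul_cancel₀ _ hcZ.ne', Finset.sum_boole, Nat.card_eq_fintype_card,
      Fintype.card_subtype]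
  rw [hρc, mul_right_comm]
  refine mul_le_mul_of_nonneg_right ?_ hcZ.le
  have h2 : ρ * E (fun y => s - F y) ≤ ρ * (s - s1) := mul_le_mul_of_nonneg_left hEF' hρ0
  push_cast at key2
  linarith

end Pool.Agent.Lib.P47s
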