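import Pool.Agent.Lib.P325P.ParaP
import Pool.Agent.Lib.P325cv.Para
import Pool.Agent.Lib.P47s.Defs
import Pool.Agent.Lib.P47s.SosA
import Pool.Agent.Lib.P47s.ConvJ
import Pool.Agent.Lib.P47s.LPJ

/-!
Module LiftJ (2h; adapt P47c/LiftC.lean with e = 1/4; black boxes convJ, lpJ, P325P.paraP, P325cv.para, P325cv.exists_rpow_ge). Convex
programs together with the sum-of-squares constraints certify the lifted function for few choices of copies only.
PROOF. As P47c.liftC with e = 1/4 (q = 1/32, p = 1/68, a = 1/72) and k = card Ω. There is one more condition 2 * (t * Q') ≤ r for t ≤ m^(1/72):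
m^(1/72) ≤ (2N)^(1/68) (as for d there), and 2 Q' (2N)^(1/68) ≤ (2N)^(1/28) ≤ r for large N (exists_rpow_ge (1/28 - 1/68) (2 Q')). Here lpC is replaced
by lpJ with the functions g of convJ (which replaces convC), and es_jun is not needed: the hypothesis on the components of F is as in liftC.
-/

open scoped BigOperators NNReal

namespace Pool.Agent.Lib.P47s

open Pool.Agent.Lib.P325P (es)
open Pool.Agent.Lib.P47c (Cert)

namespace LiftJAux

theorem main (Ω : Type) [Fintype Ω] [DecidableEq Ω] [Nonempty Ω] (C Q Q' n0 : ℕ) (hC : 1 ≤ C)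
    (s s1 e : ℝ) (hs0 : 0 < s) (hs : s < 1) (hs1 : Real.sqrt s < s1) (he : 0 < e)
    (he4 : e ≤ 1 / 4) :
    ∃ m0 : ℕ, ∀ m ≥ m0, ∃ n : ℕ, n0 ≤ n ∧ 1 ≤ n ∧ C * n * n ^ 5 * Fintype.card Ω ≤ m ∧
      ∀ (V : Type) [Fintype V] [DecidableEq V], Fintype.card V ≤ C * n →
      ∀ (F : (V → Ω) → ℝ), (∀ y, 0 ≤ F y) →
        (∀ T : Finset V, Q < T.card → ∀ y, es T F y = 0) →
      ∀ (r : ℕ) (E : ((V → Ω) → ℝ) →ₗ[ℝ] ℝ), IsSosExpectation r E →
        (2 * (n : ℝ)) ^ e ≤ r → s1 ≤ E F →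
      ∀ (Y : Type) [AddCommGroup Y] [Module ℝ Y] (R d t : ℕ)
        (A : Fin R → Y →ₗ[ℝ] (Fin d → ℝ)) (K : Fin R → Set (Fin d → ℝ))
        (pt : (V × Fin (n ^ 5) → Ω) → Y),
        (R : ℝ) ≤ Real.exp ((m : ℝ) ^ (e / 18)) → (d : ℝ) ≤ (m : ℝ) ^ (e / 18) →
        (t : ℝ) ≤ (m : ℝ) ^ (e / 18) →
        (∀ j, Convex ℝ (K j)) → (∀ X j, A j (pt X) ∈ K j) →
        (Nat.card {z : V → Fin (n ^ 5) //
          Cert ({y | ∀ j, A j y ∈ K j} ∩ SosSet (Jun (V × Fin (n ^ 5)) Ω (t * Q')) pt) pt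
            (fun X => F (fun i => X (i, z i))) s} : ℝ) ≤
          Real.exp (-(m : ℝ) ^ (e / 18)) * (Fintype.card (V → Fin (n ^ 5)) : ℝ) := by
  obtain ⟨k, hkΩ⟩ : ∃ k, k = Fintype.card Ω := ⟨_, rfl⟩
  have hk1 : 1 ≤ k := by
    rw [hkΩ]
    exact Fintype.card_pos
  rw [← hkΩ]
  have hkC : 1 ≤ k * C := Nat.one_le_iff_ne_zero.2
    (Nat.mul_ne_zero (by omega) (by omega))
  have hη : 0 < s1 - Real.sqrt s := by linarith
  have hsq0 : 0 < Real.sqrt s := Real.sqrt_pos.2 hs0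
  have hsq1 : Real.sqrt s < 1 := by
    rw [Real.sqrt_lt' one_pos]; simpa using hs
  have hθ : 0 < 1 / Real.sqrt s - 1 := by
    have : 1 < 1 / Real.sqrt s := by rw [lt_div_iff₀ hsq0]; linarith
    linarith
  obtain ⟨N1, hN1⟩ := P325P.paraP e (s1 - Real.sqrt s) he he4 hη (k * C) n0 hkC
  obtain ⟨N2, hN2⟩ := P325cv.exists_rpow_ge (e / 7 - e / 8) 3 (by linarith)
  obtain ⟨N3, hN3⟩ := P325cv.exists_rpow_ge (e / 7) Q (by linarith)
  obtain ⟨N4, hN4⟩ := P325cv.exists_rpow_ge (e / 17 - e / 18) (((k * C : ℕ) : ℝ) ^ (e / 18))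
    (by linarith)
  obtain ⟨N5, hN5⟩ := P325cv.para (e / 17) (e / 8) (1 / Real.sqrt s - 1) (by linarith)
    (by linarith) hθ
  obtain ⟨N6, hN6⟩ := P325cv.exists_rpow_ge (e / 7 - e / 17) (2 * (Q' : ℝ)) (by linarith)
  refine ⟨(k * C) * (N1 + N2 + N3 + N4 + N5 + N6 + 1), fun m hm => ?_⟩
  set N : ℕ := m / (k * C) with hN
  have hNge : N1 + N2 + N3 + N4 + N5 + N6 + 1 ≤ N := by
    rw [hN, Nat.le_div_iff_mul_le (by omega), mul_comm]
    exact hm
  have hNm : k * C * N ≤ m := Nat.mul_div_le m (k * C)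
  have hmN : m < k * C * (N + 1) := by
    have := Nat.lt_mul_div_succ m (show 0 < k * C by omega)
    simpa [hN] using this
  have hN1r : (1 : ℝ) ≤ N := by exact_mod_cast (show 1 ≤ N by omega)
  have h2N : (1 : ℝ) ≤ 2 * (N : ℝ) := by linarith
  have h2N0 : (0 : ℝ) < 2 * (N : ℝ) := by linarith
  obtain ⟨n, r, τ, hn, hn1, hnN, hr2, hr0, hrN, hτ, herr, hT, hγ⟩ := hN1 N (by omega)
  have hma : (m : ℝ) ^ (e / 18) ≤ (2 * (N : ℝ)) ^ (e / 17) := by
    have hkC0 : (0 : ℝ) ≤ ((k * C : ℕ) : ℝ) := Nat.cast_nonneg _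
    have h1 : (m : ℝ) ≤ ((k * C : ℕ) : ℝ) * (2 * (N : ℝ)) := by
      have h2 : (m : ℝ) ≤ ((k * C * (N + 1) : ℕ) : ℝ) := by exact_mod_cast hmN.le
      rw [Nat.cast_mul] at h2
      push_cast at h2 ⊢
      push_cast at hkC0
      nlinarith
    calc (m : ℝ) ^ (e / 18) ≤ (((k * C : ℕ) : ℝ) * (2 * (N : ℝ))) ^ (e / 18) :=
          Real.rpow_le_rpow (Nat.cast_nonneg _) h1 (by linarith)
      _ = ((k * C : ℕ) : ℝ) ^ (e / 18) * (2 * (N : ℝ)) ^ (e / 18) :=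
          Real.mul_rpow hkC0 h2N0.le
      _ ≤ (2 * (N : ℝ)) ^ (e / 17 - e / 18) * (2 * (N : ℝ)) ^ (e / 18) :=
          mul_le_mul_of_nonneg_right (hN4 N (by omega)) (Real.rpow_nonneg h2N0.le _)
      _ = (2 * (N : ℝ)) ^ (e / 17) := by
          rw [← Real.rpow_add h2N0]
          congr 1
          ring
  set q : ℝ := (2 * (N : ℝ)) ^ (e / 8) with hq
  have hq1 : 1 ≤ q := Real.one_le_rpow h2N (by linarith)
  have hpq : (2 * (N : ℝ)) ^ (e / 17) ≤ q :=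
    Real.rpow_le_rpow_of_exponent_le h2N (by linarith)
  have hqr : 3 * q ≤ r := by
    have h2 : (2 * (N : ℝ)) ^ (e / 7) = (2 * (N : ℝ)) ^ (e / 7 - e / 8) * q := by
      rw [hq, ← Real.rpow_add h2N0]
      congr 1
      ring
    have h3 : 3 * q ≤ (2 * (N : ℝ)) ^ (e / 7) := by
      rw [h2]
      exact mul_le_mul_of_nonneg_right (hN2 N (by omega)) (by linarith)
    linarith
  have hQr : Q ≤ r := by
    have h1 := hN3 N (by omega)
    exact_mod_cast h1.trans hrN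
  have hnr : (1 : ℝ) ≤ n := by exact_mod_cast hn1
  refine ⟨n, hn, hn1, ?_, ?_⟩
  · calc C * n * n ^ 5 * k = k * C * (n * n ^ 5) := by ring
      _ ≤ k * C * N := Nat.mul_le_mul_left _ hnN
      _ ≤ m := hNm
  intro V _ _ hV F hF0 hFQ r0 E hE hr0e hEF Y _ _ R d t A K pt hR hd ht hK hpt
  have hrr : r ≤ r0 := hr0 r0 hr0e
  have hEr : IsSosExpectation r E := sos_mono hrr hE
  have htr : 2 * (t * Q') ≤ r := by
    have h1 : 2 * ((t : ℝ) * Q') ≤ r := by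
      calc 2 * ((t : ℝ) * Q') = (2 * (Q' : ℝ)) * t := by ring
        _ ≤ (2 * (Q' : ℝ)) * (2 * (N : ℝ)) ^ (e / 17) :=
            mul_le_mul_of_nonneg_left (ht.trans hma) (by positivity)
        _ ≤ (2 * (N : ℝ)) ^ (e / 7 - e / 17) * (2 * (N : ℝ)) ^ (e / 17) :=
            mul_le_mul_of_nonneg_right (hN6 N (by omega)) (Real.rpow_nonneg h2N0.le _)
        _ = (2 * (N : ℝ)) ^ (e / 7) := by
            rw [← Real.rpow_add h2N0]
            congr 1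
            ring
        _ ≤ r := hrN
    exact_mod_cast h1
  have hKpos : 0 < n ^ 5 := by positivity
  have : Nonempty (Fin (n ^ 5)) := ⟨⟨0, hKpos⟩⟩
  have : Nonempty (V × Fin (n ^ 5) → Ω) := ⟨fun _ => Classical.arbitrary Ω⟩
  obtain ⟨Rl, g, hRl, hg, hcert⟩ := convJ (Z := V × Fin (n ^ 5) → Ω)
    (Jun (V × Fin (n ^ 5)) Ω (t * Q')) s hs0 hs R d A K pt hK hpt
  have hRl2 : (Rl : ℝ) ≤ Real.exp q := by
    have h1 := hN5 N (by omega) R d (hR.trans (Real.exp_le_exp.2 hma)) (hd.trans hma)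
    rw [← hq] at h1
    linarith
  have hcardK : ((Fintype.card (Fin (n ^ 5)) : ℕ) : ℝ) = (n : ℝ) ^ 5 := by
    rw [Fintype.card_fin]
    push_cast
    ring
  have hcardO : ((Fintype.card Ω : ℕ) : ℝ) = (k : ℝ) := by
    rw [hkΩ]
  -- numerical facts
  have hk1r : (1 : ℝ) ≤ k := by exact_mod_cast hk1
  have hC1r : (1 : ℝ) ≤ C := by exact_mod_cast hC
  have hkCr : ((k * C : ℕ) : ℝ) = (k : ℝ) * C := by push_cast; ring
  have hkk : (k : ℝ) ≤ (k : ℝ) * C := by nlinarith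
  have hVr : (Fintype.card V : ℝ) ≤ C * n := by exact_mod_cast hV
  have hV0 : (0 : ℝ) ≤ (Fintype.card V : ℝ) := Nat.cast_nonneg _
  rw [hkCr] at hγ herr
  have hkV : (k : ℝ) * (Fintype.card V : ℝ) ≤ (k : ℝ) * C * (2 * (n : ℝ)) := by
    have h1 : (k : ℝ) * (Fintype.card V : ℝ) ≤ (k : ℝ) * (C * n) :=
      mul_le_mul_of_nonneg_left hVr (by linarith)
    have h2 : (0 : ℝ) ≤ (k : ℝ) * C * n := by positivity
    nlinarith
  have hkV1 : (k : ℝ) * ((Fintype.card V : ℝ) + 1) ≤ (k : ℝ) * C * (2 * (n : ℝ) + 1) := by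
    nlinarith
  have hγ' : 4 * (Fintype.card Ω : ℝ) * ((Fintype.card V : ℝ) *
      (Real.exp 1 * (Fintype.card Ω : ℝ) *
        Real.sqrt ((r : ℝ) * Real.log (Fintype.card Ω) + Real.log (1 / τ) + 1) /
        Real.sqrt (Real.sqrt (Fintype.card (Fin (n ^ 5)))))) ≤ Real.exp (-4) := by
    rw [hcardK, hcardO]
    refine le_trans ?_ hγ
    have h1 : Real.sqrt ((r : ℝ) * Real.log k + Real.log (1 / τ) + 1) ≤
        Real.sqrt ((r : ℝ) * Real.log ((k : ℝ) * C) + Real.log (1 / τ) + 1) := by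
      apply Real.sqrt_le_sqrt
      have h2 : Real.log k ≤ Real.log ((k : ℝ) * C) := Real.log_le_log (by linarith) hkk
      have h3 : (r : ℝ) * Real.log k ≤ (r : ℝ) * Real.log ((k : ℝ) * C) :=
        mul_le_mul_of_nonneg_left h2 (Nat.cast_nonneg _)
      linarith
    have h4 : Real.exp 1 * (k : ℝ) *
        Real.sqrt ((r : ℝ) * Real.log k + Real.log (1 / τ) + 1) /
          Real.sqrt (Real.sqrt ((n : ℝ) ^ 5)) ≤
        Real.exp 1 * ((k : ℝ) * C) *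
        Real.sqrt ((r : ℝ) * Real.log ((k : ℝ) * C) + Real.log (1 / τ) + 1) /
          Real.sqrt (Real.sqrt ((n : ℝ) ^ 5)) := by
      apply div_le_div_of_nonneg_right _ (Real.sqrt_nonneg _)
      apply mul_le_mul _ h1 (Real.sqrt_nonneg _) (by positivity)
      exact mul_le_mul_of_nonneg_left hkk (Real.exp_pos 1).le
    calc 4 * (k : ℝ) * ((Fintype.card V : ℝ) * (Real.exp 1 * (k : ℝ) *
        Real.sqrt ((r : ℝ) * Real.log k + Real.log (1 / τ) + 1) /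
          Real.sqrt (Real.sqrt ((n : ℝ) ^ 5)))) =
        4 * ((k : ℝ) * (Fintype.card V : ℝ)) * (Real.exp 1 * (k : ℝ) *
        Real.sqrt ((r : ℝ) * Real.log k + Real.log (1 / τ) + 1) /
          Real.sqrt (Real.sqrt ((n : ℝ) ^ 5))) := by ring
      _ ≤ 4 * ((k : ℝ) * C * (2 * (n : ℝ))) * (Real.exp 1 * ((k : ℝ) * C) *
        Real.sqrt ((r : ℝ) * Real.log ((k : ℝ) * C) + Real.log (1 / τ) + 1) /
          Real.sqrt (Real.sqrt ((n : ℝ) ^ 5))) := by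
          apply mul_le_mul _ h4 (by positivity) (by positivity)
          linarith
      _ = _ := by ring
  have key := lpJ (V := V) (K := Fin (n ^ 5)) (Ω := Ω) htr hEr F hF0
    (fun T hT' y => hFQ T (lt_of_le_of_lt hQr hT') y) (Real.sqrt s) s1 hsq1.le hEF Rl g hg
    τ hτ (by intro j hj; rw [hcardK]; exact hT j hj) hγ'
  rw [hcardO] at key
  -- the good choices
  have hcardle : (Nat.card {z : V → Fin (n ^ 5) //
      Cert ({y | ∀ j, A j y ∈ K j} ∩ SosSet (Jun (V × Fin (n ^ 5)) Ω (t * Q')) pt) pt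
        (fun X => F (fun i => X (i, z i))) s} : ℝ) ≤
      (Nat.card {z : V → Fin (n ^ 5) //
      CertW (Jun (V × Fin (n ^ 5)) Ω (t * Q')) g (Real.sqrt s)
        (fun X => F (fun i => X (i, z i)))} : ℝ) := by
    have h1 := Nat.card_le_card_of_injective
      (fun z : {z : V → Fin (n ^ 5) //
        Cert ({y | ∀ j, A j y ∈ K j} ∩ SosSet (Jun (V × Fin (n ^ 5)) Ω (t * Q')) pt) pt
        (fun X => F (fun i => X (i, z i))) s} =>
        (⟨z.1, hcert _ (fun X => hF0 _) z.2⟩ : {z : V → Fin (n ^ 5) //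
          CertW (Jun (V × Fin (n ^ 5)) Ω (t * Q')) g (Real.sqrt s)
        (fun X => F (fun i => X (i, z i)))}))
      (fun z z' h => Subtype.ext (congrArg (fun t => t.1) h))
    exact_mod_cast h1
  refine hcardle.trans ?_
  set cG : ℝ := (Nat.card {z : V → Fin (n ^ 5) //
      CertW (Jun (V × Fin (n ^ 5)) Ω (t * Q')) g (Real.sqrt s)
        (fun X => F (fun i => X (i, z i)))} : ℝ) with hcG
  set cZ : ℝ := (Fintype.card (V → Fin (n ^ 5)) : ℝ) with hcZ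
  have hcZ0 : 0 ≤ cZ := Nat.cast_nonneg _
  set B : ℝ := 2 * ((2 * ((k : ℝ) * C) * (2 * (n : ℝ) + 1)) ^ r * τ) +
      Real.exp (-(2 * (r : ℝ))) with hB
  set B' : ℝ := 2 * ((2 * (k : ℝ) * ((Fintype.card V : ℝ) + 1)) ^ r * τ) +
      Real.exp (-(2 * (r : ℝ))) with hB'
  have hBB : B' ≤ B := by
    have h1 : (2 * (k : ℝ) * ((Fintype.card V : ℝ) + 1)) ^ r ≤
        (2 * ((k : ℝ) * C) * (2 * (n : ℝ) + 1)) ^ r := by
      apply pow_le_pow_left₀ (by positivity)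
      nlinarith
    have h2 := mul_le_mul_of_nonneg_right h1 hτ.le
    rw [hB, hB']
    linarith
  have hB0 : 0 ≤ B := by positivity
  have h2 : B ≤ (s1 - Real.sqrt s) * Real.exp (-(r : ℝ)) := by
    have h3 : Real.exp r * B ≤ s1 - Real.sqrt s := by nlinarith
    have h4 : B = Real.exp (-(r : ℝ)) * (Real.exp r * B) := by
      rw [← mul_assoc, ← Real.exp_add]
      simp
    rw [h4, mul_comm (s1 - Real.sqrt s)]
    exact mul_le_mul_of_nonneg_left h3 (Real.exp_pos _).le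
  have h5 : (Rl : ℝ) + 1 ≤ Real.exp (q + 1) := by
    have h6 : Real.exp (q + 1) = Real.exp q * Real.exp 1 := Real.exp_add _ _
    have h7 : (2 : ℝ) ≤ Real.exp 1 := by
      have := Real.add_one_le_exp (1 : ℝ)
      linarith
    have h8 : 1 ≤ Real.exp q := Real.one_le_exp (by linarith)
    rw [h6]
    nlinarith
  have h6 : ((Rl : ℝ) + 1) * B' ≤ (s1 - Real.sqrt s) * Real.exp (-(m : ℝ) ^ (e / 18)) := by
    calc ((Rl : ℝ) + 1) * B' ≤ ((Rl : ℝ) + 1) * B :=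
          mul_le_mul_of_nonneg_left hBB (by positivity)
      _ ≤ Real.exp (q + 1) * ((s1 - Real.sqrt s) * Real.exp (-(r : ℝ))) :=
          mul_le_mul h5 h2 hB0 (Real.exp_pos _).le
      _ = (s1 - Real.sqrt s) * Real.exp (q + 1 - r) := by
          have e9 : Real.exp (q + 1 - r) = Real.exp (q + 1) * Real.exp (-(r : ℝ)) := by
            rw [← Real.exp_add]
            congr 1
          rw [e9]
          ring
      _ ≤ (s1 - Real.sqrt s) * Real.exp (-(m : ℝ) ^ (e / 18)) := by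
          apply mul_le_mul_of_nonneg_left _ hη.le
          apply Real.exp_le_exp.2
          linarith
  have h7 : cG * (s1 - Real.sqrt s) ≤
      (Real.exp (-(m : ℝ) ^ (e / 18)) * cZ) * (s1 - Real.sqrt s) := by
    calc cG * (s1 - Real.sqrt s) ≤ ((Rl : ℝ) + 1) * B' * cZ := key
      _ ≤ (s1 - Real.sqrt s) * Real.exp (-(m : ℝ) ^ (e / 18)) * cZ :=
          mul_le_mul_of_nonneg_right h6 hcZ0
      _ = _ := by ring
  exact le_of_mul_le_mul_right h7 hη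

end LiftJAux

theorem liftJ (Ω : Type) [Fintype Ω] [DecidableEq Ω] [Nonempty Ω] (C Q Q' n0 : ℕ) (hC : 1 ≤ C)
    (s s1 : ℝ) (hs0 : 0 < s) (hs : s < 1) (hs1 : Real.sqrt s < s1) :
    ∃ m0 : ℕ, ∀ m ≥ m0, ∃ n : ℕ, n0 ≤ n ∧ 1 ≤ n ∧ C * n * n ^ 5 * Fintype.card Ω ≤ m ∧
      ∀ (V : Type) [Fintype V] [DecidableEq V], Fintype.card V ≤ C * n →
      ∀ (F : (V → Ω) → ℝ), (∀ y, 0 ≤ F y) →
        (∀ T : Finset V, Q < T.card → ∀ y, es T F y = 0) →
      ∀ (r : ℕ) (E : ((V → Ω) → ℝ) →ₗ[ℝ] ℝ), IsSosExpectation r E →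
        (2 * (n : ℝ)) ^ (1 / 4 : ℝ) ≤ r → s1 ≤ E F →
      ∀ (Y : Type) [AddCommGroup Y] [Module ℝ Y] (R d t : ℕ)
        (A : Fin R → Y →ₗ[ℝ] (Fin d → ℝ)) (K : Fin R → Set (Fin d → ℝ))
        (pt : (V × Fin (n ^ 5) → Ω) → Y),
        (R : ℝ) ≤ Real.exp ((m : ℝ) ^ (1 / 72 : ℝ)) → (d : ℝ) ≤ (m : ℝ) ^ (1 / 72 : ℝ) →
        (t : ℝ) ≤ (m : ℝ) ^ (1 / 72 : ℝ) →
        (∀ j, Convex ℝ (K j)) → (∀ X j, A j (pt X) ∈ K j) →
        (Nat.card {z : V → Fin (n ^ 5) //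
          Cert ({y | ∀ j, A j y ∈ K j} ∩ SosSet (Jun (V × Fin (n ^ 5)) Ω (t * Q')) pt) pt
            (fun X => F (fun i => X (i, z i))) s} : ℝ) ≤
          Real.exp (-(m : ℝ) ^ (1 / 72 : ℝ)) * (Fintype.card (V → Fin (n ^ 5)) : ℝ) := by
  have h := LiftJAux.main Ω C Q Q' n0 hC s s1 (1 / 4) hs0 hs hs1 (by norm_num) le_rfl
  have e1 : (1 / 4 : ℝ) / 18 = 1 / 72 := by norm_num
  rw [e1] at h
  exact h

end Pool.Agent.Lib.P47s
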