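import Pool.Agent.Lib.P47c.Model

/-!
The constraints of the sum-of-squares hierarchy for facility location and k-median, for programs
with arbitrary variables.
-/

open scoped BigOperators

namespace Pool.Agent.Lib.P47s

/-- The polynomials of degree at most `t` in the variables `x i = [i ∈ S]` and `z j i = [σ j = i]`,
as functions of the set `S` of open facilities and of the assignment `σ` of the clients. -/
def Poly (m M t : ℕ) : Submodule ℝ (Finset (Fin m) × (Fin M → Fin m) → ℝ) :=
  Submodule.span ℝ {f | ∃ (I : Finset (Fin m)) (J : Finset (Fin M × Fin m)), I.card + J.card ≤ t ∧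
    f = fun p => (∏ i ∈ I, if i ∈ p.1 then 1 else 0) * ∏ q ∈ J, if p.2 q.1 = q.2 then 1 else 0}

/-- The constraints of degree `2 * t` of the sum-of-squares hierarchy for facility location: the
points `y` at which every affine function `v y + v0` is nonnegative that is equal to a sum of
squares of polynomials of degree at most `t` at `pt S σ` for all nonempty sets `S` of open
facilities and all assignments `σ` to facilities in `S`. -/
def SosF {m M : ℕ} {Y : Type} [AddCommGroup Y] [Module ℝ Y]
    (pt : Finset (Fin m) → (Fin M → Fin m) → Y) (t : ℕ) : Set Y :=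
  {y | ∀ (v : Y →ₗ[ℝ] ℝ) (v0 : ℝ) (l : ℕ) (f : Fin l → Finset (Fin m) × (Fin M → Fin m) → ℝ),
    (∀ i, f i ∈ Poly m M t) →
    (∀ S σ, S.Nonempty → (∀ j, σ j ∈ S) → v (pt S σ) + v0 = ∑ i, f i (S, σ) ^ 2) →
    0 ≤ v y + v0}

/-- The constraints of degree `2 * t` of the sum-of-squares hierarchy for k-median: the points `y`
at which every affine function `v y + v0` is nonnegative that is equal to
`∑ i, f i ^ 2 + (k - |S|) * ∑ i, f' i ^ 2` for some polynomials `f i`, `f' i` of degree at most `t`
at `pt S σ` for all nonempty sets `S` of at most `k` open facilities and all assignments `σ` to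
facilities in `S`. -/
def SosK {m M : ℕ} {Y : Type} [AddCommGroup Y] [Module ℝ Y]
    (pt : Finset (Fin m) → (Fin M → Fin m) → Y) (k t : ℕ) : Set Y :=
  {y | ∀ (v : Y →ₗ[ℝ] ℝ) (v0 : ℝ) (l : ℕ) (f f' : Fin l → Finset (Fin m) × (Fin M → Fin m) → ℝ),
    (∀ i, f i ∈ Poly m M t ∧ f' i ∈ Poly m M t) →
    (∀ S σ, S.Nonempty → S.card ≤ k → (∀ j, σ j ∈ S) →
      v (pt S σ) + v0 = ∑ i, f i (S, σ) ^ 2 + ((k : ℝ) - S.card) * ∑ i, f' i (S, σ) ^ 2) →
    0 ≤ v y + v0}

end Pool.Agent.Lib.P47s
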