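import Pool.Agent.Lib.P47s.Defs
import Pool.Agent.Lib.P47s.Model
import Pool.Agent.Lib.P47s.SosA

/-!
Polynomials of a solution that is given by a labeling: if every open facility and every assignment depends on at most `c` labels then a polynomial of degree at
most `t` is a combination of functions of at most `t * c` labels. Sums of squares of polynomials become sums of squares of such functions.
-/

open scoped BigOperators

namespace Pool.Agent.Lib.P47s

variable {m M : ℕ} {V Ω : Type}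

theorem poly_comp (φ : (V → Ω) → Finset (Fin m) × (Fin M → Fin m)) (c t : ℕ)
    (hS : ∀ i, ∃ D : Finset V, D.card ≤ c ∧ ∀ x y, (∀ v ∈ D, x v = y v) →
      (i ∈ (φ x).1 ↔ i ∈ (φ y).1))
    (hσ : ∀ j, ∃ D : Finset V, D.card ≤ c ∧ ∀ x y, (∀ v ∈ D, x v = y v) →
      (φ x).2 j = (φ y).2 j)
    {f : Finset (Fin m) × (Fin M → Fin m) → ℝ} (hf : f ∈ Poly m M t) :
    (fun x => f (φ x)) ∈ Jun V Ω (t * c) := by
  classical
  choose DS hDS1 hDS2 using hS
  choose Dσ hDσ1 hDσ2 using hσ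
  unfold Poly at hf
  induction hf using Submodule.span_induction with
  | mem f hf =>
    obtain ⟨I, J, hIJ, rfl⟩ := hf
    refine jun_of_dep (D := I.biUnion DS ∪ J.biUnion fun q => Dσ q.1) ?_ ?_
    · calc (I.biUnion DS ∪ J.biUnion fun q => Dσ q.1).card
          ≤ (I.biUnion DS).card + (J.biUnion fun q => Dσ q.1).card := Finset.card_union_le _ _
        _ ≤ I.card * c + J.card * c := Nat.add_le_add
            (Finset.card_biUnion_le_card_mul I DS c fun i _ => hDS1 i)
            (Finset.card_biUnion_le_card_mul J (fun q => Dσ q.1) c fun q _ => hDσ1 q.1)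
        _ = (I.card + J.card) * c := (Nat.add_mul _ _ _).symm
        _ ≤ t * c := Nat.mul_le_mul_right c hIJ
    · intro x y hxy
      have h1 : ∀ i ∈ I, (if i ∈ (φ x).1 then (1 : ℝ) else 0) = if i ∈ (φ y).1 then 1 else 0 := by
        intro i hi
        have h := hDS2 i x y fun v hv => hxy v (Finset.mem_coe.2 (Finset.mem_union_left _
          (Finset.mem_biUnion.2 ⟨i, hi, hv⟩)))
        simp only [h]
      have h2 : ∀ q ∈ J, (if (φ x).2 q.1 = q.2 then (1 : ℝ) else 0) =
          if (φ y).2 q.1 = q.2 then 1 else 0 := by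
        intro q hq
        have h := hDσ2 q.1 x y fun v hv => hxy v (Finset.mem_coe.2 (Finset.mem_union_right _
          (Finset.mem_biUnion.2 ⟨q, hq, hv⟩)))
        simp only [h]
      show (∏ i ∈ I, if i ∈ (φ x).1 then (1 : ℝ) else 0) *
        ∏ q ∈ J, (if (φ x).2 q.1 = q.2 then (1 : ℝ) else 0) =
        (∏ i ∈ I, if i ∈ (φ y).1 then (1 : ℝ) else 0) *
        ∏ q ∈ J, (if (φ y).2 q.1 = q.2 then (1 : ℝ) else 0)
      rw [Finset.prod_congr rfl h1, Finset.prod_congr rfl h2]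
  | zero => exact (Jun V Ω (t * c)).zero_mem
  | add f g _ _ hf hg => exact (Jun V Ω (t * c)).add_mem hf hg
  | smul a f _ hf => exact (Jun V Ω (t * c)).smul_mem a hf

theorem sosF_sub (φ : (V → Ω) → Finset (Fin m) × (Fin M → Fin m)) (L : Submodule ℝ ((V → Ω) → ℝ))
    (t : ℕ) (hL : ∀ f ∈ Poly m M t, (fun x => f (φ x)) ∈ L)
    (h1 : ∀ x, (φ x).1.Nonempty) (h2 : ∀ x j, (φ x).2 j ∈ (φ x).1)
    {Y : Type} [AddCommGroup Y] [Module ℝ Y] (pt : Finset (Fin m) → (Fin M → Fin m) → Y) :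
    SosSet L (fun x => pt (φ x).1 (φ x).2) ⊆ SosF pt t := by
  intro y hy v v0 l f hf he
  refine hy v v0 ?_
  have h3 : (fun x => v (pt (φ x).1 (φ x).2) + v0) = fun x => ∑ i, f i (φ x) ^ 2 := by
    funext x
    exact he (φ x).1 (φ x).2 (h1 x) (h2 x)
  rw [h3]
  exact sosC_sum Finset.univ (fun i x => f i (φ x) ^ 2) fun i _ => sosC_sq (hL (f i) (hf i))

theorem sosK_sub (φ : (V → Ω) → Finset (Fin m) × (Fin M → Fin m)) (L : Submodule ℝ ((V → Ω) → ℝ))
    (t k : ℕ) (hL : ∀ f ∈ Poly m M t, (fun x => f (φ x)) ∈ L)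
    (h1 : ∀ x, (φ x).1.Nonempty) (hk : ∀ x, (φ x).1.card = k) (h2 : ∀ x j, (φ x).2 j ∈ (φ x).1)
    {Y : Type} [AddCommGroup Y] [Module ℝ Y] (pt : Finset (Fin m) → (Fin M → Fin m) → Y) :
    SosSet L (fun x => pt (φ x).1 (φ x).2) ⊆ SosK pt k t := by
  intro y hy v v0 l f f' hf he
  refine hy v v0 ?_
  have h3 : (fun x => v (pt (φ x).1 (φ x).2) + v0) = fun x => ∑ i, f i (φ x) ^ 2 := by
    funext x
    have h4 := he (φ x).1 (φ x).2 (h1 x) (hk x).le (h2 x)
    rw [hk x, sub_self, zero_mul, add_zero] at h4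
    exact h4
  rw [h3]
  exact sosC_sum Finset.univ (fun i x => f i (φ x) ^ 2) fun i _ => sosC_sq (hL (f i) (hf i).1)

end Pool.Agent.Lib.P47s
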