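import Pool.Agent.Lib.P325av.Perm
import Pool.Agent.Lib.P47c.Model
import Pool.Agent.Lib.P47c.TDefs
import Pool.Agent.Lib.P47c.FI
import Pool.Agent.Lib.P47c.EsCov
import Pool.Agent.Lib.P47c.FL2
import Pool.Agent.Lib.P47s.Defs
import Pool.Agent.Lib.P47s.Model
import Pool.Agent.Lib.P47s.BaseP
import Pool.Agent.Lib.P47s.LiftJ
import Pool.Agent.Lib.P47s.PolyX

/-!
The lower bound for facility location with the sum-of-squares constraints.
-/

open scoped BigOperators

namespace Pool.Agent.Lib.P47s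

open Pool.Agent.Lib.P47c (Inst)

namespace FL3Aux

open Pool.Agent.Lib.P47c.FL2Aux

theorem mem_sol_iff {P Ω : Type} [Fintype P] {m : ℕ} (fac : P × Ω ↪ Fin m)
    (g : Equiv.Perm (Fin m)) (X : P → Ω) (i : Fin m) :
    i ∈ sol fac g X ↔ ∃ p, g (fac (p, X p)) = i := by
  unfold sol
  rw [Finset.mem_image]
  exact ⟨fun ⟨p, _, h⟩ => ⟨p, h⟩, fun ⟨p, h⟩ => ⟨p, Finset.mem_univ p, h⟩⟩

/-- Whether a facility is open depends on the label of one vertex. -/
theorem sol_dep {P Ω : Type} [Fintype P] {m : ℕ} (fac : P × Ω ↪ Fin m)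
    (g : Equiv.Perm (Fin m)) (i : Fin m) : ∃ D : Finset P, D.card ≤ 1 ∧
      ∀ x y : P → Ω, (∀ v ∈ D, x v = y v) → (i ∈ sol fac g x ↔ i ∈ sol fac g y) := by
  classical
  by_cases h : ∃ p c, g (fac (p, c)) = i
  · obtain ⟨p, c, hp⟩ := h
    refine ⟨{p}, (Finset.card_singleton p).le, ?_⟩
    have key : ∀ x : P → Ω, i ∈ sol fac g x ↔ x p = c := by
      intro x
      rw [mem_sol_iff]
      constructor
      · rintro ⟨p', h'⟩
        have h1 : fac (p', x p') = fac (p, c) := g.injective (h'.trans hp.symm)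
        have h2 := fac.injective h1
        simp only [Prod.mk.injEq] at h2
        rw [← h2.1]
        exact h2.2
      · intro h'
        exact ⟨p, by rw [h', hp]⟩
    intro x y hxy
    rw [key x, key y, hxy p (Finset.mem_singleton_self p)]
  · refine ⟨∅, by simp, fun x y _ => ?_⟩
    rw [mem_sol_iff, mem_sol_iff]
    constructor
    · rintro ⟨p, hp⟩
      exact absurd ⟨p, x p, hp⟩ h
    · rintro ⟨p, hp⟩
      exact absurd ⟨p, y p, hp⟩ h

/-- The first choice for a property of positions. -/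
noncomputable def pk {Q : ℕ} (P : Fin (Q + 1) → Prop) : Fin (Q + 1) := by
  classical
  exact if h : ∃ q, P q then h.choose else 0

theorem pickq_eq {V K Ω : Type} {Q : ℕ} (A : Finset (V × Ω)) (s : Fin (Q + 1) → V)
    (β : Fin (Q + 1) → K) (X : V × K → Ω) :
    pickq A s β X = pk fun q => (s q, X (s q, β q)) ∈ A := by
  unfold pickq pk
  by_cases h : ∃ q, (s q, X (s q, β q)) ∈ A
  · rw [dif_pos h, dif_pos h]
  · rw [dif_neg h, dif_neg h]

/-- The assignment of a client depends on the labels of few vertices. -/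
theorem asg_dep {V K Ω : Type} {m M1 Q M : ℕ} (fac : (V × K) × Ω ↪ Fin m)
    (near : Fin M1 → Finset (V × Ω)) (sup : Fin M1 → Fin (Q + 1) → V)
    (cln : Fin M1 × (Fin (Q + 1) → K) ≃ Fin M) (g : Equiv.Perm (Fin m)) (h : Equiv.Perm (Fin M))
    (j : Fin M) : ∃ D : Finset (V × K), D.card ≤ Q + 1 ∧
      ∀ x y : V × K → Ω, (∀ v ∈ D, x v = y v) →
        asg fac near sup cln g h x j = asg fac near sup cln g h y j := by
  classical
  set t := (cln.symm (h.symm j)).1 with ht
  set β := (cln.symm (h.symm j)).2 with hβ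
  refine ⟨Finset.univ.image fun q : Fin (Q + 1) => (sup t q, β q), ?_, fun x y hxy => ?_⟩
  · exact Finset.card_image_le.trans (by rw [Finset.card_univ, Fintype.card_fin])
  · have h1 : ∀ q, x (sup t q, β q) = y (sup t q, β q) := fun q =>
      hxy _ (Finset.mem_image_of_mem _ (Finset.mem_univ q))
    have h2 : pickq (near t) (sup t) β x = pickq (near t) (sup t) β y := by
      rw [pickq_eq, pickq_eq]
      exact congrArg pk (funext fun q => by rw [h1 q])
    show g (fac ((sup t (pickq (near t) (sup t) β x), β (pickq (near t) (sup t) β x)),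
      x (sup t (pickq (near t) (sup t) β x), β (pickq (near t) (sup t) β x)))) =
      g (fac ((sup t (pickq (near t) (sup t) β y), β (pickq (near t) (sup t) β y)),
      y (sup t (pickq (near t) (sup t) β y), β (pickq (near t) (sup t) β y))))
    rw [h2, h1]

theorem sosF_sub_sol {V K Ω : Type} [Fintype V] [Nonempty V] [Fintype K] [Nonempty K]
    {m M1 Q M : ℕ} (fac : (V × K) × Ω ↪ Fin m)
    (near : Fin M1 → Finset (V × Ω)) (sup : Fin M1 → Fin (Q + 1) → V)
    (cln : Fin M1 × (Fin (Q + 1) → K) ≃ Fin M) (g : Equiv.Perm (Fin m)) (h : Equiv.Perm (Fin M))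
    {Y : Type} [AddCommGroup Y] [Module ℝ Y] (pt : Finset (Fin m) → (Fin M → Fin m) → Y)
    (t : ℕ) : SosSet (Jun (V × K) Ω (t * (Q + 1)))
      (fun X : V × K → Ω => pt (sol fac g X) (asg fac near sup cln g h X)) ⊆ SosF pt t := by
  refine sosF_sub (fun X : V × K → Ω => (sol fac g X, asg fac near sup cln g h X)) _ t
    (fun f hf => ?_) (fun x => sol_nonempty fac g x)
    (fun x j => asg_mem fac near sup cln g h x j) pt
  refine poly_comp _ (Q + 1) t (fun i => ?_) (fun j => ?_) hf
  · obtain ⟨D, hD, h1⟩ := sol_dep fac g i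
    exact ⟨D, hD.trans (by omega), h1⟩
  · exact asg_dep fac near sup cln g h j

end FL3Aux

open FL3Aux Pool.Agent.Lib.P47c Pool.Agent.Lib.P47c.FL2Aux

theorem fLow3 (D γ : ℝ) (hD : 1 < D) (hD3 : D ≤ 3) (hγ0 : 0 < γ)
    (hγ : γ * Real.exp (1 + γ) = D - 1) (α : ℝ) (hα1 : 1 ≤ α) (hα : α < 1 + γ) :
    ∃ Q m0 : ℕ, ∀ m ≥ m0, ∃ (M : ℕ) (I : Inst m M), M ≤ m ^ Q ∧ I.clients.card ≤ m ∧
      I.TwoDistance D ∧
      ∀ (Y : Type) [AddCommGroup Y] [Module ℝ Y] (R d t : ℕ)
        (A : Fin R → Y →ₗ[ℝ] (Fin d → ℝ)) (C : Fin R → Set (Fin d → ℝ))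
        (pt : Finset (Fin m) → (Fin M → Fin m) → Y),
        (R : ℝ) ≤ Real.exp ((m : ℝ) ^ (1 / 72 : ℝ)) → (d : ℝ) ≤ (m : ℝ) ^ (1 / 72 : ℝ) →
        (t : ℝ) ≤ (m : ℝ) ^ (1 / 72 : ℝ) → (∀ i, Convex ℝ (C i)) →
        (∀ S σ, S.Nonempty → (∀ j, σ j ∈ S) → ∀ i, A i (pt S σ) ∈ C i) →
        (Nat.card {g : Equiv.Perm (Fin m) × Equiv.Perm (Fin M) //
          (I.rename g.1 g.2).ApproxBy ({y | ∀ i, A i y ∈ C i} ∩ SosF pt t) pt
            (fun S => S.Nonempty) α} : ℝ) ≤
          Real.exp (-(m : ℝ) ^ (1 / 72 : ℝ)) * (m.factorial * M.factorial) := by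
  classical
  have hα0 : 0 < α := by linarith
  have hD1 : 0 < D - 1 := by linarith
  have hγ1 : 0 < 1 + γ := by linarith
  set ξ := ((1 + γ) ^ 2 / α - (1 + γ)) / 2 with hξ
  have hξ0 : 0 < ξ := by
    have h1 : 1 + γ < (1 + γ) ^ 2 / α := by
      rw [lt_div_iff₀ hα0]
      nlinarith
    rw [hξ]
    linarith
  have hγD : γ * (2 + γ) ≤ D - 1 := by
    rw [← hγ]
    apply mul_le_mul_of_nonneg_left _ hγ0.le
    have := Real.add_one_le_exp (1 + γ)
    linarith
  have hξD : ξ < D - 1 := by
    have h1 : (1 + γ) ^ 2 / α ≤ (1 + γ) ^ 2 := div_le_self (sq_nonneg _) hα1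
    have h2 : ξ ≤ ((1 + γ) ^ 2 - (1 + γ)) / 2 := by
      rw [hξ]
      linarith
    nlinarith
  set s := 1 - ξ / (D - 1) with hs_def
  have hr0 : 0 < ξ / (D - 1) := div_pos hξ0 hD1
  have hr1 : ξ / (D - 1) < 1 := (div_lt_one hD1).2 hξD
  have hs0 : 0 < s := by rw [hs_def]; linarith
  have hs : s < 1 := by rw [hs_def]; linarith
  have hsq : Real.sqrt s < 1 := by
    rw [Real.sqrt_lt' one_pos]
    linarith
  set ε1 := min (α * ξ / (D - 1)) ((1 - Real.sqrt s) / 2) with hε1
  have hε0 : 0 < ε1 := lt_min (by positivity) (by linarith)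
  have hεa : ε1 ≤ α * ξ / (D - 1) := min_le_left _ _
  have hεb : ε1 ≤ (1 - Real.sqrt s) / 2 := min_le_right _ _
  obtain ⟨Ω, fΩ, dΩ, nΩ, Q, C, n0, hk, hC, hbase⟩ := baseP ε1 hε0
  obtain ⟨m0, hlift⟩ := liftJ Ω C (Q + 1) (Q + 1) n0 hC s 1 hs0 hs hsq
  refine ⟨Q + 1 + 1, m0, fun m hm => ?_⟩
  obtain ⟨n, hn0, hn1, hnm, hlift⟩ := hlift m hm
  obtain ⟨V, fV, M1, near, r, E, hVne, hM, hMn, hVn, hnear, hre, hE, hcov, hunc⟩ := hbase n hn0
  have hn5 : 1 ≤ n ^ 5 := Nat.one_le_pow _ _ (by omega)
  have hcard : Fintype.card ((V × Fin (n ^ 5)) × Ω) ≤ Fintype.card (Fin m) := by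
    rw [Fintype.card_prod, Fintype.card_prod, Fintype.card_fin, Fintype.card_fin]
    refine le_trans ?_ hnm
    gcongr
  have hM1m : M1 ≤ m := by
    calc M1 ≤ C * n := hMn
      _ ≤ C * n * (n ^ 5 * Fintype.card Ω) := Nat.le_mul_of_pos_right _ (by positivity)
      _ = C * n * n ^ 5 * Fintype.card Ω := by ring
      _ ≤ m := hnm
  have hn5m : n ^ 5 ≤ m := by
    calc n ^ 5 ≤ n ^ 5 * (C * n * Fintype.card Ω) := Nat.le_mul_of_pos_right _ (by positivity)
      _ = C * n * n ^ 5 * Fintype.card Ω := by ring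
      _ ≤ m := hnm
  obtain ⟨fac⟩ := Function.Embedding.nonempty_of_card_le hcard
  have : Nonempty (Fin (n ^ 5)) := ⟨⟨0, by omega⟩⟩
  have : Nonempty (Fin M1) := ⟨⟨0, hM⟩⟩
  let z0 : V → Fin (n ^ 5) := fun _ => ⟨0, by omega⟩
  have hVp : (0 : ℝ) < Fintype.card V := by exact_mod_cast Fintype.card_pos
  have hMp : (0 : ℝ) < Fintype.card (Fin M1) := by exact_mod_cast Fintype.card_pos
  have hκ : 0 ≤ γ * Fintype.card (Fin M1) / Fintype.card V := by positivity
  have hsupE : ∀ t : Fin M1, ∃ f : Fin (Q + 1) → V, ∀ p ∈ near t, ∃ q, f q = p.1 := by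
    intro t
    obtain ⟨f, hf⟩ := exists_sup ((near t).image Prod.fst) Q
      (Finset.card_image_le.trans (hnear t))
    exact ⟨f, fun p hp => hf p.1 (Finset.mem_image_of_mem _ hp)⟩
  choose sup hsup using hsupE
  set M := Fintype.card (Fin M1 × (Fin (Q + 1) → Fin (n ^ 5))) with hMdef
  let cln : Fin M1 × (Fin (Q + 1) → Fin (n ^ 5)) ≃ Fin M := Fintype.equivFin _
  refine ⟨M, instF (emb fac z0) (embT cln sup z0) near
    (γ * Fintype.card (Fin M1) / Fintype.card V) D hκ hD.le hD3, ?_, ?_, two_inst _ _ near _ D hκ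
    hD.le hD3, ?_⟩
  · rw [hMdef, Fintype.card_prod, Fintype.card_fin, Fintype.card_fun, Fintype.card_fin,
      Fintype.card_fin, pow_succ m, mul_comm]
    exact Nat.mul_le_mul (Nat.pow_le_pow_left hn5m _) hM1m
  · rw [clients_inst, Fintype.card_fin]
    exact hM1m
  intro Y _ _ R d t A K pt hR hd ht hK hpt
  have hGc : (Fintype.card (Equiv.Perm (Fin m) × Equiv.Perm (Fin M)) : ℝ) =
      (m.factorial : ℝ) * (M.factorial : ℝ) := by
    rw [Fintype.card_prod, Fintype.card_perm, Fintype.card_perm, Fintype.card_fin,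
      Fintype.card_fin]
    push_cast
    rfl
  have key := Pool.Agent.Lib.P325av.dbl (G := Equiv.Perm (Fin m) × Equiv.Perm (Fin M))
    (Zt := V → Fin (n ^ 5))
    (fun g z => ((instF (emb fac z) (embT cln sup z) near
      (γ * Fintype.card (Fin M1) / Fintype.card V) D hκ hD.le hD3).rename g.1 g.2).ApproxBy
      ({y | ∀ j, A j y ∈ K j} ∩ SosF pt t) pt (fun S => S.Nonempty) α)
    (fun g => ((instF (emb fac z0) (embT cln sup z0) near
      (γ * Fintype.card (Fin M1) / Fintype.card V) D hκ hD.le hD3).rename g.1 g.2).ApproxBy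
      ({y | ∀ j, A j y ∈ K j} ∩ SosF pt t) pt (fun S => S.Nonempty) α)
    ?_ (Real.exp (-(m : ℝ) ^ (1 / 72 : ℝ))) ?_
  · rw [hGc] at key
    exact key
  · intro z
    obtain ⟨h, h', hh⟩ := exists_rename (emb fac z0) (emb fac z) (embT cln sup z0)
      (embT cln sup z) near (γ * Fintype.card (Fin M1) / Fintype.card V) D hκ hD.le hD3
    refine ⟨(h, h'), fun g => ?_⟩
    rw [hh, rename_rename]
    rfl
  · intro g
    have h1 := hlift V hVn (cov near) (fun y => ?_) (fun T hT y => es_cov near (Q + 1)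
      (fun j => (hnear j).trans (Nat.le_succ _)) T hT y) r E
      hE hre hcov Y R d t A K (fun X => pt (sol fac g.1 X) (asg fac near sup cln g.1 g.2 X)) hR hd ht hK
      (fun X j => hpt _ _ (sol_nonempty fac g.1 X) (fun i => asg_mem fac near sup cln g.1 g.2 X i) j)
    · refine le_trans ?_ h1
      have h2 : Nat.card {z // ((instF (emb fac z) (embT cln sup z) near
          (γ * Fintype.card (Fin M1) / Fintype.card V) D hκ hD.le hD3).rename g.1 g.2).ApproxBy
          ({y | ∀ j, A j y ∈ K j} ∩ SosF pt t) pt (fun S => S.Nonempty) α} ≤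
          Nat.card {z : V → Fin (n ^ 5) // Cert ({y | ∀ j, A j y ∈ K j} ∩
            SosSet (Jun (V × Fin (n ^ 5)) Ω (t * (Q + 1)))
              (fun X : V × Fin (n ^ 5) → Ω =>
                pt (sol fac g.1 X) (asg fac near sup cln g.1 g.2 X)))
            (fun X : V × Fin (n ^ 5) → Ω =>
              pt (sol fac g.1 X) (asg fac near sup cln g.1 g.2 X))
            (fun X => cov near (fun i => X (i, z i))) s} := by
        refine Nat.card_le_card_of_injective (fun z => ⟨z.1, ?_⟩) ?_
        · obtain ⟨w, w0, hw1, hw2⟩ := z.2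
          rw [rename_inst] at hw1 hw2
          have hopt : (Fintype.card (Fin M1) : ℝ) * ((1 + γ) ^ 2 - (D - 1) * ε1) ≤
              (instF ((emb fac z.1).trans g.1.toEmbedding)
                ((embT cln sup z.1).trans g.2.toEmbedding) near
                (γ * Fintype.card (Fin M1) / Fintype.card V) D hκ hD.le hD3).opt
                (fun S => S.Nonempty) := by
            have : Nonempty {S : Finset (Fin m) // S.Nonempty} :=
              ⟨⟨sol fac g.1 (fun _ => Classical.arbitrary Ω), sol_nonempty fac g.1 _⟩⟩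
            exact le_ciInf fun S => cost_lower ((emb fac z.1).trans g.1.toEmbedding)
              ((embT cln sup z.1).trans g.2.toEmbedding) near D γ ε1 hD
              hD3 hγ0 hγ hκ hunc S.1 S.2
          refine ⟨(-1 / (Fintype.card (Fin M1) * (D - 1))) • w,
            (γ + D - w0 / Fintype.card (Fin M1)) / (D - 1), fun X => ?_, fun y hy => ?_⟩
          · have h3 := hw1 (sol fac g.1 X) (asg fac near sup cln g.1 g.2 X)
              (sol_nonempty fac g.1 X)
              (nearest_inst _ _ near _ D hκ hD.le hD3 _ _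
                (fun i => asg_mem fac near sup cln g.1 g.2 X i)
                (fun t ht => asg_near fac near sup hsup cln g.1 g.2 z.1 X t ht))
            rw [cost_sol fac g.1 z.1 _ near D γ hD hD3 hκ X] at h3
            rw [LinearMap.smul_apply, smul_eq_mul]
            have h4 : w (pt (sol fac g.1 X) (asg fac near sup cln g.1 g.2 X)) =
                γ * Fintype.card (Fin M1) + Fintype.card (Fin M1) * (1 + (D - 1) *
                (1 - cov near (fun i => X (i, z.1 i)))) - w0 := by linarith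
            rw [h4]
            field_simp
            ring
          · have h3 := hw2 y ⟨hy.1, sosF_sub_sol fac near sup cln g.1 g.2 pt t hy.2⟩
            have h4 : (Fintype.card (Fin M1) : ℝ) * (1 + γ + ξ) ≤ w y + w0 := by
              refine le_trans ?_ ((div_le_div_of_nonneg_right hopt hα0.le).trans h3)
              rw [mul_div_assoc]
              apply mul_le_mul_of_nonneg_left _ hMp.le
              rw [sub_div]
              have h5 : (D - 1) * ε1 / α ≤ ξ := by
                rw [div_le_iff₀ hα0]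
                calc (D - 1) * ε1 ≤ (D - 1) * (α * ξ / (D - 1)) :=
                      mul_le_mul_of_nonneg_left hεa hD1.le
                  _ = ξ * α := by field_simp
              have h6 : (1 + γ) ^ 2 / α = 1 + γ + 2 * ξ := by
                rw [hξ]
                ring
              rw [h6]
              linarith
            rw [LinearMap.smul_apply, smul_eq_mul]
            have h5 : -1 / (Fintype.card (Fin M1) * (D - 1)) * w y +
                (γ + D - w0 / Fintype.card (Fin M1)) / (D - 1) =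
                (γ + D - (w y + w0) / Fintype.card (Fin M1)) / (D - 1) := by
              field_simp
              ring
            rw [h5, hs_def, div_le_iff₀ hD1]
            have h6 : 1 + γ + ξ ≤ (w y + w0) / Fintype.card (Fin M1) := by
              rw [le_div_iff₀ hMp]
              linarith
            have h7 : (1 - ξ / (D - 1)) * (D - 1) = D - 1 - ξ := by
              field_simp
            rw [h7]
            linarith
        · intro z z' h
          exact Subtype.ext (by simpa using h)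
      exact_mod_cast h2
    · unfold cov
      exact Pool.Agent.Lib.P325P.mean_nonneg (fun j => by split_ifs <;> norm_num)

end Pool.Agent.Lib.P47s
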