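import Pool.Agent.Lib.P47s.FL3
import Pool.Agent.Lib.P47s.Bi

/-!
The lower bound for the trade-off between opening costs and service costs.
-/

open scoped BigOperators

namespace Pool.Agent.Lib.P47s

open Pool.Agent.Lib.P47c (Inst cov unc serv)
open Pool.Agent.Lib.P47c Pool.Agent.Lib.P47c.FL2Aux FL3Aux

namespace FLBAux

theorem wcost_eq {m M : ℕ} (I : Inst m M) (a b : ℝ) (S : Finset (Fin m)) :
    wcost I a b S = a * ∑ i ∈ S, I.opening i + b * serv I.space I.clients S := rfl

/-- The opening costs of a solution given by a labeling. -/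
theorem opening_sol {m M : ℕ} {V K Ω T : Type} [Fintype V] [Fintype K] [Fintype Ω] [Fintype T]
    (fac : (V × K) × Ω ↪ Fin m) (g : Equiv.Perm (Fin m)) (z : V → K) (ψ : T ↪ Fin M)
    (near : T → Finset (V × Ω)) (κ D : ℝ) (h1 : 1 ≤ D) (h3 : D ≤ 3) (hκ : 0 ≤ κ)
    (X : V × K → Ω) :
    ∑ i ∈ sol fac g X, (instF ((emb fac z).trans g.toEmbedding) ψ near κ D hκ h1 h3).opening i =
      κ * Fintype.card V := by
  classical
  have hA : ∀ p : V × Ω, p ∈ Finset.univ.image (fun v : V => (v, X (v, z v))) ↔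
      ((emb fac z).trans g.toEmbedding) p ∈ sol fac g X := by
    rintro ⟨v, c⟩
    rw [mem_sol]
    simp only [Finset.mem_image, Finset.mem_univ, true_and, Prod.mk.injEq]
    constructor
    · rintro ⟨v', h, h'⟩
      rw [← h, h']
    · intro h
      exact ⟨v, rfl, h⟩
  have hc : (Finset.univ.image (fun v : V => (v, X (v, z v)))).card = Fintype.card V := by
    rw [Finset.card_image_of_injective _ (fun v v' h => (Prod.ext_iff.1 h).1), Finset.card_univ]
  have hsub : (Finset.univ.image (fun v : V => (v, X (v, z v)))).map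
      ((emb fac z).trans g.toEmbedding) ⊆ sol fac g X := by
    intro i hi
    obtain ⟨p, hp, rfl⟩ := Finset.mem_map.1 hi
    exact (hA p).1 hp
  rw [← Finset.sum_subset hsub, Finset.sum_map]
  · rw [Finset.sum_congr rfl (g := fun _ => κ), Finset.sum_const, nsmul_eq_mul, mul_comm, hc]
    intro p _
    rcases FIAux.opening_eq ((emb fac z).trans g.toEmbedding) ψ near κ D hκ h1 h3
      (((emb fac z).trans g.toEmbedding) p) with ⟨_, hb⟩ | ⟨ha, _⟩
    · exact hb
    · exact absurd ⟨p, rfl⟩ ha
  · intro i hi hn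
    rcases FIAux.opening_eq ((emb fac z).trans g.toEmbedding) ψ near κ D hκ h1 h3 i with
      ⟨ha, _⟩ | ⟨_, hb⟩
    · obtain ⟨p, hp⟩ := ha
      rw [← hp] at hi
      exact absurd (Finset.mem_map.2 ⟨p, (hA p).2 hi, hp⟩) hn
    · exact hb

theorem wcost_sol {m M : ℕ} {V K Ω T : Type} [Fintype V] [Nonempty V] [Fintype K] [Nonempty K]
    [Fintype Ω] [Fintype T] [Nonempty T] (fac : (V × K) × Ω ↪ Fin m) (g : Equiv.Perm (Fin m))
    (z : V → K) (ψ : T ↪ Fin M) (near : T → Finset (V × Ω)) (D f a b : ℝ) (h1 : 1 < D) (h3 : D ≤ 3)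
    (hκ : 0 ≤ f * Fintype.card T / Fintype.card V) (X : V × K → Ω) :
    wcost (instF ((emb fac z).trans g.toEmbedding) ψ near (f * Fintype.card T / Fintype.card V) D hκ
      h1.le h3) a b (sol fac g X) =
      Fintype.card T * (a * f + b * (1 + (D - 1) * (1 - cov near (fun i => X (i, z i))))) := by
  have hV : (0 : ℝ) < Fintype.card V := by exact_mod_cast Fintype.card_pos
  have e1 := cost_sol fac g z ψ near D f h1 h3 hκ X
  have e2 := opening_sol fac g z ψ near _ D h1.le h3 hκ X
  rw [cost_eq, e2] at e1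
  rw [wcost_eq, e2]
  have e3 : f * Fintype.card T / Fintype.card V * Fintype.card V = f * (Fintype.card T : ℝ) := by
    field_simp
  rw [e3] at e1 ⊢
  have e4 : serv (instF ((emb fac z).trans g.toEmbedding) ψ near
      (f * Fintype.card T / Fintype.card V) D hκ h1.le h3).space
      (instF ((emb fac z).trans g.toEmbedding) ψ near
      (f * Fintype.card T / Fintype.card V) D hκ h1.le h3).clients (sol fac g X) =
      Fintype.card T * (1 + (D - 1) * (1 - cov near (fun i => X (i, z i)))) := by linarith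
  rw [e4]
  ring

theorem cost_lower2 {m M : ℕ} {V Ω T : Type} [Fintype V] [Nonempty V] [Fintype Ω] [Fintype T]
    (φ : V × Ω ↪ Fin m) (ψ : T ↪ Fin M) (near : T → Finset (V × Ω)) (D f a ε : ℝ) (h1 : 1 < D)
    (h3 : D ≤ 3) (hf : f = (D - 1) * Real.exp (-a))
    (hκ : 0 ≤ f * Fintype.card T / Fintype.card V)
    (hunc : ∀ A : Finset (V × Ω),
      Real.exp (-((A.card : ℝ) / Fintype.card V)) - ε ≤ unc near A)
    (S : Finset (Fin m)) (hS : S.Nonempty) :
    (Fintype.card T : ℝ) * (1 + f + a * f - (D - 1) * ε) ≤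
      (instF φ ψ near (f * Fintype.card T / Fintype.card V) D hκ h1.le h3).cost S := by
  classical
  rw [cost_inst φ ψ near _ D hκ h1.le h3 S hS (Finset.univ.filter (fun p => φ p ∈ S))
    (fun p => by rw [Finset.mem_filter]; exact ⟨fun h => h.2, fun h => ⟨Finset.mem_univ _, h⟩⟩)]
  set A := Finset.univ.filter (fun p => φ p ∈ S) with hA
  have hV : (0 : ℝ) < Fintype.card V := by exact_mod_cast Fintype.card_pos
  set β := (A.card : ℝ) / Fintype.card V with hβ
  have e1 : f * Fintype.card T / Fintype.card V * A.card = Fintype.card T * (f * β) := by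
    rw [hβ]
    field_simp
  rw [e1]
  have h4 := hunc A
  have hf0 : 0 ≤ f := by
    rw [hf]
    exact mul_nonneg (by linarith) (Real.exp_pos _).le
  have h5 : f * (1 + a - β) ≤ (D - 1) * Real.exp (-β) := by
    have e2 : (D - 1) * Real.exp (-β) = f * Real.exp (a - β) := by
      rw [hf, mul_assoc, ← Real.exp_add]
      congr 2
      ring
    rw [e2]
    apply mul_le_mul_of_nonneg_left _ hf0
    have := Real.add_one_le_exp (a - β)
    linarith
  have h6 : (D - 1) * (Real.exp (-β) - ε) ≤ (D - 1) * unc near A :=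
    mul_le_mul_of_nonneg_left h4 (by linarith)
  have hM : (0 : ℝ) ≤ Fintype.card T := Nat.cast_nonneg _
  have h7 : 1 + f + a * f - (D - 1) * ε ≤ f * β + (1 + (D - 1) * unc near A) := by nlinarith
  calc (Fintype.card T : ℝ) * (1 + f + a * f - (D - 1) * ε) ≤
        Fintype.card T * (f * β + (1 + (D - 1) * unc near A)) :=
        mul_le_mul_of_nonneg_left h7 hM
    _ = _ := by ring

end FLBAux

open FLBAux

theorem fLow4 (D : ℝ) (hD : 1 < D) (hD3 : D ≤ 3) (a b : ℝ) (hb1 : 1 ≤ b)
    (ha1 : 0 ≤ a) (hb : b < 1 + (D - 1) * Real.exp (-a)) :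
    ∃ Q m0 : ℕ, ∀ m ≥ m0, ∃ (M : ℕ) (I : Inst m M), M ≤ m ^ Q ∧ I.clients.card ≤ m ∧
      I.TwoDistance D ∧
      ∀ (Y : Type) [AddCommGroup Y] [Module ℝ Y] (R d t : ℕ)
        (A : Fin R → Y →ₗ[ℝ] (Fin d → ℝ)) (C : Fin R → Set (Fin d → ℝ))
        (pt : Finset (Fin m) → (Fin M → Fin m) → Y),
        (R : ℝ) ≤ Real.exp ((m : ℝ) ^ (1 / 72 : ℝ)) → (d : ℝ) ≤ (m : ℝ) ^ (1 / 72 : ℝ) →
        (t : ℝ) ≤ (m : ℝ) ^ (1 / 72 : ℝ) → (∀ i, Convex ℝ (C i)) →
        (∀ S σ, S.Nonempty → (∀ j, σ j ∈ S) → ∀ i, A i (pt S σ) ∈ C i) →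
        (Nat.card {g : Equiv.Perm (Fin m) × Equiv.Perm (Fin M) //
          Bifactor (I.rename g.1 g.2) ({y | ∀ i, A i y ∈ C i} ∩ SosF pt t) pt a b} : ℝ) ≤
          Real.exp (-(m : ℝ) ^ (1 / 72 : ℝ)) * (m.factorial * M.factorial) := by
  classical
  have hD1 : 0 < D - 1 := by linarith
  have hb0 : 0 < b := by linarith
  set f := (D - 1) * Real.exp (-a) with hf
  have hf0 : 0 < f := mul_pos hD1 (Real.exp_pos _)
  have hfD : f ≤ D - 1 := by
    have h1 : Real.exp (-a) ≤ 1 := Real.exp_le_one_iff.2 (by linarith)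
    have := mul_le_mul_of_nonneg_left h1 hD1.le
    rw [mul_one] at this
    exact this
  set ξ := (1 + f - b) / (2 * (b * (D - 1))) with hξ
  have hbD : 0 < b * (D - 1) := mul_pos hb0 hD1
  have hξ0 : 0 < ξ := div_pos (by linarith) (by linarith)
  have hξ1 : ξ < 1 := by
    rw [hξ, div_lt_one (by linarith)]
    nlinarith
  have hξe : 2 * ξ * (b * (D - 1)) = 1 + f - b := by
    rw [hξ]
    field_simp
  set s := 1 - ξ with hs_def
  have hs0 : 0 < s := by rw [hs_def]; linarith
  have hs : s < 1 := by rw [hs_def]; linarith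
  have hsq : Real.sqrt s < 1 := by
    rw [Real.sqrt_lt' one_pos]
    linarith
  set ε1 := ξ with hε1
  have hε0 : 0 < ε1 := hξ0
  obtain ⟨Ω, fΩ, dΩ, nΩ, Q, C, n0, hk, hC, hbase⟩ := baseP ε1 hε0
  obtain ⟨m0, hlift⟩ := liftJ Ω C (Q + 1) (Q + 1) n0 hC s 1 hs0 hs hsq
  refine ⟨Q + 1 + 1, m0, fun m hm => ?_⟩
  obtain ⟨n, hn0, hn1, hnm, hlift⟩ := hlift m hm
  obtain ⟨V, fV, M1, near, r, E, hVne, hM, hMn, hVn, hnear, hre, hE, hcov, hunc⟩ := hbase n hn0
  have hn5 : 1 ≤ n ^ 5 := Nat.one_le_pow _ _ (by omega)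
  have hcard : Fintype.card ((V × Fin (n ^ 5)) × Ω) ≤ Fintype.card (Fin m) := by
    rw [Fintype.card_prod, Fintype.card_prod, Fintype.card_fin, Fintype.card_fin]
    refine le_trans ?_ hnm
    gcongr
  have hM1m : M1 ≤ m := by
    calc M1 ≤ C * n := hMn
      _ ≤ C * n * (n ^ 5 * Fintype.card Ω) := Nat.le_mul_of_pos_right _ (by positivity)
      _ = C * n * n ^ 5 * Fintype.card Ω := by ring
      _ ≤ m := hnm
  have hn5m : n ^ 5 ≤ m := by
    calc n ^ 5 ≤ n ^ 5 * (C * n * Fintype.card Ω) := Nat.le_mul_of_pos_right _ (by positivity)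
      _ = C * n * n ^ 5 * Fintype.card Ω := by ring
      _ ≤ m := hnm
  obtain ⟨fac⟩ := Function.Embedding.nonempty_of_card_le hcard
  have : Nonempty (Fin (n ^ 5)) := ⟨⟨0, by omega⟩⟩
  have : Nonempty (Fin M1) := ⟨⟨0, hM⟩⟩
  let z0 : V → Fin (n ^ 5) := fun _ => ⟨0, by omega⟩
  have hVp : (0 : ℝ) < Fintype.card V := by exact_mod_cast Fintype.card_pos
  have hMp : (0 : ℝ) < Fintype.card (Fin M1) := by exact_mod_cast Fintype.card_pos
  have hκ : 0 ≤ f * Fintype.card (Fin M1) / Fintype.card V := by positivity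
  have hsupE : ∀ t : Fin M1, ∃ f : Fin (Q + 1) → V, ∀ p ∈ near t, ∃ q, f q = p.1 := by
    intro t
    obtain ⟨f, hf⟩ := exists_sup ((near t).image Prod.fst) Q
      (Finset.card_image_le.trans (hnear t))
    exact ⟨f, fun p hp => hf p.1 (Finset.mem_image_of_mem _ hp)⟩
  choose sup hsup using hsupE
  set M := Fintype.card (Fin M1 × (Fin (Q + 1) → Fin (n ^ 5))) with hMdef
  let cln : Fin M1 × (Fin (Q + 1) → Fin (n ^ 5)) ≃ Fin M := Fintype.equivFin _
  refine ⟨M, instF (emb fac z0) (embT cln sup z0) near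
    (f * Fintype.card (Fin M1) / Fintype.card V) D hκ hD.le hD3, ?_, ?_, two_inst _ _ near _ D hκ
    hD.le hD3, ?_⟩
  · rw [hMdef, Fintype.card_prod, Fintype.card_fin, Fintype.card_fun, Fintype.card_fin,
      Fintype.card_fin, pow_succ m, mul_comm]
    exact Nat.mul_le_mul (Nat.pow_le_pow_left hn5m _) hM1m
  · rw [clients_inst, Fintype.card_fin]
    exact hM1m
  intro Y _ _ R d t A K pt hR hd ht hK hpt
  have hGc : (Fintype.card (Equiv.Perm (Fin m) × Equiv.Perm (Fin M)) : ℝ) =
      (m.factorial : ℝ) * (M.factorial : ℝ) := by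
    rw [Fintype.card_prod, Fintype.card_perm, Fintype.card_perm, Fintype.card_fin,
      Fintype.card_fin]
    push_cast
    rfl
  have key := Pool.Agent.Lib.P325av.dbl (G := Equiv.Perm (Fin m) × Equiv.Perm (Fin M))
    (Zt := V → Fin (n ^ 5))
    (fun g z => Bifactor ((instF (emb fac z) (embT cln sup z) near
      (f * Fintype.card (Fin M1) / Fintype.card V) D hκ hD.le hD3).rename g.1 g.2)
      ({y | ∀ j, A j y ∈ K j} ∩ SosF pt t) pt a b)
    (fun g => Bifactor ((instF (emb fac z0) (embT cln sup z0) near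
      (f * Fintype.card (Fin M1) / Fintype.card V) D hκ hD.le hD3).rename g.1 g.2)
      ({y | ∀ j, A j y ∈ K j} ∩ SosF pt t) pt a b)
    ?_ (Real.exp (-(m : ℝ) ^ (1 / 72 : ℝ))) ?_
  · rw [hGc] at key
    exact key
  · intro z
    obtain ⟨h, h', hh⟩ := exists_rename (emb fac z0) (emb fac z) (embT cln sup z0)
      (embT cln sup z) near (f * Fintype.card (Fin M1) / Fintype.card V) D hκ hD.le hD3
    refine ⟨(h, h'), fun g => ?_⟩
    rw [hh, rename_rename]
    rfl
  · intro g
    have h1 := hlift V hVn (cov near) (fun y => ?_) (fun T hT y => es_cov near (Q + 1)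
      (fun j => (hnear j).trans (Nat.le_succ _)) T hT y) r E
      hE hre hcov Y R d t A K (fun X => pt (sol fac g.1 X) (asg fac near sup cln g.1 g.2 X)) hR hd ht hK
      (fun X j => hpt _ _ (sol_nonempty fac g.1 X) (fun i => asg_mem fac near sup cln g.1 g.2 X i) j)
    · refine le_trans ?_ h1
      have h2 : Nat.card {z // Bifactor ((instF (emb fac z) (embT cln sup z) near
          (f * Fintype.card (Fin M1) / Fintype.card V) D hκ hD.le hD3).rename g.1 g.2)
          ({y | ∀ j, A j y ∈ K j} ∩ SosF pt t) pt a b} ≤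
          Nat.card {z : V → Fin (n ^ 5) // Cert ({y | ∀ j, A j y ∈ K j} ∩
            SosSet (Jun (V × Fin (n ^ 5)) Ω (t * (Q + 1)))
              (fun X : V × Fin (n ^ 5) → Ω =>
                pt (sol fac g.1 X) (asg fac near sup cln g.1 g.2 X)))
            (fun X : V × Fin (n ^ 5) → Ω =>
              pt (sol fac g.1 X) (asg fac near sup cln g.1 g.2 X))
            (fun X => cov near (fun i => X (i, z i))) s} := by
        refine Nat.card_le_card_of_injective (fun z => ⟨z.1, ?_⟩) ?_
        · obtain ⟨w, w0, hw1, hw2⟩ := z.2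
          rw [rename_inst] at hw1 hw2
          have hopt : (Fintype.card (Fin M1) : ℝ) * (1 + f + a * f - (D - 1) * ε1) ≤
              (instF ((emb fac z.1).trans g.1.toEmbedding)
                ((embT cln sup z.1).trans g.2.toEmbedding) near
                (f * Fintype.card (Fin M1) / Fintype.card V) D hκ hD.le hD3).opt
                (fun S => S.Nonempty) := by
            have : Nonempty {S : Finset (Fin m) // S.Nonempty} :=
              ⟨⟨sol fac g.1 (fun _ => Classical.arbitrary Ω), sol_nonempty fac g.1 _⟩⟩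
            exact le_ciInf fun S => cost_lower2 ((emb fac z.1).trans g.1.toEmbedding)
              ((embT cln sup z.1).trans g.2.toEmbedding) near D f a ε1 hD
              hD3 hf hκ hunc S.1 S.2
          refine ⟨(-1 / (Fintype.card (Fin M1) * (b * (D - 1)))) • w,
            (a * f + b * D - w0 / Fintype.card (Fin M1)) / (b * (D - 1)), fun X => ?_,
            fun y hy => ?_⟩
          · have h3 := hw1 (sol fac g.1 X) (asg fac near sup cln g.1 g.2 X)
              (sol_nonempty fac g.1 X)
              (nearest_inst _ _ near _ D hκ hD.le hD3 _ _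
                (fun i => asg_mem fac near sup cln g.1 g.2 X i)
                (fun t ht => asg_near fac near sup hsup cln g.1 g.2 z.1 X t ht))
            rw [wcost_sol fac g.1 z.1 _ near D f a b hD hD3 hκ X] at h3
            rw [LinearMap.smul_apply, smul_eq_mul]
            have h4 : w (pt (sol fac g.1 X) (asg fac near sup cln g.1 g.2 X)) =
                Fintype.card (Fin M1) * (a * f + b * (1 + (D - 1) *
                (1 - cov near (fun i => X (i, z.1 i))))) - w0 := by linarith
            rw [h4]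
            field_simp
            ring
          · have h3 := hw2 y ⟨hy.1, sosF_sub_sol fac near sup cln g.1 g.2 pt t hy.2⟩
            have h4 : (Fintype.card (Fin M1) : ℝ) * (1 + f + a * f - (D - 1) * ε1) ≤
                w y + w0 := hopt.trans h3
            rw [LinearMap.smul_apply, smul_eq_mul]
            have h5 : -1 / (Fintype.card (Fin M1) * (b * (D - 1))) * w y +
                (a * f + b * D - w0 / Fintype.card (Fin M1)) / (b * (D - 1)) =
                (a * f + b * D - (w y + w0) / Fintype.card (Fin M1)) / (b * (D - 1)) := by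
              field_simp
              ring
            rw [h5, hs_def, div_le_iff₀ hbD]
            have h6 : 1 + f + a * f - (D - 1) * ε1 ≤ (w y + w0) / Fintype.card (Fin M1) := by
              rw [le_div_iff₀ hMp]
              linarith
            have h7 : (D - 1) * ξ ≤ ξ * (b * (D - 1)) := by
              have : 0 ≤ ξ * (D - 1) * (b - 1) :=
                mul_nonneg (mul_nonneg hξ0.le hD1.le) (by linarith)
              nlinarith
            nlinarith
        · intro z z' h
          exact Subtype.ext (by simpa using h)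
      exact_mod_cast h2
    · unfold cov
      exact Pool.Agent.Lib.P325P.mean_nonneg (fun j => by split_ifs <;> norm_num)

end Pool.Agent.Lib.P47s
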