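import Pool.Agent.Lib.P47c.ServM
import Pool.Agent.Lib.P47c.FU
import Pool.Agent.Lib.P47s.Bi

/-!
The standard linear program for facility location with two distances: the trade-off between opening
costs and service costs.
-/

open scoped BigOperators

namespace Pool.Agent.Lib.P47s

open Pool.Agent.Lib.P47c Pool.Agent.Lib.P47c.FUAux

theorem round2 {m : ℕ} {J : Type} [Fintype J] (f y : Fin m → ℝ) (hf : ∀ i, 0 ≤ f i)
    (hy : ∀ i, 0 ≤ y i) (hy1 : 1 ≤ ∑ i, y i) (N : J → Finset (Fin m)) (zz : J → ℝ)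
    (hz : ∀ j, 0 ≤ zz j) (hzN : ∀ j, 1 - ∑ i ∈ N j, y i ≤ zz j) (D a : ℝ) (hD : 1 < D)
    (ha : 1 ≤ a) :
    ∃ S : Finset (Fin m), S.Nonempty ∧
      ∑ i ∈ S, f i + ∑ j, (if Disjoint S (N j) then D else 1) ≤
        a * ∑ i, f i * y i +
          (1 + (D - 1) * Real.exp (-a)) * (Fintype.card J + (D - 1) * ∑ j, zz j) := by
  set Y : ℝ := ∑ i, y i with hY
  have hY0 : 0 < Y := lt_of_lt_of_le one_pos hy1
  obtain ⟨K, hK⟩ := exists_nat_ge (a * Y)
  have hK1 : (1 : ℝ) ≤ K := by nlinarith
  have hK0 : (0 : ℝ) < K := lt_of_lt_of_le one_pos hK1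
  set θ : ℝ := (a - 1 / Y) / K with hθdef
  have hYinv : 1 / Y ≤ 1 := by
    rw [div_le_one hY0]
    exact hy1
  have hθ : 0 ≤ θ := div_nonneg (by linarith) hK0.le
  have hθ1 : θ * Y ≤ 1 := by
    rw [hθdef, div_mul_eq_mul_div, div_le_one hK0]
    have : (a - 1 / Y) * Y = a * Y - 1 := by
      field_simp
    rw [this]
    linarith
  have hKθ : K * θ = a - 1 / Y := by
    rw [hθdef]
    field_simp
  have hwi : ∀ (i : Fin m) (j : J), 0 ≤ (if i ∈ N j then (0 : ℝ) else (D - 1)) := by
    intro i j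
    split_ifs
    · exact le_rfl
    · linarith
  choose S hS using fun i : Fin m => picks f y hf hy N θ hθ hθ1 K
    (fun j => if i ∈ N j then 0 else D - 1) (hwi i)
  set F : ℝ := ∑ i, f i * y i with hF
  set q : J → ℝ := fun j => 1 - θ * ∑ i ∈ N j, y i with hq
  have hS' : ∀ i, ∑ k ∈ S i, f k + ∑ j, (if Disjoint (S i) (N j) then
      (if i ∈ N j then 0 else D - 1) else 0) ≤
      K * θ * F + ∑ j, (if i ∈ N j then 0 else D - 1) * q j ^ K := hS
  have hyN : ∀ j, ∑ i ∈ N j, y i ≤ Y := fun j =>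
    Finset.sum_le_sum_of_subset_of_nonneg (Finset.subset_univ _) fun i _ _ => hy i
  have hyN0 : ∀ j, 0 ≤ ∑ i ∈ N j, y i := fun j => Finset.sum_nonneg fun i _ => hy i
  obtain ⟨i, hi⟩ := exists_le_avg (fun i => y i / Y)
    (fun i => f i + (K * θ * F + ∑ j, (if i ∈ N j then 0 else D - 1) * q j ^ K))
    (fun i => div_nonneg (hy i) hY0.le) (by rw [← Finset.sum_div, ← hY, div_self hY0.ne'])
  have hav : ∑ i, y i / Y * (f i + (K * θ * F + ∑ j, (if i ∈ N j then 0 else D - 1) * q j ^ K)) =
      1 / Y * F + K * θ * F + ∑ j, (D - 1) * ((1 - (∑ i ∈ N j, y i) / Y) * q j ^ K) := by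
    have e2 : ∀ i, y i / Y * (f i + (K * θ * F + ∑ j, (if i ∈ N j then 0 else D - 1) * q j ^ K)) =
        1 / Y * (f i * y i) + y i * (K * θ * F / Y) +
          ∑ j, q j ^ K / Y * (y i * (if i ∈ N j then 0 else D - 1)) := by
      intro i
      have e3 : ∑ j, q j ^ K / Y * (y i * (if i ∈ N j then 0 else D - 1)) =
          y i / Y * ∑ j, (if i ∈ N j then 0 else D - 1) * q j ^ K := by
        rw [Finset.mul_sum]
        exact Finset.sum_congr rfl fun j _ => by ring
      rw [e3]
      ring
    rw [Finset.sum_congr rfl fun i _ => e2 i, Finset.sum_add_distrib, Finset.sum_add_distrib,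
      ← Finset.mul_sum, Finset.sum_comm, ← Finset.sum_mul, ← hY, ← hF]
    congr 1
    · congr 1
      field_simp
    · refine Finset.sum_congr rfl fun j _ => ?_
      rw [← Finset.mul_sum, sum_miss, ← hY]
      field_simp
  have hi' : f i + (K * θ * F + ∑ j, (if i ∈ N j then 0 else D - 1) * q j ^ K) ≤
      1 / Y * F + K * θ * F + ∑ j, (D - 1) * ((1 - (∑ i ∈ N j, y i) / Y) * q j ^ K) := by
    rw [← hav]
    exact hi
  have hcov : ∀ j, (1 - (∑ i ∈ N j, y i) / Y) * q j ^ K ≤ zz j + Real.exp (-a) := by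
    intro j
    set s : ℝ := ∑ i ∈ N j, y i with hs
    have hs0 : 0 ≤ s := hyN0 j
    have hsY : s ≤ Y := hyN j
    have h1 : 1 - s / Y ≤ Real.exp (-(s / Y)) := by
      have := Real.add_one_le_exp (-(s / Y))
      linarith
    have h1' : 0 ≤ 1 - s / Y := by
      rw [sub_nonneg, div_le_one hY0]
      exact hsY
    have hq1 : q j ≤ Real.exp (-(θ * s)) := by
      have := Real.add_one_le_exp (-(θ * s))
      have e : q j = 1 - θ * s := rfl
      linarith
    have hq0 : 0 ≤ q j := by
      have e : q j = 1 - θ * s := rfl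
      have := mul_le_mul_of_nonneg_left hsY hθ
      linarith
    have h2 : q j ^ K ≤ Real.exp (-(θ * s)) ^ K := pow_le_pow_left₀ hq0 hq1 K
    have h3 : (1 - s / Y) * q j ^ K ≤ Real.exp (-(s / Y)) * Real.exp (-(θ * s)) ^ K :=
      mul_le_mul h1 h2 (pow_nonneg hq0 K) (Real.exp_pos _).le
    have h4 : Real.exp (-(s / Y)) * Real.exp (-(θ * s)) ^ K = Real.exp (-a * s) := by
      rw [← Real.exp_nat_mul, ← Real.exp_add]
      congr 1
      have : (K : ℝ) * -(θ * s) = -(K * θ) * s := by ring
      rw [this, hKθ]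
      field_simp
      ring
    rw [h4] at h3
    have hez : (1 : ℝ) * zz j = zz j := one_mul _
    have hE0 : 0 < Real.exp (-a) := Real.exp_pos _
    by_cases hc : 1 ≤ s
    · have h5 : Real.exp (-a * s) ≤ Real.exp (-a) := by
        apply Real.exp_le_exp.2
        nlinarith
      linarith [hz j]
    · push Not at hc
      -- convexity
      have h6 : Real.exp (-a * s) ≤ (1 - s) * 1 + s * Real.exp (-a) := by
        have hconv := convexOn_exp.2 (Set.mem_univ (0 : ℝ)) (Set.mem_univ (-a))
          (sub_nonneg.2 hc.le) hs0 (by ring : (1 - s) + s = 1)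
        simp only [smul_eq_mul, mul_zero, zero_add, Real.exp_zero] at hconv
        rw [mul_comm (-a) s]
        exact hconv
      have h7 : s * Real.exp (-a) ≤ Real.exp (-a) := by
        nlinarith
      have h8 := hzN j
      linarith
  have hsum : ∑ j, (D - 1) * ((1 - (∑ i ∈ N j, y i) / Y) * q j ^ K) ≤
      (D - 1) * ∑ j, zz j + Fintype.card J * ((D - 1) * Real.exp (-a)) := by
    have h1 : ∑ j, (D - 1) * ((1 - (∑ i ∈ N j, y i) / Y) * q j ^ K) ≤
        ∑ j : J, (D - 1) * (zz j + Real.exp (-a)) :=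
      Finset.sum_le_sum fun j _ => mul_le_mul_of_nonneg_left (hcov j) (by linarith)
    have h2 : ∑ j : J, (D - 1) * (zz j + Real.exp (-a)) =
        (D - 1) * ∑ j, zz j + Fintype.card J * ((D - 1) * Real.exp (-a)) := by
      rw [← Finset.mul_sum, Finset.sum_add_distrib, Finset.sum_const, Finset.card_univ,
        nsmul_eq_mul]
      ring
    rw [h2] at h1
    exact h1
  refine ⟨insert i (S i), Finset.insert_nonempty _ _, ?_⟩
  have g1 := sum_insert_le f hf i (S i)
  have g2 := ind_insert_le N (fun _ => D - 1) i (S i)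
  have g3 := hS' i
  have g4 : ∑ j, (if Disjoint (insert i (S i)) (N j) then D else 1) =
      Fintype.card J + ∑ j, (if Disjoint (insert i (S i)) (N j) then D - 1 else 0) := by
    have : ∀ j, (if Disjoint (insert i (S i)) (N j) then D else 1) =
        1 + (if Disjoint (insert i (S i)) (N j) then D - 1 else 0) := by
      intro j
      split_ifs <;> ring
    rw [Finset.sum_congr rfl fun j _ => this j, Finset.sum_add_distrib]
    simp
  have hF0 : 0 ≤ F := Finset.sum_nonneg fun i _ => mul_nonneg (hf i) (hy i)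
  have hZ0 : 0 ≤ ∑ j, zz j := Finset.sum_nonneg fun j _ => hz j
  have g5 : 1 / Y * F + K * θ * F = a * F := by
    rw [hKθ]
    ring
  have hE : 0 ≤ (D - 1) * Real.exp (-a) := mul_nonneg (by linarith) (Real.exp_pos _).le
  have g6 : 0 ≤ (D - 1) * Real.exp (-a) * ((D - 1) * ∑ j, zz j) :=
    mul_nonneg hE (mul_nonneg (by linarith) hZ0)
  rw [g4]
  have g7 : (1 + (D - 1) * Real.exp (-a)) * (Fintype.card J + (D - 1) * ∑ j, zz j) =
      Fintype.card J + (D - 1) * ∑ j, zz j + Fintype.card J * ((D - 1) * Real.exp (-a)) +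
        (D - 1) * Real.exp (-a) * ((D - 1) * ∑ j, zz j) := by ring
  rw [g7]
  linarith

theorem fU2 (D : ℝ) (hD : 1 < D) (m M : ℕ) : ∃ (Y : Type) (_ : AddCommGroup Y) (_ : Module ℝ Y) (R : ℕ)
      (A : Fin R → Y →ₗ[ℝ] ℝ) (c : Fin R → ℝ) (pt : Finset (Fin m) → (Fin M → Fin m) → Y),
      R ≤ 2 * (m + 1) * (M + 1) ∧
      (∀ S σ, S.Nonempty → (∀ j, σ j ∈ S) → ∀ i, A i (pt S σ) ≤ c i) ∧
      ∀ I : Inst m M, I.TwoDistance D → ∀ a b : ℝ, 1 ≤ a → 1 + (D - 1) * Real.exp (-a) ≤ b →
        Bifactor I {y | ∀ i, A i y ≤ c i} pt a b := by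
  classical
  let e := Fintype.equivFin (JU m M)
  refine ⟨YU m M, inferInstance, inferInstance, Fintype.card (JU m M), fun j => AU m M (e.symm j),
    fun j => CU m M (e.symm j), PU m M, card_JU m M,
    fun S σ hS hσ j => PU_feasible m M S σ hS hσ (e.symm j), ?_⟩
  intro I hI a b ha hb
  have hb1 : 1 ≤ b := by
    have : 0 ≤ (D - 1) * Real.exp (-a) := mul_nonneg (by linarith) (Real.exp_pos _).le
    linarith
  let N : Fin M → Finset (Fin m) := fun j =>
    Finset.univ.filter (fun i => I.space.dist (Sum.inl i) (Sum.inr j) = 1)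
  have hN : ∀ i j, i ∈ N j ↔ I.space.dist (Sum.inl i) (Sum.inr j) = 1 := by
    intro i j
    simp [N]
  -- the cost of a nonempty set
  have hcost : ∀ S : Finset (Fin m), S.Nonempty →
      I.cost S = ∑ i ∈ S, I.opening i + ∑ j ∈ I.clients, (if Disjoint S (N j) then D else 1) := by
    intro S hS
    rw [cost_eq, serv_eq I.space I.clients S hS (fun j => if Disjoint S (N j) then D else 1)]
    · intro j hj i hi
      by_cases hd : Disjoint S (N j)
      · rw [if_pos hd]
        rcases hI i j hj with h | h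
        · exact absurd ((hN i j).2 h) (Finset.disjoint_left.1 hd hi)
        · exact h.ge
      · rw [if_neg hd]
        rcases hI i j hj with h | h
        · exact h.ge
        · rw [h]
          exact hD.le
    · intro j hj
      by_cases hd : Disjoint S (N j)
      · obtain ⟨i, hi⟩ := hS
        refine ⟨i, hi, ?_⟩
        rw [if_pos hd]
        rcases hI i j hj with h | h
        · exact absurd ((hN i j).2 h) (Finset.disjoint_left.1 hd hi)
        · exact h
      · obtain ⟨i, hiS, hiN⟩ := Finset.not_disjoint_iff.1 hd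
        refine ⟨i, hiS, ?_⟩
        rw [if_neg hd]
        exact (hN i j).1 hiN
  refine ⟨a • ∑ i, I.opening i • uy m M i +
    b • ∑ j ∈ I.clients, ∑ i, I.space.dist (Sum.inl i) (Sum.inr j) • ux m M i j, 0, ?_, ?_⟩
  · intro S σ hS hσ
    have h0 : wcost I a b S = a * ∑ i ∈ S, I.opening i + b * serv I.space I.clients S := rfl
    rw [h0, serv_nearest I S hS σ hσ]
    simp only [LinearMap.add_apply, LinearMap.sum_apply, LinearMap.smul_apply, uy_apply, ux_apply,
      smul_eq_mul, PU]
    have h1 : ∑ i, I.opening i * (if i ∈ S then 1 else 0) = ∑ i ∈ S, I.opening i := by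
      simp
    have h2 : ∀ j, ∑ i, I.space.dist (Sum.inl i) (Sum.inr j) * (if σ j = i then 1 else 0) =
        I.space.dist (Sum.inl (σ j)) (Sum.inr j) := by
      intro j
      simp
    rw [h1, Finset.sum_congr rfl fun j _ => h2 j, add_zero]
  · intro y hy
    have hy' : ∀ j : JU m M, AU m M j y ≤ CU m M j := by
      intro j
      have := hy (e j)
      simpa using this
    have hy0 : ∀ i, 0 ≤ y.1 i := by
      intro i
      have := hy' (Sum.inl i)
      simp only [AU, CU, LinearMap.neg_apply, uy_apply] at this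
      linarith
    have hy1 : 1 ≤ ∑ i, y.1 i := by
      have := hy' (Sum.inr (Sum.inl ()))
      simp only [AU, CU, LinearMap.neg_apply, LinearMap.sum_apply, uy_apply] at this
      linarith
    have hx0 : ∀ i j, 0 ≤ y.2 i j := by
      intro i j
      have := hy' (Sum.inr (Sum.inr (Sum.inl (i, j))))
      simp only [AU, CU, LinearMap.neg_apply, ux_apply] at this
      linarith
    have hxy : ∀ i j, y.2 i j ≤ y.1 i := by
      intro i j
      have := hy' (Sum.inr (Sum.inr (Sum.inr (Sum.inl (i, j)))))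
      simp only [AU, CU, LinearMap.sub_apply, ux_apply, uy_apply] at this
      linarith
    have hx1 : ∀ j, 1 ≤ ∑ i, y.2 i j := by
      intro j
      have := hy' (Sum.inr (Sum.inr (Sum.inr (Sum.inr j))))
      simp only [AU, CU, LinearMap.neg_apply, LinearMap.sum_apply, ux_apply] at this
      linarith
    let s : Fin M → ℝ := fun j => ∑ i ∈ N j, y.2 i j
    have hsy : ∀ j, s j ≤ ∑ i ∈ N j, y.1 i := fun j => Finset.sum_le_sum fun i _ => hxy i j
    let J := {j // j ∈ I.clients}
    obtain ⟨S, hS, hval⟩ := round2 (J := J) I.opening y.1 I.opening_nonneg hy0 hy1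
      (fun j => N j.1) (fun j => max 0 (1 - s j.1)) (fun j => le_max_left _ _)
      (fun j => le_trans (by linarith [hsy j.1]) (le_max_right _ _)) D a hD ha
    have hopt : I.opt (fun S => S.Nonempty) ≤ I.cost S := by
      unfold Inst.opt
      exact ciInf_le (f := fun S : {S : Finset (Fin m) // S.Nonempty} => I.cost S.1)
        (Set.finite_range _).bddBelow ⟨S, hS⟩
    rw [hcost S hS] at hopt
    have hw : (a • ∑ i, I.opening i • uy m M i +
        b • ∑ j ∈ I.clients, ∑ i, I.space.dist (Sum.inl i) (Sum.inr j) • ux m M i j :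
          YU m M →ₗ[ℝ] ℝ) y =
        a * ∑ i, I.opening i * y.1 i +
          b * ∑ j ∈ I.clients, ∑ i, I.space.dist (Sum.inl i) (Sum.inr j) * y.2 i j := by
      simp only [LinearMap.add_apply, LinearMap.sum_apply, LinearMap.smul_apply, uy_apply,
        ux_apply, smul_eq_mul]
    rw [hw, add_zero]
    have hsub : ∀ g : Fin M → ℝ, ∑ j : J, g j.1 = ∑ j ∈ I.clients, g j := fun g =>
      Finset.sum_coe_sort I.clients g
    rw [hsub (fun j => if Disjoint S (N j) then D else 1), hsub (fun j => max 0 (1 - s j)),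
      Fintype.card_coe] at hval
    -- the distances
    have hdist : ∀ j ∈ I.clients, 1 + (D - 1) * max 0 (1 - s j) ≤
        ∑ i, I.space.dist (Sum.inl i) (Sum.inr j) * y.2 i j := by
      intro j hj
      have h1 : ∑ i, I.space.dist (Sum.inl i) (Sum.inr j) * y.2 i j =
          ∑ i, y.2 i j + (D - 1) * (∑ i, y.2 i j - s j) := by
        have h2 : s j = ∑ i, (if i ∈ N j then y.2 i j else 0) := by
          simp only [s]
          rw [Finset.sum_ite_mem, Finset.univ_inter]
        rw [h2, ← Finset.sum_sub_distrib, Finset.mul_sum, ← Finset.sum_add_distrib]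
        refine Finset.sum_congr rfl fun i _ => ?_
        by_cases hi : i ∈ N j
        · rw [if_pos hi, (hN i j).1 hi]
          ring
        · rw [if_neg hi]
          rcases hI i j hj with h | h
          · exact absurd ((hN i j).2 h) hi
          · rw [h]
            ring
      have h3 : s j ≤ ∑ i, y.2 i j :=
        Finset.sum_le_sum_of_subset_of_nonneg (Finset.subset_univ _) fun i _ _ => hx0 i j
      have h4 : max 0 (1 - s j) ≤ ∑ i, y.2 i j - s j :=
        max_le (by linarith) (by linarith [hx1 j])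
      have h5 : (D - 1) * max 0 (1 - s j) ≤ (D - 1) * (∑ i, y.2 i j - s j) :=
        mul_le_mul_of_nonneg_left h4 (by linarith)
      rw [h1]
      linarith [hx1 j]
    have hdist' : (I.clients.card : ℝ) + (D - 1) * ∑ j ∈ I.clients, max 0 (1 - s j) ≤
        ∑ j ∈ I.clients, ∑ i, I.space.dist (Sum.inl i) (Sum.inr j) * y.2 i j := by
      have h1 := Finset.sum_le_sum hdist
      rw [Finset.sum_add_distrib, Finset.sum_const, nsmul_eq_mul, mul_one, ← Finset.mul_sum] at h1
      exact h1
    have hfin := mul_le_mul_of_nonneg_left hdist' (by linarith : (0 : ℝ) ≤ b)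
    have hz0 : 0 ≤ (I.clients.card : ℝ) + (D - 1) * ∑ j ∈ I.clients, max 0 (1 - s j) :=
      add_nonneg (Nat.cast_nonneg _) (mul_nonneg (by linarith)
        (Finset.sum_nonneg fun j _ => le_max_left _ _))
    have hfin2 := mul_le_mul_of_nonneg_right hb hz0
    linarith

end Pool.Agent.Lib.P47s
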